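import Mathlib
import Pool.Agent.Helper78.SM.Seq

/-!
Jacobi recursions `v (i+1) = b i * v i - v (i-1)` along an orbit of the (kicked) standard map.
Block SK-JA: prove all the lemmas below.
-/

set_option autoImplicit false
open Real

namespace Pool.Agent.Helper95.SK

/-- forward solution of the Jacobi recursion, `D 0 = 0`, `D 1 = 1` -/
def D (b : ℕ → ℝ) : ℕ → ℝ
  | 0 => 0
  | 1 => 1
  | i + 2 => b (i+1) * D b (i+1) - D b i

/-- forward solution with zero initial data and a unit kick at `j` -/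
def q (b : ℕ → ℝ) (j : ℕ) : ℕ → ℝ
  | 0 => 0
  | 1 => 0
  | i + 2 => b (i+1) * q b j (i+1) - q b j i + (if i + 1 = j then 1 else 0)

/-- derivative of `D` when `b` has derivative `v` -/
def dD (b v : ℕ → ℝ) : ℕ → ℝ
  | 0 => 0
  | 1 => 0
  | i + 2 => b (i+1) * dD b v (i+1) - dD b v i + v (i+1) * D b (i+1)

/-- derivative of `q` when `b` has derivative `v` -/
def dq (b v : ℕ → ℝ) (j : ℕ) : ℕ → ℝ
  | 0 => 0
  | 1 => 0
  | i + 2 => b (i+1) * dq b v j (i+1) - dq b v j i + v (i+1) * q b j (i+1)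

/-- backward solution: `E (n+1) = 0`, `E n = 1` -/
def E (b : ℕ → ℝ) (n i : ℕ) : ℝ := D (fun k => b (n + 1 - k)) (n + 1 - i)

/-- the coefficient of the vector field -/
noncomputable def hh (b : ℕ → ℝ) (n j : ℕ) : ℝ := -(q b j (n+1) / D b (n+1))

/-- the shadowing solution: `Y 0 = Y (n+1) = 0`, kick at `j` -/
noncomputable def Y (b : ℕ → ℝ) (n j i : ℕ) : ℝ := q b j i + hh b n j * D b i

lemma D_rec (b : ℕ → ℝ) (i : ℕ) : D b (i+2) = b (i+1) * D b (i+1) - D b i := by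
  rw [D]

lemma q_rec (b : ℕ → ℝ) (j i : ℕ) :
    q b j (i+2) = b (i+1) * q b j (i+1) - q b j i + (if i + 1 = j then 1 else 0) := by
  rw [q]

lemma E_top (b : ℕ → ℝ) (n : ℕ) : E b n (n+1) = 0 := by
  simp [E, D]

lemma E_n (b : ℕ → ℝ) (n : ℕ) : E b n n = 1 := by
  simp [E, D]

lemma E_rec (b : ℕ → ℝ) {n i : ℕ} (h : i + 1 ≤ n) :
    E b n i = b (i+1) * E b n (i+1) - E b n (i+2) := by
  unfold E
  obtain ⟨k, rfl⟩ := Nat.exists_eq_add_of_le h
  rw [show i + 1 + k + 1 - i = k + 2 by omega, show i + 1 + k + 1 - (i + 1) = k + 1 by omega,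
    show i + 1 + k + 1 - (i + 2) = k by omega, D_rec]
  rw [show i + 1 + k + 1 - (k + 1) = i + 1 by omega]

lemma wronskian (b : ℕ → ℝ) {n i : ℕ} (h : i ≤ n) :
    D b (i+1) * E b n i - D b i * E b n (i+1) = E b n 0 := by
  induction i with
  | zero => simp [D]
  | succ i ih =>
    rw [← ih (by omega), E_rec b (show i + 1 ≤ n from h), D_rec]
    ring

lemma D_top (b : ℕ → ℝ) (n : ℕ) : D b (n+1) = E b n 0 := by
  have h := wronskian b (le_refl n)
  rw [E_n, E_top] at h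
  linarith

lemma q_low (b : ℕ → ℝ) {j i : ℕ} (h : i ≤ j) : q b j i = 0 := by
  induction i using Nat.twoStepInduction with
  | zero => rw [q]
  | one => rw [q]
  | more i ih1 ih2 =>
    rw [q_rec, ih1 (by omega), ih2 (by omega), if_neg (by omega)]
    ring

/-- variation of constants -/
lemma var43 (b : ℕ → ℝ) {w g : ℕ → ℝ} (n : ℕ) (h0 : w 0 = 0) (h1 : w 1 = 0)
    (hr : ∀ i, w (i+2) = b (i+1) * w (i+1) - w i + g (i+1)) {k : ℕ} (hk : k ≤ n) :
    w (k+1) * E b n k - w k * E b n (k+1) = ∑ i ∈ Finset.Icc 1 k, g i * E b n i := by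
  induction k with
  | zero => simp [h0, h1]
  | succ k ih =>
    have h2 := ih (by omega)
    rw [Finset.sum_Icc_succ_top (by omega : 1 ≤ k + 1), ← h2, E_rec b (show k + 1 ≤ n from hk), hr k]
    ring

lemma var_top43 (b : ℕ → ℝ) {w g : ℕ → ℝ} (n : ℕ) (h0 : w 0 = 0) (h1 : w 1 = 0)
    (hr : ∀ i, w (i+2) = b (i+1) * w (i+1) - w i + g (i+1)) :
    w (n+1) = ∑ i ∈ Finset.Icc 1 n, g i * E b n i := by
  have h := var43 b n h0 h1 hr (le_refl n)
  rw [E_n, E_top] at h
  linarith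

lemma q_high (b : ℕ → ℝ) {n j i : ℕ} (hj : 1 ≤ j) (hji : j ≤ i) (hin : i ≤ n + 1) :
    q b j i * E b n 0 = E b n j * D b i - D b j * E b n i := by
  obtain ⟨k, rfl⟩ := Nat.exists_eq_add_of_le hji
  clear hji
  induction k using Nat.twoStepInduction with
  | zero =>
    rw [add_zero, q_low b (le_refl j)]; ring
  | one =>
    obtain ⟨j, rfl⟩ := Nat.exists_eq_add_of_le' hj
    rw [q_rec, q_low b (le_refl (j+1)), q_low b (show j ≤ j + 1 by omega), if_pos rfl]
    have h := wronskian b (show j + 1 ≤ n by omega)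
    linear_combination -h
  | more k ih1 ih2 =>
    have e1 := ih1 (by omega)
    have e2 := ih2 (by omega)
    have e3 := E_rec b (show j + k + 1 ≤ n by omega)
    have e4 := D_rec b (j + k)
    have e5 := q_rec b j (j + k)
    rw [if_neg (by omega)] at e5
    rw [show j + (k + 1) = j + k + 1 by omega] at e2
    rw [show j + (k + 2) = j + k + 2 by omega, e5, e4]
    linear_combination b (j + k + 1) * e2 - e1 + D b j * e3

lemma q_top (b : ℕ → ℝ) {n j : ℕ} (hj : 1 ≤ j) (hjn : j ≤ n) : q b j (n+1) = E b n j := by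
  have h := var_top43 b (w := q b j) (g := fun i => if i = j then 1 else 0) n (by rw [q]) (by rw [q])
    (fun i => q_rec b j i)
  rw [h]
  simp only [ite_mul, one_mul, zero_mul]
  rw [Finset.sum_ite_eq' (Finset.Icc 1 n) j (fun i => E b n i), if_pos (Finset.mem_Icc.2 ⟨hj, hjn⟩)]

lemma Y_zero (b : ℕ → ℝ) (n j : ℕ) : Y b n j 0 = 0 := by
  simp [Y, q, D]

lemma Y_top (b : ℕ → ℝ) {n j : ℕ} (h : D b (n+1) ≠ 0) : Y b n j (n+1) = 0 := by
  unfold Y hh
  field_simp
  ring

section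
variable {b : ℕ → ℝ} {M : ℝ} {n : ℕ}

lemma growD (hM : 16 ≤ M) (hp : ∀ i, 1 ≤ i → i < n → M ≤ |b i * b (i+1)|) {i : ℕ} (h1 : 1 ≤ i)
    (hin : i ≤ n) : |b i| * |D b i| ≤ 2 * |D b (i+1)| := by
  obtain ⟨k, rfl⟩ := Nat.exists_eq_add_of_le' h1
  have h := Pool.Agent.Helper78.SM.grow_fwd (f := fun k => b (k+1)) (v := D b) (κ := M) (N := n)
    (by linarith) (fun i => D_rec b i) (by rw [D]) (fun i hi => hp (i+1) (by omega) (by omega)) k
    (by omega)
  exact h

lemma growE (hM : 16 ≤ M) (hp : ∀ i, 1 ≤ i → i < n → M ≤ |b i * b (i+1)|) {i : ℕ}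
    (hin : i + 1 ≤ n) : |b (i+1)| * |E b n (i+1)| ≤ 2 * |E b n i| := by
  have hp' : ∀ k, 1 ≤ k → k < n →
      M ≤ |(fun k => b (n + 1 - k)) k * (fun k => b (n + 1 - k)) (k+1)| := by
    intro k hk1 hk2
    have h := hp (n - k) (by omega) (by omega)
    beta_reduce
    rw [show n + 1 - k = n - k + 1 by omega, show n + 1 - (k + 1) = n - k by omega, mul_comm]
    exact h
  have h := growD (b := fun k => b (n + 1 - k)) hM hp' (i := n - i) (by omega) (by omega)
  beta_reduce at h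
  unfold E
  rw [show n + 1 - (i + 1) = n - i by omega, show n + 1 - i = n - i + 1 by omega]
  rw [show n + 1 - (n - i) = i + 1 by omega] at h
  exact h

private lemma b_ne43 (hn : 2 ≤ n) (hM : 16 ≤ M) (hp : ∀ i, 1 ≤ i → i < n → M ≤ |b i * b (i+1)|)
    {i : ℕ} (h1 : 1 ≤ i) (hin : i ≤ n) : 0 < |b i| := by
  rw [abs_pos]
  intro h0
  rcases Nat.lt_or_ge i n with h | h
  · have h2 := hp i h1 h
    rw [h0, zero_mul, abs_zero] at h2
    linarith
  · have h3 : i = n := by omega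
    have h2 := hp (n - 1) (by omega) (by omega)
    rw [show n - 1 + 1 = n by omega, ← h3, h0, mul_zero, abs_zero] at h2
    linarith

lemma D_ne (hn : 2 ≤ n) (hM : 16 ≤ M) (hp : ∀ i, 1 ≤ i → i < n → M ≤ |b i * b (i+1)|) {i : ℕ}
    (h1 : 1 ≤ i) (hin : i ≤ n + 1) : D b i ≠ 0 := by
  induction i with
  | zero => omega
  | succ i ih =>
    rcases Nat.eq_zero_or_pos i with h0 | h0
    · subst h0
      rw [zero_add, D]; exact one_ne_zero
    · have h2 := ih h0 (by omega)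
      have h3 := growD hM hp h0 (by omega)
      have h4 := b_ne43 hn hM hp h0 (by omega)
      have h5 : 0 < |b i| * |D b i| := mul_pos h4 (abs_pos.2 h2)
      rw [← abs_pos]
      linarith

private lemma D_prev43 (hM : 16 ≤ M) (hp : ∀ i, 1 ≤ i → i < n → M ≤ |b i * b (i+1)|) {i : ℕ}
    (hin : i + 1 ≤ n) : 8 * |D b i| ≤ |b (i+1)| * |D b (i+1)| := by
  rcases Nat.eq_zero_or_pos i with h0 | h0
  · subst h0
    have : D b 0 = 0 := by rw [D]
    rw [this, abs_zero, mul_zero]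
    positivity
  · have h3 := growD hM hp h0 (by omega)
    have h4 := hp i h0 (by omega)
    rw [abs_mul] at h4
    have h5 : 16 * |D b i| ≤ (|b i| * |b (i+1)|) * |D b i| :=
      mul_le_mul_of_nonneg_right (by linarith) (abs_nonneg _)
    have h6 := mul_le_mul_of_nonneg_left h3 (abs_nonneg (b (i+1)))
    nlinarith

private lemma E_next43 (hM : 16 ≤ M) (hp : ∀ i, 1 ≤ i → i < n → M ≤ |b i * b (i+1)|) {i : ℕ}
    (h1 : 1 ≤ i) (hin : i ≤ n) : 8 * |E b n (i+1)| ≤ |b i| * |E b n i| := by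
  rcases Nat.lt_or_ge i n with h | h
  · have h3 := growE hM hp (i := i) (by omega)
    have h4 := hp i h1 h
    rw [abs_mul] at h4
    have h5 : 16 * |E b n (i+1)| ≤ (|b i| * |b (i+1)|) * |E b n (i+1)| :=
      mul_le_mul_of_nonneg_right (by linarith) (abs_nonneg _)
    have h6 := mul_le_mul_of_nonneg_left h3 (abs_nonneg (b i))
    nlinarith
  · have h3 : i = n := by omega
    rw [h3, E_top, abs_zero, mul_zero]
    positivity

/-- the diagonal of the Green function -/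
lemma diag (hn : 2 ≤ n) (hM : 16 ≤ M) (hp : ∀ i, 1 ≤ i → i < n → M ≤ |b i * b (i+1)|) {i : ℕ}
    (h1 : 1 ≤ i) (hin : i ≤ n) : |b i| * |D b i * E b n i / E b n 0| ≤ 3 := by
  obtain ⟨k, rfl⟩ := Nat.exists_eq_add_of_le' h1
  have hE0 : E b n 0 ≠ 0 := by
    rw [← D_top]
    exact D_ne hn hM hp (by omega) (le_refl _)
  have hE0' : 0 < |E b n 0| := abs_pos.2 hE0
  have hw := wronskian b hin
  rw [D_rec] at hw
  have hD := D_prev43 hM hp (i := k) (by omega)
  have hE := E_next43 hM hp (i := k + 1) (by omega) hin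
  rw [abs_div, ← mul_div_assoc, div_le_iff₀ hE0', abs_mul]
  have e1 : b (k+1) * (D b (k+1) * E b n (k+1)) =
      E b n 0 + D b k * E b n (k+1) + D b (k+1) * E b n (k+1+1) := by linear_combination hw
  have e2 : |b (k+1)| * (|D b (k+1)| * |E b n (k+1)|) ≤
      |E b n 0| + |D b k| * |E b n (k+1)| + |D b (k+1)| * |E b n (k+1+1)| := by
    rw [← abs_mul, ← abs_mul, ← abs_mul, ← abs_mul, e1]
    exact (abs_add_le _ _).trans (add_le_add_left (abs_add_le _ _) _)
  have e3 := mul_le_mul_of_nonneg_right hD (abs_nonneg (E b n (k+1)))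
  have e4 := mul_le_mul_of_nonneg_left hE (abs_nonneg (D b (k+1)))
  have e5 : 0 ≤ |b (k+1)| * (|D b (k+1)| * |E b n (k+1)|) := by positivity
  nlinarith

private lemma hh_eq43 {j : ℕ} (hj : 1 ≤ j) (hjn : j ≤ n) : hh b n j = -(E b n j / E b n 0) := by
  unfold hh
  rw [q_top b hj hjn, D_top]

private lemma Y_le43 {j i : ℕ} (hj : 1 ≤ j) (hjn : j ≤ n) (hij : i ≤ j) :
    Y b n j i = -(E b n j / E b n 0) * D b i := by
  unfold Y
  rw [hh_eq43 hj hjn, q_low b hij, zero_add]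

private lemma Y_ge43 {j i : ℕ} (hE : E b n 0 ≠ 0) (hj : 1 ≤ j) (hji : j ≤ i) (hjn : j ≤ n)
    (hin : i ≤ n + 1) : Y b n j i = -(D b j / E b n 0) * E b n i := by
  have h := q_high b hj hji hin
  have h2 : q b j i = (E b n j * D b i - D b j * E b n i) / E b n 0 := by
    rw [eq_div_iff hE]; exact h
  unfold Y
  rw [hh_eq43 hj hjn, h2]
  ring

lemma Y_left (hn : 2 ≤ n) (hM : 16 ≤ M) (hp : ∀ i, 1 ≤ i → i < n → M ≤ |b i * b (i+1)|) {j i : ℕ}
    (hj : 1 ≤ j) (hjn : j ≤ n) (h1 : 1 ≤ i) (hij : i + 1 ≤ j) :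
    |b i| * |Y b n j i| ≤ 2 * |Y b n j (i+1)| := by
  rw [Y_le43 hj hjn (by omega), Y_le43 hj hjn hij, abs_mul, abs_mul]
  have h := growD hM hp h1 (show i ≤ n by omega)
  have h2 := mul_le_mul_of_nonneg_left h (abs_nonneg (-(E b n j / E b n 0)))
  linarith

lemma Y_right (hn : 2 ≤ n) (hM : 16 ≤ M) (hp : ∀ i, 1 ≤ i → i < n → M ≤ |b i * b (i+1)|)
    {j i : ℕ} (hj : 1 ≤ j) (hji : j ≤ i) (hin : i + 1 ≤ n) :
    |b (i+1)| * |Y b n j (i+1)| ≤ 2 * |Y b n j i| := by
  have hE0 : E b n 0 ≠ 0 := by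
    rw [← D_top]
    exact D_ne hn hM hp (by omega) (le_refl _)
  rw [Y_ge43 hE0 hj (by omega) (by omega) (by omega), Y_ge43 hE0 hj hji (by omega) (by omega),
    abs_mul, abs_mul]
  have h := growE hM hp hin
  have h2 := mul_le_mul_of_nonneg_left h (abs_nonneg (-(D b j / E b n 0)))
  linarith

lemma Y_mid (hn : 2 ≤ n) (hM : 16 ≤ M) (hp : ∀ i, 1 ≤ i → i < n → M ≤ |b i * b (i+1)|)
    {j : ℕ} (hj : 1 ≤ j) (hjn : j ≤ n) : |b j| * |Y b n j j| ≤ 3 := by
  have h := diag hn hM hp hj hjn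
  rw [Y_le43 hj hjn (le_refl j)]
  rw [show -(E b n j / E b n 0) * D b j = -(D b j * E b n j / E b n 0) by ring, abs_neg]
  exact h

/-- the divergence formula: derivative of the quotient `hh` -/
lemma dh_formula (v : ℕ → ℝ) {j : ℕ} (hj : 1 ≤ j) (hjn : j ≤ n) (h : D b (n+1) ≠ 0) :
    -((dq b v j (n+1) * D b (n+1) - q b j (n+1) * dD b v (n+1)) / D b (n+1) ^ 2) =
      -∑ i ∈ Finset.Icc 1 n, v i * Y b n j i * (E b n i / E b n 0) := by
  have hE : E b n 0 ≠ 0 := by rwa [← D_top]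
  have h1 := var_top43 b (w := dD b v) (g := fun i => v i * D b i) n (by rw [dD]) (by rw [dD])
    (fun i => by rw [dD])
  have h2 := var_top43 b (w := dq b v j) (g := fun i => v i * q b j i) n (by rw [dq]) (by rw [dq])
    (fun i => by rw [dq])
  rw [h1, h2, q_top b hj hjn, D_top]
  congr 1
  have e1 : ∀ i ∈ Finset.Icc 1 n, v i * Y b n j i * (E b n i / E b n 0) =
      (v i * q b j i * E b n i * E b n 0 - E b n j * (v i * D b i * E b n i)) / E b n 0 ^ 2 := by
    intro i _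
    unfold Y
    rw [hh_eq43 hj hjn]
    field_simp
    ring
  rw [Finset.sum_congr rfl e1, ← Finset.sum_div, Finset.sum_sub_distrib, Finset.mul_sum,
    Finset.sum_mul]

end

/-- derivatives of `D` and `q` along a path -/
lemma hasDerivAt_D {b : ℝ → ℕ → ℝ} {v : ℕ → ℝ} {t : ℝ}
    (h : ∀ i, HasDerivAt (fun s => b s i) (v i) t) (i : ℕ) :
    HasDerivAt (fun s => D (b s) i) (dD (b t) v i) t := by
  induction i using Nat.twoStepInduction with
  | zero =>
    simp only [D, dD]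
    exact hasDerivAt_const t (0 : ℝ)
  | one =>
    simp only [D, dD]
    exact hasDerivAt_const t (1 : ℝ)
  | more i ih1 ih2 =>
    have h3 := ((h (i+1)).mul ih2).sub ih1
    have e1 : (fun s => D (b s) (i+2)) = fun s => b s (i+1) * D (b s) (i+1) - D (b s) i := by
      funext s; rw [D_rec]
    rw [e1]
    refine h3.congr_deriv ?_
    rw [dD]
    ring

lemma hasDerivAt_q {b : ℝ → ℕ → ℝ} {v : ℕ → ℝ} {t : ℝ}
    (h : ∀ i, HasDerivAt (fun s => b s i) (v i) t) (j i : ℕ) :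
    HasDerivAt (fun s => q (b s) j i) (dq (b t) v j i) t := by
  induction i using Nat.twoStepInduction with
  | zero =>
    simp only [q, dq]
    exact hasDerivAt_const t (0 : ℝ)
  | one =>
    simp only [q, dq]
    exact hasDerivAt_const t (0 : ℝ)
  | more i ih1 ih2 =>
    have h3 := (((h (i+1)).mul ih2).sub ih1).add_const (if i + 1 = j then (1 : ℝ) else 0)
    have e1 : (fun s => q (b s) j (i+2)) =
        fun s => b s (i+1) * q (b s) j (i+1) - q (b s) j i + (if i + 1 = j then 1 else 0) := by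
      funext s; rw [q_rec]
    rw [e1]
    refine h3.congr_deriv ?_
    rw [dq]
    ring

end Pool.Agent.Helper95.SK
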