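import Mathlib
import Pool.Agent.Helper78.SM.Expect
import Pool.Agent.Helper95.SK.Jac

/-!
Orbits of the kicked standard map. `xi 0 = y`, `xi 1 = x + c 0`,
`xi (i+2) = psi (xi (i+1)) - xi i + c (i+1)`.
Block SK-OR: prove all the lemmas below.
-/

set_option autoImplicit false
open Real MeasureTheory Set

namespace Pool.Agent.Helper95.SK

open Pool.Agent.Helper78.SM (psi phi dphi hasDerivAt_psi hasDerivAt_phi zc X sq)

/-- orbit of the kicked standard map -/
noncomputable def xi (a : ℝ) (c : ℕ → ℝ) (x y : ℝ) : ℕ → ℝ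
  | 0 => y
  | 1 => x + c 0
  | i + 2 => psi a (xi a c x y (i+1)) - xi a c x y i + c (i+1)

/-- coefficients of the linearised equation along the orbit -/
noncomputable def bb (a : ℝ) (c : ℕ → ℝ) (x y : ℝ) (i : ℕ) : ℝ := phi a (xi a c x y i)

/-- derivative of `bb` in `x` -/
noncomputable def vx (a : ℝ) (c : ℕ → ℝ) (x y : ℝ) (i : ℕ) : ℝ :=
  dphi a (xi a c x y i) * D (bb a c x y) i

/-- derivative of `bb` in the kick `c j` -/
noncomputable def vc (a : ℝ) (c : ℕ → ℝ) (x y : ℝ) (j i : ℕ) : ℝ :=
  dphi a (xi a c x y i) * q (bb a c x y) j i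

lemma xi_rec (a : ℝ) (c : ℕ → ℝ) (x y : ℝ) (i : ℕ) :
    xi a c x y (i+2) = psi a (xi a c x y (i+1)) - xi a c x y i + c (i+1) := by
  rw [xi]

/-- relation to the orbits of `Helper78` -/
lemma xi_succ_eq_zc (a : ℝ) (c : ℕ → ℝ) (x y : ℝ) (k : ℕ) :
    xi a c x y (k+1) = zc a c k (x, y) := by
  induction k using Nat.twoStepInduction with
  | zero => rfl
  | one =>
    rw [Pool.Agent.Helper78.SM.zc_succ, xi_rec]
    rfl
  | more k ih1 ih2 =>
    rw [Pool.Agent.Helper78.SM.zc_succ, Pool.Agent.Helper78.SM.X_succ_snd, ← ih1, ← ih2, xi_rec]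

lemma hasDerivAt_xi_x (a : ℝ) (c : ℕ → ℝ) (x y : ℝ) (i : ℕ) :
    HasDerivAt (fun x => xi a c x y i) (D (bb a c x y) i) x := by
  induction i using Nat.twoStepInduction with
  | zero =>
    simp only [xi, D]
    exact hasDerivAt_const x y
  | one =>
    simp only [xi, D]
    exact (hasDerivAt_id x).add_const (c 0)
  | more i ih1 ih2 =>
    have h3 := (((hasDerivAt_psi a (xi a c x y (i+1))).comp x ih2).sub ih1).add_const (c (i+1))
    have e1 : (fun x => xi a c x y (i+2)) =
        fun x => (psi a ∘ fun x => xi a c x y (i+1)) x - xi a c x y i + c (i+1) := by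
      funext x; rw [xi_rec]; rfl
    rw [e1]
    refine h3.congr_deriv ?_
    rw [D_rec]
    rfl

lemma hasDerivAt_xi_c (a : ℝ) (c : ℕ → ℝ) (x y : ℝ) {j : ℕ} (hj : 1 ≤ j) (s : ℝ) (i : ℕ) :
    HasDerivAt (fun s => xi a (Function.update c j s) x y i)
      (q (bb a (Function.update c j s) x y) j i) s := by
  induction i using Nat.twoStepInduction with
  | zero =>
    simp only [xi, q]
    exact hasDerivAt_const s y
  | one =>
    simp only [xi, q]
    have e1 : (fun s => x + Function.update c j s 0) = fun _ => x + c 0 := by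
      funext s
      rw [Function.update_of_ne (by omega)]
    rw [e1]
    exact hasDerivAt_const s (x + c 0)
  | more i ih1 ih2 =>
    have h0 : HasDerivAt (fun s => Function.update c j s (i+1))
        (if i + 1 = j then (1 : ℝ) else 0) s := by
      by_cases h : i + 1 = j
      · subst h
        rw [if_pos rfl]
        have e1 : (fun s => Function.update c (i+1) s (i+1)) = fun s => s := by
          funext s
          rw [Function.update_self]
        rw [e1]
        exact hasDerivAt_id s
      · rw [if_neg h]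
        have e1 : (fun s => Function.update c j s (i+1)) = fun _ => c (i+1) := by
          funext s
          rw [Function.update_of_ne h]
        rw [e1]
        exact hasDerivAt_const s (c (i+1))
    have h3 := (((hasDerivAt_psi a (xi a (Function.update c j s) x y (i+1))).comp s ih2).sub
      ih1).add h0
    have e1 : (fun s => xi a (Function.update c j s) x y (i+2)) =
        fun s => (psi a ∘ fun s => xi a (Function.update c j s) x y (i+1)) s -
          xi a (Function.update c j s) x y i + Function.update c j s (i+1) := by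
      funext s; rw [xi_rec]; rfl
    rw [e1]
    refine h3.congr_deriv ?_
    rw [q_rec]
    rfl

lemma hasDerivAt_bb_x (a : ℝ) (c : ℕ → ℝ) (x y : ℝ) (i : ℕ) :
    HasDerivAt (fun x => bb a c x y i) (vx a c x y i) x := by
  exact (hasDerivAt_phi a (xi a c x y i)).comp x (hasDerivAt_xi_x a c x y i)

lemma hasDerivAt_bb_c (a : ℝ) (c : ℕ → ℝ) (x y : ℝ) {j : ℕ} (hj : 1 ≤ j) (s : ℝ) (i : ℕ) :
    HasDerivAt (fun s => bb a (Function.update c j s) x y i)
      (vc a (Function.update c j s) x y j i) s := by
  exact (hasDerivAt_phi a (xi a (Function.update c j s) x y i)).comp s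
    (hasDerivAt_xi_c a c x y hj s i)

private lemma psi_add_int_h27 (a z : ℝ) (k : ℤ) : psi a (z + k) = psi a z + (2 * k : ℤ) := by
  unfold Pool.Agent.Helper78.SM.psi
  rw [show 2 * π * (z + k) = 2 * π * z + k * (2 * π) by ring, Real.sin_add_int_mul_two_pi]
  push_cast
  ring

private lemma phi_add_int_h27 (a z : ℝ) (k : ℤ) : phi a (z + k) = phi a z := by
  unfold Pool.Agent.Helper78.SM.phi
  rw [show 2 * π * (z + k) = 2 * π * z + k * (2 * π) by ring, Real.cos_add_int_mul_two_pi]

/-- `1`-periodicity in `x` modulo integers -/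
lemma xi_add_one (a : ℝ) (c : ℕ → ℝ) (x y : ℝ) (i : ℕ) :
    ∃ k : ℤ, xi a c (x + 1) y i = xi a c x y i + k := by
  induction i using Nat.twoStepInduction with
  | zero => exact ⟨0, by simp [xi]⟩
  | one => exact ⟨1, by simp only [xi]; push_cast; ring⟩
  | more i ih1 ih2 =>
    obtain ⟨k1, h1⟩ := ih1
    obtain ⟨k2, h2⟩ := ih2
    refine ⟨2 * k2 - k1, ?_⟩
    rw [xi_rec, xi_rec, h1, h2, psi_add_int_h27]
    push_cast
    ring

lemma bb_add_one (a : ℝ) (c : ℕ → ℝ) (x y : ℝ) (i : ℕ) :
    bb a c (x + 1) y i = bb a c x y i := by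
  obtain ⟨k, h⟩ := xi_add_one a c x y i
  unfold bb
  rw [h, phi_add_int_h27]

/-- changing a kick by an integer changes the orbit by integers -/
lemma xi_kick_int (a : ℝ) (c : ℕ → ℝ) (x y : ℝ) (j : ℕ) (s : ℝ) (k : ℤ) (i : ℕ) :
    ∃ l : ℤ, xi a (Function.update c j (s + k)) x y i =
      xi a (Function.update c j s) x y i + l := by
  have h0 : ∀ m : ℕ, ∃ l : ℤ, Function.update c j (s + k) m = Function.update c j s m + l := by
    intro m
    by_cases h : m = j
    · subst h
      exact ⟨k, by rw [Function.update_self, Function.update_self]⟩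
    · exact ⟨0, by rw [Function.update_of_ne h, Function.update_of_ne h]; simp⟩
  induction i using Nat.twoStepInduction with
  | zero => exact ⟨0, by simp [xi]⟩
  | one =>
    obtain ⟨l, hl⟩ := h0 0
    exact ⟨l, by simp only [xi]; rw [hl]; ring⟩
  | more i ih1 ih2 =>
    obtain ⟨k1, h1⟩ := ih1
    obtain ⟨k2, h2⟩ := ih2
    obtain ⟨l, hl⟩ := h0 (i+1)
    refine ⟨2 * k2 - k1 + l, ?_⟩
    rw [xi_rec, xi_rec, h1, h2, psi_add_int_h27, hl]
    push_cast
    ring

private lemma cont_psi_h27 (a : ℝ) : Continuous (psi a) := by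
  unfold Pool.Agent.Helper78.SM.psi
  fun_prop

private lemma cont_phi_h27 (a : ℝ) : Continuous (phi a) := by
  unfold Pool.Agent.Helper78.SM.phi
  fun_prop

private lemma cont_update_h27 (c : ℕ → ℝ) (j m : ℕ) :
    Continuous (fun p : ℝ × ℝ × ℝ => Function.update c j p.1 m) := by
  by_cases h : m = j
  · subst h
    have e1 : (fun p : ℝ × ℝ × ℝ => Function.update c m p.1 m) = fun p => p.1 := by
      funext p
      rw [Function.update_self]
    rw [e1]
    exact continuous_fst
  · have e1 : (fun p : ℝ × ℝ × ℝ => Function.update c j p.1 m) = fun _ => c m := by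
      funext p
      rw [Function.update_of_ne h]
    rw [e1]
    exact continuous_const

/-- joint continuity -/
lemma continuous_xi (a : ℝ) (c : ℕ → ℝ) (j i : ℕ) :
    Continuous (fun p : ℝ × ℝ × ℝ => xi a (Function.update c j p.1) p.2.1 p.2.2 i) := by
  induction i using Nat.twoStepInduction with
  | zero =>
    simp only [xi]
    exact continuous_snd.comp continuous_snd
  | one =>
    simp only [xi]
    exact (continuous_fst.comp continuous_snd).add (cont_update_h27 c j 0)
  | more i ih1 ih2 =>
    have e1 : (fun p : ℝ × ℝ × ℝ => xi a (Function.update c j p.1) p.2.1 p.2.2 (i+2)) =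
        fun p => psi a (xi a (Function.update c j p.1) p.2.1 p.2.2 (i+1)) -
          xi a (Function.update c j p.1) p.2.1 p.2.2 i + Function.update c j p.1 (i+1) := by
      funext p
      rw [xi_rec]
    rw [e1]
    exact (((cont_psi_h27 a).comp ih2).sub ih1).add (cont_update_h27 c j (i+1))

lemma continuous_bb (a : ℝ) (c : ℕ → ℝ) (j i : ℕ) :
    Continuous (fun p : ℝ × ℝ × ℝ => bb a (Function.update c j p.1) p.2.1 p.2.2 i) := by
  exact (cont_phi_h27 a).comp (continuous_xi a c j i)

/-- continuity of `D` and `q` along continuous families -/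
lemma continuous_D {X : Type*} [TopologicalSpace X] {b : X → ℕ → ℝ}
    (h : ∀ i, Continuous (fun p => b p i)) (i : ℕ) : Continuous (fun p => D (b p) i) := by
  induction i using Nat.twoStepInduction with
  | zero =>
    simp only [D]
    exact continuous_const
  | one =>
    simp only [D]
    exact continuous_const
  | more i ih1 ih2 =>
    have e1 : (fun p => D (b p) (i+2)) = fun p => b p (i+1) * D (b p) (i+1) - D (b p) i := by
      funext p
      rw [D_rec]
    rw [e1]
    exact ((h (i+1)).mul ih2).sub ih1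

lemma continuous_q {X : Type*} [TopologicalSpace X] {b : X → ℕ → ℝ}
    (h : ∀ i, Continuous (fun p => b p i)) (j i : ℕ) : Continuous (fun p => q (b p) j i) := by
  induction i using Nat.twoStepInduction with
  | zero =>
    simp only [q]
    exact continuous_const
  | one =>
    simp only [q]
    exact continuous_const
  | more i ih1 ih2 =>
    have e1 : (fun p => q (b p) j (i+2)) =
        fun p => b p (i+1) * q (b p) j (i+1) - q (b p) j i + (if i + 1 = j then 1 else 0) := by
      funext p
      rw [q_rec]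
    rw [e1]
    exact (((h (i+1)).mul ih2).sub ih1).add continuous_const

lemma abs_bb_le {a : ℝ} (ha : 1 ≤ |a|) (c : ℕ → ℝ) (x y : ℝ) (i : ℕ) :
    |bb a c x y i| ≤ 9 * |a| := by
  exact Pool.Agent.Helper78.SM.abs_phi_le ha _

end Pool.Agent.Helper95.SK
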