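import Mathlib
import Pool.Agent.Helper95.SK.Orb

/-!
Products of smooth observables along the orbit. The state at time `m` is `(xi (m+1), xi m)`.
Block SK-FU: prove all the lemmas below.
-/

set_option autoImplicit false
open Real MeasureTheory Set

namespace Pool.Agent.Helper95.SK

open Pool.Agent.Helper78.SM (psi phi dphi hasDerivAt_psi hasDerivAt_phi zc X sq)

/-- smooth doubly periodic observables with Lipschitz constant `L` -/
structure Obs (L : ℝ) (g : ℝ × ℝ → ℝ) : Prop where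
  smooth : ContDiff ℝ 1 g
  bdd : ∀ p, |g p| ≤ 1
  lip : ∀ p, ‖fderiv ℝ g p‖ ≤ L
  per1 : ∀ (x y : ℝ) (k : ℤ), g (x + k, y) = g (x, y)
  per2 : ∀ (x y : ℝ) (k : ℤ), g (x, y + k) = g (x, y)

/-- the state at time `m` -/
noncomputable def st (a : ℝ) (c : ℕ → ℝ) (x y : ℝ) (m : ℕ) : ℝ × ℝ :=
  (xi a c x y (m+1), xi a c x y m)

/-- product of `k` observables at the times `t 0, ..., t (k-1)` -/
noncomputable def FF (a : ℝ) (g : ℕ → ℝ × ℝ → ℝ) (t : ℕ → ℕ) (k : ℕ) (c : ℕ → ℝ) (x y : ℝ) : ℝ :=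
  ∏ i ∈ Finset.range k, g i (st a c x y (t i))

/-- derivative of `FF` when `xi` has derivative `w` -/
noncomputable def dFF (a : ℝ) (g : ℕ → ℝ × ℝ → ℝ) (t : ℕ → ℕ) (k : ℕ) (c : ℕ → ℝ) (x y : ℝ)
    (w : ℕ → ℝ) : ℝ :=
  ∑ i ∈ Finset.range k, (∏ l ∈ (Finset.range k).erase i, g l (st a c x y (t l))) *
    fderiv ℝ (g i) (st a c x y (t i)) (w (t i + 1), w (t i))

private lemma obs_differentiable_31 {L : ℝ} {g : ℝ × ℝ → ℝ} (h : Obs L g) : Differentiable ℝ g :=
  h.smooth.differentiable (by norm_num)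

private lemma obs_per_31 {L : ℝ} {g : ℝ × ℝ → ℝ} (h : Obs L g) (x y : ℝ) (k l : ℤ) :
    g (x + k, y + l) = g (x, y) := by
  rw [h.per1, h.per2]

private lemma hasDerivAt_FF_31 {a L : ℝ} {g : ℕ → ℝ × ℝ → ℝ} {t : ℕ → ℕ} {k : ℕ}
    (hg : ∀ i, Obs L (g i)) {z : ℝ → ℕ → ℝ} {w : ℕ → ℝ} {s : ℝ} {c : ℕ → ℝ} {x y : ℝ}
    (hz : ∀ i, HasDerivAt (fun s => z s i) (w i) s)
    (hs : ∀ i, z s i = xi a c x y i) :
    HasDerivAt (fun s => ∏ i ∈ Finset.range k, g i (z s (t i + 1), z s (t i)))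
      (dFF a g t k c x y w) s := by
  have h1 : ∀ i ∈ Finset.range k, HasDerivAt (fun s => g i (z s (t i + 1), z s (t i)))
      (fderiv ℝ (g i) (st a c x y (t i)) (w (t i + 1), w (t i))) s := by
    intro i _
    have h2 : HasDerivAt (fun s => ((z s (t i + 1), z s (t i)) : ℝ × ℝ))
        (w (t i + 1), w (t i)) s := (hz (t i + 1)).prodMk (hz (t i))
    have h3 : HasFDerivAt (g i) (fderiv ℝ (g i) (z s (t i + 1), z s (t i)))
        (z s (t i + 1), z s (t i)) := (obs_differentiable_31 (hg i) _).hasFDerivAt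
    have h4 := h3.comp_hasDerivAt s h2
    rw [hs, hs] at h4
    exact h4
  have h5 := HasDerivAt.fun_finsetProd h1
  refine h5.congr_deriv ?_
  unfold dFF
  refine Finset.sum_congr rfl (fun i _ => ?_)
  rw [smul_eq_mul]
  congr 1
  refine Finset.prod_congr rfl (fun l _ => ?_)
  rw [hs, hs]
  rfl

section
variable {a L : ℝ} {g : ℕ → ℝ × ℝ → ℝ} {t : ℕ → ℕ} {k : ℕ}

lemma hasDerivAt_FF_x (hg : ∀ i, Obs L (g i)) (c : ℕ → ℝ) (x y : ℝ) :
    HasDerivAt (fun x => FF a g t k c x y) (dFF a g t k c x y (D (bb a c x y))) x := by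
  exact hasDerivAt_FF_31 (z := fun x i => xi a c x y i) hg (fun i => hasDerivAt_xi_x a c x y i)
    (fun i => rfl)

lemma hasDerivAt_FF_c (hg : ∀ i, Obs L (g i)) (c : ℕ → ℝ) (x y : ℝ) {j : ℕ} (hj : 1 ≤ j) (s : ℝ) :
    HasDerivAt (fun s => FF a g t k (Function.update c j s) x y)
      (dFF a g t k (Function.update c j s) x y (q (bb a (Function.update c j s) x y) j)) s := by
  exact hasDerivAt_FF_31 (z := fun s i => xi a (Function.update c j s) x y i) hg
    (fun i => hasDerivAt_xi_c a c x y hj s i) (fun i => rfl)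

lemma dFF_linear (c : ℕ → ℝ) (x y : ℝ) (v w : ℕ → ℝ) (r : ℝ) :
    dFF a g t k c x y (fun i => v i + r * w i) =
      dFF a g t k c x y v + r * dFF a g t k c x y w := by
  unfold dFF
  rw [Finset.mul_sum, ← Finset.sum_add_distrib]
  refine Finset.sum_congr rfl (fun i _ => ?_)
  have h : ((v (t i + 1) + r * w (t i + 1), v (t i) + r * w (t i)) : ℝ × ℝ) =
      (v (t i + 1), v (t i)) + r • (w (t i + 1), w (t i)) := by
    simp
  rw [h, map_add, map_smul, smul_eq_mul]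
  ring

lemma abs_FF_le (hg : ∀ i, Obs L (g i)) (c : ℕ → ℝ) (x y : ℝ) : |FF a g t k c x y| ≤ 1 := by
  unfold FF
  rw [Finset.abs_prod]
  exact Finset.prod_le_one (fun i _ => abs_nonneg _) (fun i _ => (hg i).bdd _)

lemma abs_dFF_le (hg : ∀ i, Obs L (g i)) (c : ℕ → ℝ) (x y : ℝ) (w : ℕ → ℝ) :
    |dFF a g t k c x y w| ≤ ∑ i ∈ Finset.range k, L * max |w (t i + 1)| |w (t i)| := by
  unfold dFF
  refine (Finset.abs_sum_le_sum_abs _ _).trans (Finset.sum_le_sum (fun i _ => ?_))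
  rw [abs_mul, Finset.abs_prod]
  have h1 : ∏ l ∈ (Finset.range k).erase i, |g l (st a c x y (t l))| ≤ 1 :=
    Finset.prod_le_one (fun i _ => abs_nonneg _) (fun i _ => (hg i).bdd _)
  have h2 : |fderiv ℝ (g i) (st a c x y (t i)) (w (t i + 1), w (t i))| ≤
      L * max |w (t i + 1)| |w (t i)| := by
    have h3 := (fderiv ℝ (g i) (st a c x y (t i))).le_opNorm (w (t i + 1), w (t i))
    rw [Real.norm_eq_abs] at h3
    refine h3.trans ?_
    have h4 : ‖((w (t i + 1), w (t i)) : ℝ × ℝ)‖ = max |w (t i + 1)| |w (t i)| := by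
      rw [Prod.norm_def, Real.norm_eq_abs, Real.norm_eq_abs]
    rw [h4]
    exact mul_le_mul_of_nonneg_right ((hg i).lip _) (le_max_of_le_left (abs_nonneg _))
  calc _ ≤ 1 * |fderiv ℝ (g i) (st a c x y (t i)) (w (t i + 1), w (t i))| :=
        mul_le_mul_of_nonneg_right h1 (abs_nonneg _)
    _ ≤ _ := by rw [one_mul]; exact h2

lemma FF_add_one (hg : ∀ i, Obs L (g i)) (c : ℕ → ℝ) (x y : ℝ) :
    FF a g t k c (x + 1) y = FF a g t k c x y := by
  unfold FF
  refine Finset.prod_congr rfl (fun i _ => ?_)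
  unfold st
  obtain ⟨l1, h1⟩ := xi_add_one a c x y (t i + 1)
  obtain ⟨l2, h2⟩ := xi_add_one a c x y (t i)
  rw [h1, h2, obs_per_31 (hg i)]

lemma continuous_FF (hg : ∀ i, Obs L (g i)) (c : ℕ → ℝ) (j : ℕ) :
    Continuous (fun p : ℝ × ℝ × ℝ => FF a g t k (Function.update c j p.1) p.2.1 p.2.2) := by
  unfold FF
  refine continuous_finsetProd _ (fun i _ => ?_)
  exact (hg i).smooth.continuous.comp
    ((continuous_xi a c j (t i + 1)).prodMk (continuous_xi a c j (t i)))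

lemma continuous_dFF (hg : ∀ i, Obs L (g i)) (c : ℕ → ℝ) (j : ℕ) {w : ℝ × ℝ × ℝ → ℕ → ℝ}
    (hw : ∀ i, Continuous (fun p => w p i)) :
    Continuous (fun p : ℝ × ℝ × ℝ =>
      dFF a g t k (Function.update c j p.1) p.2.1 p.2.2 (w p)) := by
  have hst : ∀ i, Continuous
      (fun p : ℝ × ℝ × ℝ => st a (Function.update c j p.1) p.2.1 p.2.2 (t i)) := fun i =>
    (continuous_xi a c j (t i + 1)).prodMk (continuous_xi a c j (t i))
  unfold dFF
  refine continuous_finsetSum _ (fun i _ => ?_)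
  refine Continuous.mul ?_ ?_
  · exact continuous_finsetProd _ (fun l _ => (hg l).smooth.continuous.comp (hst l))
  · exact (((hg i).smooth.continuous_fderiv (by norm_num)).comp (hst i)).clm_apply
      ((hw (t i + 1)).prodMk (hw (t i)))

end

end Pool.Agent.Helper95.SK
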