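import Mathlib
import Pool.Agent.Helper95.SK.Fun

/-!
Averages over two consecutive kicks. Block SK-AV: prove the lemmas below.
Hints: for `avg_kicks`, write the state at time `n` as a function of the state
`(xi (j+2), xi (j+1))` at time `j+1` (the kicks `j` and `j+1` enter only there:
`xi (j+1) = psi (xi j) - xi (j-1) + s`, `xi (j+2) = psi (xi (j+1)) - xi j + u`), use
periodicity (`Function.Periodic.intervalIntegral_add_eq`) for the integral over `u`, then over `s`,
and invariance of Lebesgue measure for the remaining `n - j - 1` steps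
(`Helper53.SM.I2_itH`, `Helper78.SM.mp_tau`, or directly by the same periodicity argument).
-/

set_option autoImplicit false
open Real MeasureTheory Set

namespace Pool.Agent.Helper95.SK

open Pool.Agent.Helper78.SM (psi phi dphi hasDerivAt_psi hasDerivAt_phi zc X sq)

lemma psi_add_int (a x : ℝ) (k : ℤ) : psi a (x + k) = psi a x + ((2 * k : ℤ) : ℝ) := by
  unfold Pool.Agent.Helper78.SM.psi
  have h : 2 * π * (x + k) = 2 * π * x + k * (2 * π) := by ring
  rw [h, Real.sin_add_int_mul_two_pi]
  push_cast
  ring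

lemma psi_cont (a : ℝ) : Continuous (psi a) := by
  unfold Pool.Agent.Helper78.SM.psi
  fun_prop

/-- one step of the kicked map acting on functions of the state -/
noncomputable def Tst (a c : ℝ) (g : ℝ × ℝ → ℝ) : ℝ × ℝ → ℝ :=
  fun p => g (psi a p.1 - p.2 + c, p.1)

lemma Tst_cont {a c : ℝ} {g : ℝ × ℝ → ℝ} (hg : Continuous g) : Continuous (Tst a c g) := by
  unfold Tst
  have := psi_cont a
  fun_prop

lemma Tst_per1 {a c : ℝ} {g : ℝ × ℝ → ℝ}
    (per1 : ∀ (x y : ℝ) (k : ℤ), g (x + k, y) = g (x, y))
    (per2 : ∀ (x y : ℝ) (k : ℤ), g (x, y + k) = g (x, y)) (x y : ℝ) (k : ℤ) :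
    Tst a c g (x + k, y) = Tst a c g (x, y) := by
  unfold Tst
  simp only
  rw [psi_add_int, per2, show psi a x + ((2 * k : ℤ) : ℝ) - y + c =
    (psi a x - y + c) + ((2 * k : ℤ) : ℝ) by ring, per1]

lemma Tst_per2 {a c : ℝ} {g : ℝ × ℝ → ℝ}
    (per1 : ∀ (x y : ℝ) (k : ℤ), g (x + k, y) = g (x, y)) (x y : ℝ) (k : ℤ) :
    Tst a c g (x, y + k) = Tst a c g (x, y) := by
  unfold Tst
  simp only
  rw [show psi a x - (y + k) + c = (psi a x - y + c) + ((-k : ℤ) : ℝ) by push_cast; ring, per1]

lemma int_sq {G : ℝ × ℝ → ℝ} (hG : Continuous G) :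
    Integrable G ((volume.restrict (Ioc (0:ℝ) 1)).prod (volume.restrict (Ioc (0:ℝ) 1))) := by
  rw [Measure.prod_restrict]
  exact (hG.continuousOn.integrableOn_compact (isCompact_Icc.prod isCompact_Icc)).mono_set
    (prod_mono Ioc_subset_Icc_self Ioc_subset_Icc_self)

lemma swap_sq {G : ℝ × ℝ → ℝ} (hG : Continuous G) :
    ∫ x in (0:ℝ)..1, ∫ y in (0:ℝ)..1, G (x, y) = ∫ y in (0:ℝ)..1, ∫ x in (0:ℝ)..1, G (x, y) := by
  simp only [intervalIntegral.integral_of_le zero_le_one]
  exact integral_integral_swap (int_sq hG)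

lemma sq_eq {G : ℝ × ℝ → ℝ} (hG : Continuous G) :
    ∫ p in sq, G p = ∫ y in (0:ℝ)..1, ∫ x in (0:ℝ)..1, G (x, y) := by
  simp only [intervalIntegral.integral_of_le zero_le_one]
  unfold Pool.Agent.Helper78.SM.sq
  rw [Measure.volume_eq_prod, ← Measure.prod_restrict]
  exact integral_prod_symm _ (int_sq hG)

lemma per_shift {f : ℝ → ℝ} (hf : ∀ (x : ℝ) (k : ℤ), f (x + k) = f x) (d : ℝ) :
    ∫ x in (0:ℝ)..1, f (x + d) = ∫ x in (0:ℝ)..1, f x := by
  rw [intervalIntegral.integral_comp_add_right (fun x => f x)]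
  have hp : Function.Periodic f 1 := by
    intro x
    have := hf x 1
    rwa [Int.cast_one] at this
  have := hp.intervalIntegral_add_eq d 0
  rw [zero_add] at this
  rw [zero_add, add_comm 1 d]
  exact this

lemma per_refl {f : ℝ → ℝ} (hf : ∀ (x : ℝ) (k : ℤ), f (x + k) = f x) (d : ℝ) :
    ∫ x in (0:ℝ)..1, f (d - x) = ∫ x in (0:ℝ)..1, f x := by
  rw [intervalIntegral.integral_comp_sub_left (fun x => f x)]
  have hp : Function.Periodic f 1 := by
    intro x
    have := hf x 1
    rwa [Int.cast_one] at this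
  have := hp.intervalIntegral_add_eq (d - 1) 0
  rw [zero_add, sub_add_cancel] at this
  rw [sub_zero]
  exact this

lemma Tst_int {a c : ℝ} {g : ℝ × ℝ → ℝ} (hg : Continuous g)
    (per1 : ∀ (x y : ℝ) (k : ℤ), g (x + k, y) = g (x, y)) :
    ∫ y in (0:ℝ)..1, ∫ x in (0:ℝ)..1, Tst a c g (x, y) =
      ∫ y in (0:ℝ)..1, ∫ x in (0:ℝ)..1, g (x, y) := by
  rw [← swap_sq (Tst_cont hg)]
  congr 1
  funext x
  unfold Tst
  simp only
  rw [← per_refl (f := fun z => g (z, x)) (fun z k => per1 z x k) (psi a x + c)]
  congr 1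
  funext y
  congr 2
  ring

/-- the orbit up to `j` does not depend on the kick `j` -/
lemma xi_update_low (a : ℝ) (c : ℕ → ℝ) (x y s : ℝ) {j i : ℕ} (hj : 1 ≤ j) (hij : i ≤ j) :
    xi a (Function.update c j s) x y i = xi a c x y i := by
  induction i using Nat.strong_induction_on with
  | _ i ih =>
    match i, ih, hij with
    | 0, _, _ => rw [xi, xi]
    | 1, _, _ =>
      rw [xi, xi, Function.update_of_ne (by omega)]
    | i + 2, ih, hij =>
      rw [xi_rec, xi_rec, ih (i+1) (by omega) (by omega), ih i (by omega) (by omega),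
        Function.update_of_ne (by omega)]

/-- averaging over two consecutive kicks makes the later state uniformly distributed -/
lemma avg_kicks (a : ℝ) (c : ℕ → ℝ) {j n : ℕ} (hj : 1 ≤ j) (hjn : j + 1 ≤ n) {g : ℝ × ℝ → ℝ}
    (hg : Continuous g) (per1 : ∀ (x y : ℝ) (k : ℤ), g (x + k, y) = g (x, y))
    (per2 : ∀ (x y : ℝ) (k : ℤ), g (x, y + k) = g (x, y)) (x y : ℝ) :
    ∫ s in (0:ℝ)..1, ∫ u in (0:ℝ)..1,
      g (st a (Function.update (Function.update c j s) (j+1) u) x y n) = ∫ p in sq, g p := by
  rw [sq_eq hg]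
  obtain ⟨m, rfl⟩ := Nat.exists_eq_add_of_le hjn
  clear hjn
  induction m generalizing g with
  | zero =>
    obtain ⟨i, rfl⟩ := Nat.exists_eq_add_of_le' hj
    have h1 : ∀ s u : ℝ, st a (Function.update (Function.update c (i+1) s) (i+1+1) u) x y (i+1+1+0) =
        (psi a (psi a (xi a c x y (i+1)) - xi a c x y i + s) - xi a c x y (i+1) + u,
          psi a (xi a c x y (i+1)) - xi a c x y i + s) := by
      intro s u
      have e1 : xi a (Function.update (Function.update c (i+1) s) (i+1+1) u) x y (i+1+1) =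
          psi a (xi a c x y (i+1)) - xi a c x y i + s := by
        rw [xi_update_low _ _ _ _ _ (by omega) le_rfl, xi_rec,
          xi_update_low _ _ _ _ _ (by omega) le_rfl, xi_update_low _ _ _ _ _ (by omega) (by omega),
          Function.update_self]
      have e2 : xi a (Function.update (Function.update c (i+1) s) (i+1+1) u) x y (i+1) =
          xi a c x y (i+1) := by
        rw [xi_update_low _ _ _ _ _ (by omega) (by omega),
          xi_update_low _ _ _ _ _ (by omega) le_rfl]
      unfold st
      rw [show i+1+1+0+1 = (i+1)+2 by omega, xi_rec, e2, show i+1+1+0 = i+1+1 by omega, e1,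
        Function.update_self]
    simp only [h1]
    have h2 : ∀ s : ℝ, ∫ u in (0:ℝ)..1,
        g (psi a (psi a (xi a c x y (i+1)) - xi a c x y i + s) - xi a c x y (i+1) + u,
          psi a (xi a c x y (i+1)) - xi a c x y i + s) =
        ∫ u in (0:ℝ)..1, g (u, s + (psi a (xi a c x y (i+1)) - xi a c x y i)) := by
      intro s
      rw [← per_shift (f := fun z => g (z, s + (psi a (xi a c x y (i+1)) - xi a c x y i)))
        (fun z k => per1 z _ k)
        (psi a (psi a (xi a c x y (i+1)) - xi a c x y i + s) - xi a c x y (i+1))]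
      congr 1
      funext u
      congr 2
      · ring
      · ring
    simp only [h2]
    exact per_shift (f := fun z => ∫ u in (0:ℝ)..1, g (u, z))
      (fun z k => by simp only [per2]) _
  | succ m ih =>
    have h1 : ∀ s u : ℝ,
        g (st a (Function.update (Function.update c j s) (j+1) u) x y (j+1+(m+1))) =
        Tst a (c (j+1+m+1)) g
          (st a (Function.update (Function.update c j s) (j+1) u) x y (j+1+m)) := by
      intro s u
      unfold Tst st
      simp only
      rw [show j+1+(m+1)+1 = (j+1+m)+2 by omega, xi_rec, Function.update_of_ne (by omega),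
        Function.update_of_ne (by omega), show j+1+(m+1) = j+1+m+1 by omega]
    simp only [h1]
    rw [ih (Tst_cont hg) (Tst_per1 per1 per2) (Tst_per2 per1), Tst_int hg per1]

lemma xi_cont {Y : Type*} [TopologicalSpace Y] (a : ℝ) {c : Y → ℕ → ℝ} {x y : Y → ℝ}
    (hc : ∀ i, Continuous (fun p => c p i)) (hx : Continuous x) (hy : Continuous y) (i : ℕ) :
    Continuous (fun p => xi a (c p) (x p) (y p) i) ∧
    Continuous (fun p => xi a (c p) (x p) (y p) (i+1)) := by
  induction i with
  | zero =>
    constructor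
    · simp only [xi]; exact hy
    · simp only [xi]; exact hx.add (hc 0)
  | succ i ih =>
    refine ⟨ih.2, ?_⟩
    simp only [xi_rec]
    exact (((psi_cont a).comp ih.2).sub ih.1).add (hc _)

lemma st_cont {Y : Type*} [TopologicalSpace Y] (a : ℝ) {c : Y → ℕ → ℝ} {x y : Y → ℝ}
    (hc : ∀ i, Continuous (fun p => c p i)) (hx : Continuous x) (hy : Continuous y) (i : ℕ) :
    Continuous (fun p => st a (c p) (x p) (y p) i) := by
  unfold st
  exact (xi_cont a hc hx hy i).2.prodMk (xi_cont a hc hx hy i).1

lemma upd_cont {Y : Type*} [TopologicalSpace Y] {c : Y → ℕ → ℝ} {s : Y → ℝ} (j : ℕ)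
    (hc : ∀ i, Continuous (fun p => c p i)) (hs : Continuous s) (i : ℕ) :
    Continuous (fun p => Function.update (c p) j (s p) i) := by
  by_cases h : i = j
  · subst h
    simpa only [Function.update_self] using hs
  · simpa only [Function.update_of_ne h] using hc i

lemma swap_p {G : ℝ → ℝ × ℝ → ℝ} (hG : Continuous (fun q : ℝ × (ℝ × ℝ) => G q.1 q.2)) :
    ∫ s in (0:ℝ)..1, ∫ p in sq, G s p = ∫ p in sq, ∫ s in (0:ℝ)..1, G s p := by
  simp only [intervalIntegral.integral_of_le zero_le_one]
  apply integral_integral_swap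
  unfold Pool.Agent.Helper78.SM.sq
  have hv : (volume : Measure (ℝ × ℝ)).restrict (Ioc (0:ℝ) 1 ×ˢ Ioc (0:ℝ) 1) =
      (volume.restrict (Ioc (0:ℝ) 1)).prod (volume.restrict (Ioc (0:ℝ) 1)) := by
    rw [Measure.prod_restrict, Measure.volume_eq_prod]
  rw [Measure.prod_restrict]
  exact (hG.continuousOn.integrableOn_compact
    (isCompact_Icc.prod (isCompact_Icc.prod isCompact_Icc))).mono_set
    (prod_mono Ioc_subset_Icc_self (prod_mono Ioc_subset_Icc_self Ioc_subset_Icc_self))

/-- the average of the product functional over two kicks placed after all but the last observable -/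
lemma avg_FF {a L : ℝ} {g : ℕ → ℝ × ℝ → ℝ} {t : ℕ → ℕ} {k : ℕ} (hg : ∀ i, Obs L (g i))
    (c : ℕ → ℝ) {j : ℕ} (hj : 1 ≤ j) (ht : ∀ i, i < k → t i < j) (hjk : j + 1 ≤ t k) :
    ∫ s in (0:ℝ)..1, ∫ u in (0:ℝ)..1, ∫ p in sq,
      FF a g t (k+1) (Function.update (Function.update c j s) (j+1) u) p.1 p.2 =
      (∫ p in sq, FF a g t k c p.1 p.2) * ∫ p in sq, g k p := by
  have hgc : ∀ i, Continuous (g i) := fun i => (hg i).smooth.continuous
  have h1 : ∀ (s u : ℝ) (p : ℝ × ℝ),
      FF a g t (k+1) (Function.update (Function.update c j s) (j+1) u) p.1 p.2 =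
      FF a g t k c p.1 p.2 *
        g k (st a (Function.update (Function.update c j s) (j+1) u) p.1 p.2 (t k)) := by
    intro s u p
    unfold FF
    rw [Finset.prod_range_succ]
    congr 1
    apply Finset.prod_congr rfl
    intro i hi
    have hti := ht i (Finset.mem_range.mp hi)
    unfold st
    have e : ∀ l, l ≤ j → xi a (Function.update (Function.update c j s) (j+1) u) p.1 p.2 l =
        xi a c p.1 p.2 l := by
      intro l hl
      rw [xi_update_low _ _ _ _ _ (by omega) (by omega), xi_update_low _ _ _ _ _ hj hl]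
    rw [e _ (by omega), e _ (by omega)]
  simp only [h1]
  have cF : Continuous (fun p : ℝ × ℝ => FF a g t k c p.1 p.2) := by
    unfold FF
    apply continuous_finsetProd
    intro i _
    exact (hgc i).comp (st_cont a (c := fun _ => c) (fun _ => continuous_const) continuous_fst
      continuous_snd _)
  -- joint continuity in all variables
  have cG : Continuous (fun q : ℝ × ℝ × (ℝ × ℝ) => FF a g t k c q.2.2.1 q.2.2.2 *
      g k (st a (Function.update (Function.update c j q.1) (j+1) q.2.1) q.2.2.1 q.2.2.2 (t k))) := by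
    refine (cF.comp (continuous_snd.comp continuous_snd)).mul ((hgc k).comp ?_)
    apply st_cont
    · intro i
      apply upd_cont
      · intro i
        exact upd_cont j (fun _ => continuous_const) continuous_fst i
      · exact continuous_fst.comp continuous_snd
    · exact continuous_fst.comp (continuous_snd.comp continuous_snd)
    · exact continuous_snd.comp (continuous_snd.comp continuous_snd)
  have h2 : ∀ s : ℝ, ∫ u in (0:ℝ)..1, ∫ p in sq, FF a g t k c p.1 p.2 *
        g k (st a (Function.update (Function.update c j s) (j+1) u) p.1 p.2 (t k)) =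
      ∫ p in sq, ∫ u in (0:ℝ)..1, FF a g t k c p.1 p.2 *
        g k (st a (Function.update (Function.update c j s) (j+1) u) p.1 p.2 (t k)) := by
    intro s
    apply swap_p
    exact cG.comp (continuous_const.prodMk continuous_id)
  simp only [h2]
  have h3 : ∫ s in (0:ℝ)..1, ∫ p in sq, ∫ u in (0:ℝ)..1, FF a g t k c p.1 p.2 *
        g k (st a (Function.update (Function.update c j s) (j+1) u) p.1 p.2 (t k)) =
      ∫ p in sq, ∫ s in (0:ℝ)..1, ∫ u in (0:ℝ)..1, FF a g t k c p.1 p.2 *
        g k (st a (Function.update (Function.update c j s) (j+1) u) p.1 p.2 (t k)) := by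
    apply swap_p
    have : Continuous (fun q : (ℝ × (ℝ × ℝ)) × ℝ => FF a g t k c q.1.2.1 q.1.2.2 *
      g k (st a (Function.update (Function.update c j q.1.1) (j+1) q.2) q.1.2.1 q.1.2.2 (t k))) :=
      cG.comp ((continuous_fst.comp continuous_fst).prodMk
        (continuous_snd.prodMk (continuous_snd.comp continuous_fst)))
    exact intervalIntegral.continuous_parametric_intervalIntegral_of_continuous' this 0 1
  rw [h3]
  have h4 : ∀ p : ℝ × ℝ, ∫ s in (0:ℝ)..1, ∫ u in (0:ℝ)..1, FF a g t k c p.1 p.2 *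
        g k (st a (Function.update (Function.update c j s) (j+1) u) p.1 p.2 (t k)) =
      FF a g t k c p.1 p.2 * ∫ p in sq, g k p := by
    intro p
    simp only [intervalIntegral.integral_const_mul]
    rw [avg_kicks a c hj hjk (hgc k) (hg k).per1 (hg k).per2]
  simp only [h4]
  rw [integral_mul_const]

end Pool.Agent.Helper95.SK
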