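import Mathlib

/-!
Smooth cut-off to the good set, as a function of the coefficients `b 1, ..., b n`.
Block SK-CU: prove all the lemmas below.
-/

set_option autoImplicit false
open Real

namespace Pool.Agent.Helper95.SK

/-- smooth cut-off: `0` on `[-1,1]`, `1` outside `[-2,2]` -/
noncomputable def cut (t : ℝ) : ℝ := Real.smoothTransition (t ^ 2 - 1)

/-- the quantities that have to be larger than one -/
noncomputable def tt (κ M : ℝ) (b : ℕ → ℝ) : ℕ ⊕ ℕ → ℝ
  | Sum.inl i => b i * b (i+1) / M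
  | Sum.inr i => b i / κ

/-- their derivative when `b` has derivative `v` -/
noncomputable def dtt (κ M : ℝ) (b v : ℕ → ℝ) : ℕ ⊕ ℕ → ℝ
  | Sum.inl i => (v i * b (i+1) + b i * v (i+1)) / M
  | Sum.inr i => v i / κ

/-- index set: pairs `1 ≤ i < n`, and single sites `1 ≤ i ≤ n` with `|i - j| ≤ 6` -/
def idx (n j : ℕ) : Finset (ℕ ⊕ ℕ) :=
  (Finset.Ico 1 n).disjSum ((Finset.Icc 1 n).filter (fun i => i ≤ j + 6 ∧ j ≤ i + 6))

/-- the cut-off -/
noncomputable def chi (κ M : ℝ) (n j : ℕ) (b : ℕ → ℝ) : ℝ :=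
  ∏ k ∈ idx n j, cut (tt κ M b k)

/-- its derivative in the direction `v` -/
noncomputable def dchi (κ M : ℝ) (n j : ℕ) (b v : ℕ → ℝ) : ℝ :=
  ∑ k ∈ idx n j, (∏ l ∈ (idx n j).erase k, cut (tt κ M b l)) *
    (deriv cut (tt κ M b k) * dtt κ M b v k)

/-- the good set -/
def Good (κ M : ℝ) (n j : ℕ) (b : ℕ → ℝ) : Prop :=
  (∀ i, 1 ≤ i → i < n → M ≤ |b i * b (i+1)|) ∧
    ∀ i, 1 ≤ i → i ≤ n → i ≤ j + 6 → j ≤ i + 6 → κ ≤ |b i|

lemma contDiff_cut : ContDiff ℝ 1 cut := by
  have h : ContDiff ℝ 1 (fun t : ℝ => t ^ 2 - 1) := (contDiff_id.pow 2).sub contDiff_const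
  have h2 : ContDiff ℝ 1 Real.smoothTransition := Real.smoothTransition.contDiff (n := 1)
  exact h2.comp h

lemma hasDerivAt_cut (t : ℝ) : HasDerivAt cut (deriv cut t) t := by
  exact (contDiff_cut.differentiable (by norm_num) t).hasDerivAt

lemma continuous_deriv_cut : Continuous (deriv cut) := by
  exact contDiff_cut.continuous_deriv le_rfl

lemma cut_nonneg (t : ℝ) : 0 ≤ cut t := by
  exact Real.smoothTransition.nonneg _

lemma cut_le_one (t : ℝ) : cut t ≤ 1 := by
  exact Real.smoothTransition.le_one _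

lemma cut_zero {t : ℝ} (h : |t| ≤ 1) : cut t = 0 := by
  refine Real.smoothTransition.zero_of_nonpos ?_
  have : t ^ 2 ≤ 1 := by
    rw [← sq_abs]
    have := abs_nonneg t
    nlinarith
  linarith

lemma cut_one {t : ℝ} (h : 2 ≤ |t|) : cut t = 1 := by
  refine Real.smoothTransition.one_of_one_le ?_
  have : 4 ≤ t ^ 2 := by
    rw [← sq_abs]
    nlinarith
  linarith

lemma deriv_cut_zero {t : ℝ} (h : |t| ≤ 1) : deriv cut t = 0 := by
  have hm : IsLocalMin cut t := by
    refine Filter.Eventually.of_forall fun s => ?_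
    show cut t ≤ cut s
    rw [cut_zero h]
    exact cut_nonneg s
  exact hm.deriv_eq_zero

lemma exists_cut_bound : ∃ C : ℝ, 0 < C ∧ ∀ t, |t * deriv cut t| ≤ C := by
  have hK : IsCompact (Set.Icc (-2:ℝ) 2) := isCompact_Icc
  obtain ⟨C, hC⟩ := hK.exists_bound_of_continuousOn
    (f := fun t => t * deriv cut t) (continuous_id.mul continuous_deriv_cut).continuousOn
  refine ⟨max C 1, lt_max_of_lt_right one_pos, fun t => ?_⟩
  by_cases ht : t ∈ Set.Icc (-2:ℝ) 2
  · exact (hC t ht).trans (le_max_left _ _)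
  · have h2 : 2 ≤ |t| := by
      by_contra hc
      push Not at hc
      rw [abs_lt] at hc
      exact ht ⟨hc.1.le, hc.2.le⟩
    have hm : IsLocalMax cut t := by
      refine Filter.Eventually.of_forall fun s => ?_
      show cut s ≤ cut t
      rw [cut_one h2]
      exact cut_le_one s
    rw [hm.deriv_eq_zero, mul_zero, abs_zero]
    exact (zero_le_one).trans (le_max_right _ _)

private lemma exists_bad {κ M : ℝ} {n j : ℕ} (hκ : 0 < κ) (hM : 0 < M) {b : ℕ → ℝ}
    (h : ¬ Good κ M n j b) : ∃ k ∈ idx n j, |tt κ M b k| ≤ 1 := by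
  unfold Good at h
  rw [not_and_or] at h
  rcases h with h | h
  · push Not at h
    obtain ⟨i, h1, h2, h3⟩ := h
    refine ⟨Sum.inl i, ?_, ?_⟩
    · unfold idx
      rw [Finset.inl_mem_disjSum]
      exact Finset.mem_Ico.2 ⟨h1, h2⟩
    · simp only [tt]
      rw [abs_div, abs_of_pos hM, div_le_one hM]
      exact h3.le
  · push Not at h
    obtain ⟨i, h1, h2, h3, h4, h5⟩ := h
    refine ⟨Sum.inr i, ?_, ?_⟩
    · unfold idx
      rw [Finset.inr_mem_disjSum]
      exact Finset.mem_filter.2 ⟨Finset.mem_Icc.2 ⟨h1, h2⟩, h3, h4⟩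
    · simp only [tt]
      rw [abs_div, abs_of_pos hκ, div_le_one hκ]
      exact h5.le

private lemma one_sub_prod_le {ι : Type*} (s : Finset ι) (f : ι → ℝ) (h0 : ∀ i, 0 ≤ f i)
    (h1 : ∀ i, f i ≤ 1) : 1 - ∏ i ∈ s, f i ≤ ∑ i ∈ s, (1 - f i) := by
  classical
  induction s using Finset.induction_on with
  | empty => simp
  | insert a s ha ih =>
    rw [Finset.prod_insert ha, Finset.sum_insert ha]
    have h2 : 0 ≤ ∏ i ∈ s, f i := Finset.prod_nonneg fun i _ => h0 i
    have h3 : ∏ i ∈ s, f i ≤ 1 := Finset.prod_le_one (fun i _ => h0 i) fun i _ => h1 i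
    have h4 := h0 a
    have h5 := h1 a
    nlinarith

private lemma continuous_tt {X : Type*} [TopologicalSpace X] {b : X → ℕ → ℝ} {κ M : ℝ}
    (h : ∀ i, Continuous (fun p => b p i)) (k : ℕ ⊕ ℕ) :
    Continuous (fun p => tt κ M (b p) k) := by
  rcases k with i | i
  · simp only [tt]
    exact ((h i).mul (h (i+1))).div_const M
  · simp only [tt]
    exact (h i).div_const κ

section
variable {κ M : ℝ} {n j : ℕ}

/-- derivative of the cut-off along a path -/
lemma hasDerivAt_chi {b : ℝ → ℕ → ℝ} {v : ℕ → ℝ} {t : ℝ}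
    (h : ∀ i, HasDerivAt (fun s => b s i) (v i) t) :
    HasDerivAt (fun s => chi κ M n j (b s)) (dchi κ M n j (b t) v) t := by
  have hk : ∀ k ∈ idx n j, HasDerivAt (fun s => cut (tt κ M (b s) k))
      (deriv cut (tt κ M (b t) k) * dtt κ M (b t) v k) t := by
    intro k _
    have h1 : HasDerivAt (fun s => tt κ M (b s) k) (dtt κ M (b t) v k) t := by
      rcases k with i | i
      · exact ((h i).mul (h (i+1))).div_const M
      · exact (h i).div_const κ
    exact HasDerivAt.comp (h₂ := cut) (h := fun s => tt κ M (b s) k) t (hasDerivAt_cut (tt κ M (b t) k)) h1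
  have h2 := HasDerivAt.fun_finsetProd hk
  simpa only [smul_eq_mul, chi, dchi] using h2

lemma dchi_linear (b v w : ℕ → ℝ) (r : ℝ) :
    dchi κ M n j b (fun i => v i + r * w i) = dchi κ M n j b v + r * dchi κ M n j b w := by
  unfold dchi
  rw [Finset.mul_sum, ← Finset.sum_add_distrib]
  refine Finset.sum_congr rfl fun k _ => ?_
  have h1 : dtt κ M b (fun i => v i + r * w i) k = dtt κ M b v k + r * dtt κ M b w k := by
    rcases k with i | i
    · simp only [dtt]; ring
    · simp only [dtt]; ring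
  rw [h1]; ring

lemma chi_nonneg (b : ℕ → ℝ) : 0 ≤ chi κ M n j b := by
  exact Finset.prod_nonneg fun k _ => cut_nonneg _

lemma chi_le_one (b : ℕ → ℝ) : chi κ M n j b ≤ 1 := by
  exact Finset.prod_le_one (fun k _ => cut_nonneg _) fun k _ => cut_le_one _

lemma chi_not_good (hκ : 0 < κ) (hM : 0 < M) {b : ℕ → ℝ} (h : ¬ Good κ M n j b) :
    chi κ M n j b = 0 := by
  obtain ⟨k, hk, hk1⟩ := exists_bad hκ hM h
  exact Finset.prod_eq_zero hk (cut_zero hk1)

lemma dchi_not_good (hκ : 0 < κ) (hM : 0 < M) {b : ℕ → ℝ} (h : ¬ Good κ M n j b)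
    (v : ℕ → ℝ) : dchi κ M n j b v = 0 := by
  obtain ⟨k, hk, hk1⟩ := exists_bad hκ hM h
  refine Finset.sum_eq_zero fun l hl => ?_
  by_cases hkl : l = k
  · rw [hkl, deriv_cut_zero hk1]; ring
  · rw [Finset.prod_eq_zero (Finset.mem_erase.2 ⟨fun e => hkl e.symm, hk⟩) (cut_zero hk1)]; ring

/-- a bad pair: the cut-off vanishes -/
lemma chi_pair (hM : 0 < M) {b : ℕ → ℝ} {i : ℕ} (h1 : 1 ≤ i) (hin : i < n)
    (h : |b i * b (i+1)| ≤ M) : chi κ M n j b = 0 := by
  have hk : (Sum.inl i : ℕ ⊕ ℕ) ∈ idx n j := by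
    unfold idx
    rw [Finset.inl_mem_disjSum]
    exact Finset.mem_Ico.2 ⟨h1, hin⟩
  refine Finset.prod_eq_zero hk (cut_zero ?_)
  simp only [tt]
  rw [abs_div, abs_of_pos hM, div_le_one hM]
  exact h

/-- log-Lipschitz bound -/
lemma exists_dchi_bound : ∃ C : ℝ, 0 < C ∧ ∀ (κ M : ℝ) (n j : ℕ) (b v : ℕ → ℝ), 0 < κ → 0 < M →
    2 ≤ n → Good κ M n j b →
    |dchi κ M n j b v| ≤ C * ∑ i ∈ Finset.Icc 1 n, |v i| / |b i| := by
  obtain ⟨C, hC0, hC⟩ := exists_cut_bound
  refine ⟨3 * C, by positivity, fun κ M n j b v hκ hM hn hg => ?_⟩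
  have hb : ∀ i ∈ Finset.Icc 1 n, b i ≠ 0 := by
    intro i hi h0
    rw [Finset.mem_Icc] at hi
    rcases Nat.lt_or_ge i n with h | h
    · have := hg.1 i hi.1 h
      rw [h0, zero_mul, abs_zero] at this
      linarith
    · have := hg.1 (i-1) (by omega) (by omega)
      rw [show i - 1 + 1 = i by omega, h0, mul_zero, abs_zero] at this
      linarith
  -- the bound of one term
  have hterm : ∀ k, 1 ≤ |tt κ M b k| →
      |(∏ l ∈ (idx n j).erase k, cut (tt κ M b l)) * (deriv cut (tt κ M b k) * dtt κ M b v k)| ≤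
        C * |dtt κ M b v k / tt κ M b k| := by
    intro k hk
    have ht : tt κ M b k ≠ 0 := by
      intro h0; rw [h0, abs_zero] at hk; linarith
    have h1 : |∏ l ∈ (idx n j).erase k, cut (tt κ M b l)| ≤ 1 := by
      rw [abs_of_nonneg (Finset.prod_nonneg fun l _ => cut_nonneg _)]
      exact Finset.prod_le_one (fun l _ => cut_nonneg _) fun l _ => cut_le_one _
    have h2 : deriv cut (tt κ M b k) * dtt κ M b v k =
        (tt κ M b k * deriv cut (tt κ M b k)) * (dtt κ M b v k / tt κ M b k) := by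
      field_simp
    rw [abs_mul, h2, abs_mul]
    calc |∏ l ∈ (idx n j).erase k, cut (tt κ M b l)| *
          (|tt κ M b k * deriv cut (tt κ M b k)| * |dtt κ M b v k / tt κ M b k|)
        ≤ 1 * (C * |dtt κ M b v k / tt κ M b k|) := by
          refine mul_le_mul h1 (mul_le_mul_of_nonneg_right (hC _) (abs_nonneg _)) (by positivity)
            zero_le_one
      _ = _ := one_mul _
  have hinl : ∀ i ∈ Finset.Ico 1 n, 1 ≤ |tt κ M b (Sum.inl i)| ∧
      |dtt κ M b v (Sum.inl i) / tt κ M b (Sum.inl i)| ≤ |v i| / |b i| + |v (i+1)| / |b (i+1)| := by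
    intro i hi
    rw [Finset.mem_Ico] at hi
    have hbi := hb i (Finset.mem_Icc.2 ⟨hi.1, hi.2.le⟩)
    have hbi1 := hb (i+1) (Finset.mem_Icc.2 ⟨by omega, hi.2⟩)
    constructor
    · simp only [tt]
      rw [abs_div, abs_of_pos hM, le_div_iff₀ hM, one_mul]
      exact hg.1 i hi.1 hi.2
    · have h1 : dtt κ M b v (Sum.inl i) / tt κ M b (Sum.inl i) = v i / b i + v (i+1) / b (i+1) := by
        simp only [tt, dtt]
        field_simp
      rw [h1, ← abs_div, ← abs_div]
      exact abs_add_le _ _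
  have hinr : ∀ i ∈ (Finset.Icc 1 n).filter (fun i => i ≤ j + 6 ∧ j ≤ i + 6),
      1 ≤ |tt κ M b (Sum.inr i)| ∧
      |dtt κ M b v (Sum.inr i) / tt κ M b (Sum.inr i)| ≤ |v i| / |b i| := by
    intro i hi
    rw [Finset.mem_filter, Finset.mem_Icc] at hi
    have hbi := hb i (Finset.mem_Icc.2 hi.1)
    constructor
    · simp only [tt]
      rw [abs_div, abs_of_pos hκ, le_div_iff₀ hκ, one_mul]
      exact hg.2 i hi.1.1 hi.1.2 hi.2.1 hi.2.2
    · have h1 : dtt κ M b v (Sum.inr i) / tt κ M b (Sum.inr i) = v i / b i := by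
        simp only [tt, dtt]
        field_simp
      rw [h1, abs_div]
  have hA : ∑ i ∈ Finset.Ico 1 n, (|v i| / |b i| + |v (i+1)| / |b (i+1)|) ≤
      2 * ∑ i ∈ Finset.Icc 1 n, |v i| / |b i| := by
    rw [Finset.sum_add_distrib, two_mul]
    refine add_le_add ?_ ?_
    · refine Finset.sum_le_sum_of_subset_of_nonneg ?_ fun i _ _ => by positivity
      intro i hi
      rw [Finset.mem_Ico] at hi
      exact Finset.mem_Icc.2 ⟨hi.1, hi.2.le⟩
    · rw [Finset.sum_Ico_add' (fun i => |v i| / |b i|) 1 n 1]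
      refine Finset.sum_le_sum_of_subset_of_nonneg ?_ fun i _ _ => by positivity
      intro i hi
      rw [Finset.mem_Ico] at hi
      exact Finset.mem_Icc.2 ⟨by omega, by omega⟩
  have hB : ∑ i ∈ (Finset.Icc 1 n).filter (fun i => i ≤ j + 6 ∧ j ≤ i + 6), |v i| / |b i| ≤
      ∑ i ∈ Finset.Icc 1 n, |v i| / |b i| :=
    Finset.sum_le_sum_of_subset_of_nonneg (Finset.filter_subset _ _) fun i _ _ => by positivity
  unfold dchi
  refine (Finset.abs_sum_le_sum_abs _ _).trans ?_
  have hsplit : ∑ k ∈ idx n j,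
      |(∏ l ∈ (idx n j).erase k, cut (tt κ M b l)) * (deriv cut (tt κ M b k) * dtt κ M b v k)| ≤
      ∑ i ∈ Finset.Ico 1 n, C * (|v i| / |b i| + |v (i+1)| / |b (i+1)|) +
      ∑ i ∈ (Finset.Icc 1 n).filter (fun i => i ≤ j + 6 ∧ j ≤ i + 6), C * (|v i| / |b i|) := by
    conv_lhs => rw [idx, Finset.sum_disjSum]
    refine add_le_add (Finset.sum_le_sum fun i hi => ?_) (Finset.sum_le_sum fun i hi => ?_)
    · exact (hterm _ (hinl i hi).1).trans (mul_le_mul_of_nonneg_left (hinl i hi).2 hC0.le)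
    · exact (hterm _ (hinr i hi).1).trans (mul_le_mul_of_nonneg_left (hinr i hi).2 hC0.le)
  refine hsplit.trans ?_
  rw [← Finset.mul_sum, ← Finset.mul_sum]
  nlinarith

open Classical in
/-- the loss -/
lemma one_sub_chi_le (hκ : 0 < κ) (hM : 0 < M) (b : ℕ → ℝ) :
    1 - chi κ M n j b ≤
      (∑ i ∈ Finset.Ico 1 n, if |b i * b (i+1)| < 2 * M then (1:ℝ) else 0) +
      ∑ i ∈ (Finset.Icc 1 n).filter (fun i => i ≤ j + 6 ∧ j ≤ i + 6),
        if |b i| ≤ 2 * κ then (1:ℝ) else 0 := by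
  unfold chi
  refine (one_sub_prod_le (idx n j) (fun k => cut (tt κ M b k)) (fun k => cut_nonneg _)
    fun k => cut_le_one _).trans ?_
  rw [idx, Finset.sum_disjSum]
  refine add_le_add (Finset.sum_le_sum fun i hi => ?_) (Finset.sum_le_sum fun i hi => ?_)
  · split_ifs with h
    · linarith [cut_nonneg (tt κ M b (Sum.inl i))]
    · have h1 : cut (tt κ M b (Sum.inl i)) = 1 := by
        refine cut_one ?_
        simp only [tt]
        rw [abs_div, abs_of_pos hM, le_div_iff₀ hM]
        exact not_lt.1 h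
      rw [h1]; norm_num
  · split_ifs with h
    · linarith [cut_nonneg (tt κ M b (Sum.inr i))]
    · have h1 : cut (tt κ M b (Sum.inr i)) = 1 := by
        refine cut_one ?_
        simp only [tt]
        rw [abs_div, abs_of_pos hκ, le_div_iff₀ hκ]
        exact (not_le.1 h).le
      rw [h1]; norm_num

/-- continuity along continuous families -/
lemma continuous_chi {X : Type*} [TopologicalSpace X] {b : X → ℕ → ℝ}
    (h : ∀ i, Continuous (fun p => b p i)) : Continuous (fun p => chi κ M n j (b p)) := by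
  unfold chi
  refine continuous_finsetProd _ fun k _ => ?_
  exact contDiff_cut.continuous.comp (continuous_tt h k)

lemma continuous_dchi {X : Type*} [TopologicalSpace X] {b v : X → ℕ → ℝ}
    (h : ∀ i, Continuous (fun p => b p i)) (hv : ∀ i, Continuous (fun p => v p i)) :
    Continuous (fun p => dchi κ M n j (b p) (v p)) := by
  unfold dchi
  refine continuous_finsetSum _ fun k _ => ?_
  refine (continuous_finsetProd _ fun l _ =>
    contDiff_cut.continuous.comp (continuous_tt h l)).mul ?_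
  refine (continuous_deriv_cut.comp (continuous_tt h k)).mul ?_
  rcases k with i | i
  · simp only [dtt]
    exact (((hv i).mul (h (i+1))).add ((h i).mul (hv (i+1)))).div_const M
  · simp only [dtt]
    exact (hv i).div_const κ

end

end Pool.Agent.Helper95.SK
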