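import Mathlib

/-!
Decay along one side of the kick. Block SK-DE: prove the two lemmas.
-/

set_option autoImplicit false
open Real

namespace Pool.Agent.Helper95.SK

/-- geometric decay, two steps gain a factor `4 / M` -/
lemma decay_pow {y w : ℕ → ℝ} {κ M : ℝ} {N : ℕ} (hκ : 1 ≤ κ) (hM : 16 ≤ M)
    (hy : ∀ d, 0 ≤ y d) (hw : ∀ d, d ≤ N → 0 < w d) (h0 : w 0 * y 0 ≤ 3) (hw0 : κ ≤ w 0)
    (hstep : ∀ d, d + 1 ≤ N → w (d+1) * y (d+1) ≤ 2 * y d)
    (hpair : ∀ d, d + 1 ≤ N → M ≤ w d * w (d+1)) :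
    ∀ d, d ≤ N → y d ≤ 3 * (4 / M) ^ ((d+1)/2) := by
  have hM0 : 0 < M := by linarith
  have hy0 : y 0 ≤ 3 := by
    have h1 := hy 0
    have h2 : y 0 ≤ w 0 * y 0 := by nlinarith
    linarith
  have htwo : ∀ d, d + 2 ≤ N → y (d + 2) ≤ 4 / M * y d := by
    intro d hd
    have h1 := hstep (d + 1) (by omega)
    have h2 := hstep d (by omega)
    have h3 := hpair (d + 1) (by omega)
    have w1 := hw (d + 1) (by omega)
    have w2 := hw (d + 2) hd
    have y2 := hy (d + 2)
    have e1 : d + 1 + 1 = d + 2 := rfl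
    rw [e1] at h1 h3
    have h4 : w (d + 1) * (w (d + 2) * y (d + 2)) ≤ w (d + 1) * (2 * y (d + 1)) :=
      mul_le_mul_of_nonneg_left h1 w1.le
    have h5 : M * y (d + 2) ≤ w (d + 1) * w (d + 2) * y (d + 2) :=
      mul_le_mul_of_nonneg_right h3 y2
    have h6 : M * y (d + 2) ≤ 4 * y d := by nlinarith
    rw [div_mul_eq_mul_div, le_div_iff₀ hM0]
    linarith
  intro d
  induction d using Nat.strong_induction_on with
  | _ d ih =>
    intro hd
    rcases d with _ | _ | d
    · simpa using hy0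
    · have h2 := hstep 0 (by omega)
      have h3 := hpair 0 (by omega)
      have w0 := hw 0 (by omega)
      have y1 := hy 1
      have e1 : 0 + 1 = 1 := rfl
      rw [e1] at h2 h3
      have h4 : w 0 * (w 1 * y 1) ≤ w 0 * (2 * y 0) := mul_le_mul_of_nonneg_left h2 w0.le
      have h5 : M * y 1 ≤ w 0 * w 1 * y 1 := mul_le_mul_of_nonneg_right h3 y1
      have h6 : M * y 1 ≤ 12 := by nlinarith
      have e2 : (0 + 1 + 1) / 2 = 1 := rfl
      rw [e2, pow_one]
      have e3 : 3 * (4 / M) = 12 / M := by ring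
      rw [e3, le_div_iff₀ hM0]
      simp only [zero_add] at *
      linarith
    · have h1 := ih d (by omega) (by omega)
      have h2 := htwo d hd
      have e2 : (d + 1 + 1 + 1) / 2 = (d + 1) / 2 + 1 := by omega
      rw [e2, pow_succ]
      have h3 : 0 ≤ 4 / M := by positivity
      have e3 : d + 1 + 1 = d + 2 := rfl
      rw [e3]
      calc y (d + 2) ≤ 4 / M * y d := h2
        _ ≤ 4 / M * (3 * (4 / M) ^ ((d + 1) / 2)) := mul_le_mul_of_nonneg_left h1 h3
        _ = 3 * ((4 / M) ^ ((d + 1) / 2) * (4 / M)) := by ring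

/-- the sum over all sites except the kicked one.
Near sites (`d ≤ 6`): `y d ≤ 3 / κ * (2/κ)^d`. Far sites: `1 / w d ≤ 9 κ^2 / 16` and
`y d ≤ 216 / κ^5 * 2^(7-d)`. The sum is at most `251 / κ`. -/
lemma decay_sum {y w : ℕ → ℝ} {κ M : ℝ} {N : ℕ} (hκ : 10 ≤ κ) (hM : 16 ≤ M)
    (hy : ∀ d, 0 ≤ y d) (hw : ∀ d, d ≤ N → 0 < w d) (h0 : w 0 * y 0 ≤ 3)
    (hstep : ∀ d, d + 1 ≤ N → w (d+1) * y (d+1) ≤ 2 * y d)
    (hpair : ∀ d, d + 1 ≤ N → M ≤ w d * w (d+1))
    (hnear : ∀ d, d ≤ N → d ≤ 6 → κ ≤ w d) (hup : ∀ d, d ≤ N → w d ≤ 9 * κ ^ 2) :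
    κ ^ 2 * ∑ d ∈ Finset.range N, y (d+1) / w (d+1) ≤ 300 / κ := by
  have hκ0 : 0 < κ := by linarith
  have hM0 : 0 < M := by linarith
  have htwo : ∀ d, d + 2 ≤ N → y (d + 2) ≤ y d / 4 := by
    intro d hd
    have h1 := hstep (d + 1) (by omega)
    have h2 := hstep d (by omega)
    have h3 := hpair (d + 1) (by omega)
    have w1 := hw (d + 1) (by omega)
    have y2 := hy (d + 2)
    have e1 : d + 1 + 1 = d + 2 := rfl
    rw [e1] at h1 h3
    have h4 : w (d + 1) * (w (d + 2) * y (d + 2)) ≤ w (d + 1) * (2 * y (d + 1)) :=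
      mul_le_mul_of_nonneg_left h1 w1.le
    have h5 : 16 * y (d + 2) ≤ w (d + 1) * w (d + 2) * y (d + 2) :=
      mul_le_mul_of_nonneg_right (hM.trans h3) y2
    nlinarith
  have hnr : ∀ d, d ≤ N → d ≤ 6 → y d ≤ 3 / κ * (2 / κ) ^ d := by
    intro d
    induction d with
    | zero =>
      intro h1 h2
      have h3 := hnear 0 h1 h2
      have h4 := hy 0
      rw [pow_zero, mul_one, le_div_iff₀ hκ0]
      nlinarith
    | succ d ih =>
      intro h1 h2
      have h3 := hnear (d + 1) h1 h2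
      have h4 := hy (d + 1)
      have h5 := ih (by omega) (by omega)
      have h6 := hstep d h1
      have h7 : κ * y (d + 1) ≤ 2 * y d := by nlinarith
      have h8 : y (d + 1) ≤ 2 * y d / κ := by
        rw [le_div_iff₀ hκ0]; linarith
      calc y (d + 1) ≤ 2 * y d / κ := h8
        _ = 2 / κ * y d := by ring
        _ ≤ 2 / κ * (3 / κ * (2 / κ) ^ d) := mul_le_mul_of_nonneg_left h5 (by positivity)
        _ = 3 / κ * (2 / κ) ^ (d + 1) := by ring
  have hk6 : 0 < κ ^ 6 := by positivity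
  have hfar : ∀ e, 5 + e ≤ N → y (5 + e) ≤ 96 / κ ^ 6 * (1 / 2) ^ e := by
    intro e
    induction e using Nat.strong_induction_on with
    | _ e ih =>
      intro he
      rcases e with _ | _ | e
      · have h1 := hnr 5 (by omega) (by omega)
        have e1 : 3 / κ * (2 / κ) ^ 5 = 96 / κ ^ 6 := by
          field_simp
          norm_num
        rw [e1] at h1
        simpa using h1
      · have h1 := hnr 6 (by omega) (by omega)
        have e1 : 3 / κ * (2 / κ) ^ 6 = 96 / κ ^ 6 * (2 / κ) := by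
          field_simp
          norm_num
        rw [e1] at h1
        have h2 : 2 / κ ≤ 1 / 2 := by
          rw [div_le_div_iff₀ hκ0 (by norm_num)]
          linarith
        have h3 : 96 / κ ^ 6 * (2 / κ) ≤ 96 / κ ^ 6 * (1 / 2) :=
          mul_le_mul_of_nonneg_left h2 (by positivity)
        have e2 : 5 + (0 + 1) = 6 := rfl
        rw [e2, zero_add, pow_one]
        linarith
      · have h1 := ih e (by omega) (by omega)
        have h2 := htwo (5 + e) (by omega)
        have e1 : 5 + (e + 1 + 1) = 5 + e + 2 := by omega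
        rw [e1]
        calc y (5 + e + 2) ≤ y (5 + e) / 4 := h2
          _ ≤ (96 / κ ^ 6 * (1 / 2) ^ e) / 4 := by linarith
          _ = 96 / κ ^ 6 * (1 / 2) ^ (e + 1 + 1) := by ring
  have hterm : ∀ d, d < N → κ ^ 2 * (y (d + 1) / w (d + 1)) ≤ 173 / κ * (1 / 2) ^ (d + 1) := by
    intro d hd
    have wd := hw (d + 1) (by omega)
    have hyd := hy (d + 1)
    by_cases h6 : d + 1 ≤ 6
    · have h1 := hnr (d + 1) (by omega) h6
      have h2 := hnear (d + 1) (by omega) h6
      have h3 : y (d + 1) / w (d + 1) ≤ y (d + 1) / κ := div_le_div_of_nonneg_left hyd hκ0 h2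
      have h4 : y (d + 1) / κ ≤ 3 / κ * (2 / κ) ^ (d + 1) / κ := by
        apply div_le_div_of_nonneg_right h1 hκ0.le
      have h5 : (2 / κ) ^ d ≤ (1 / 2) ^ d := by
        apply pow_le_pow_left₀ (by positivity)
        rw [div_le_div_iff₀ hκ0 (by norm_num)]
        linarith
      calc κ ^ 2 * (y (d + 1) / w (d + 1)) ≤ κ ^ 2 * (3 / κ * (2 / κ) ^ (d + 1) / κ) :=
            mul_le_mul_of_nonneg_left (h3.trans h4) (by positivity)
        _ = 6 / κ * (2 / κ) ^ d := by
            have e1 : (2 / κ) ^ (d + 1) = (2 / κ) ^ d * (2 / κ) := pow_succ _ _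
            rw [e1]
            generalize (2 / κ) ^ d = z
            field_simp
            ring
        _ ≤ 6 / κ * (1 / 2) ^ d := mul_le_mul_of_nonneg_left h5 (by positivity)
        _ ≤ 173 / κ * (1 / 2) ^ (d + 1) := by
            rw [pow_succ]
            have h7 : 0 ≤ 1 / κ * (1 / 2 : ℝ) ^ d := by positivity
            have e1 : 6 / κ * (1 / 2 : ℝ) ^ d = 6 * (1 / κ * (1 / 2) ^ d) := by ring
            have e2 : 173 / κ * ((1 / 2 : ℝ) ^ d * (1 / 2)) = (173 / 2) * (1 / κ * (1 / 2) ^ d) := by ring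
            rw [e1, e2]
            linarith
    · obtain ⟨e, he⟩ : ∃ e, d + 1 = 5 + e := ⟨d - 4, by omega⟩
      have h1 := hfar e (by omega)
      rw [← he] at h1
      have h2 := hpair d (by omega)
      have h3 := hup d (by omega)
      have h4 : 16 ≤ 9 * κ ^ 2 * w (d + 1) := by
        have : w d * w (d + 1) ≤ 9 * κ ^ 2 * w (d + 1) := mul_le_mul_of_nonneg_right h3 wd.le
        linarith
      have h5 : y (d + 1) / w (d + 1) ≤ 9 * κ ^ 2 / 16 * y (d + 1) := by
        rw [div_le_iff₀ wd]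
        nlinarith
      have e3 : (1 / 2 : ℝ) ^ e = 32 * (1 / 2) ^ (d + 1) := by
        rw [he, pow_add]
        norm_num
        ring
      calc κ ^ 2 * (y (d + 1) / w (d + 1)) ≤ κ ^ 2 * (9 * κ ^ 2 / 16 * y (d + 1)) :=
            mul_le_mul_of_nonneg_left h5 (by positivity)
        _ ≤ κ ^ 2 * (9 * κ ^ 2 / 16 * (96 / κ ^ 6 * (1 / 2) ^ e)) := by
            apply mul_le_mul_of_nonneg_left _ (by positivity)
            exact mul_le_mul_of_nonneg_left h1 (by positivity)
        _ = 1728 / κ ^ 2 * (1 / 2) ^ (d + 1) := by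
            rw [e3]
            field_simp
            norm_num
        _ ≤ 173 / κ * (1 / 2) ^ (d + 1) := by
            apply mul_le_mul_of_nonneg_right _ (by positivity)
            rw [div_le_div_iff₀ (by positivity) hκ0]
            nlinarith
  have hgeo : ∀ n : ℕ, ∑ d ∈ Finset.range n, (1 / 2 : ℝ) ^ (d + 1) = 1 - (1 / 2) ^ n := by
    intro n
    induction n with
    | zero => simp
    | succ n ih => rw [Finset.sum_range_succ, ih]; ring
  calc κ ^ 2 * ∑ d ∈ Finset.range N, y (d + 1) / w (d + 1)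
      = ∑ d ∈ Finset.range N, κ ^ 2 * (y (d + 1) / w (d + 1)) := Finset.mul_sum _ _ _
    _ ≤ ∑ d ∈ Finset.range N, 173 / κ * (1 / 2) ^ (d + 1) :=
        Finset.sum_le_sum fun d hd => hterm d (Finset.mem_range.mp hd)
    _ = 173 / κ * (1 - (1 / 2) ^ N) := by rw [← Finset.mul_sum, hgeo]
    _ ≤ 173 / κ * 1 := by
        apply mul_le_mul_of_nonneg_left _ (by positivity)
        have : (0 : ℝ) ≤ (1 / 2) ^ N := by positivity
        linarith
    _ ≤ 300 / κ := by
        rw [mul_one]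
        exact div_le_div_of_nonneg_right (by norm_num) hκ0.le

end Pool.Agent.Helper95.SK
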