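import Mathlib
import Pool.Agent.Helper95.SK.Jac
import Pool.Agent.Helper95.SK.Dec
import Pool.Agent.Helper95.SK.Orb
import Pool.Agent.Helper95.SK.Cut
import Pool.Agent.Helper95.SK.Fun

/-!
The truncated vector field, its divergence, and pointwise bounds.
-/

set_option autoImplicit false
open Real MeasureTheory Set Filter Topology

namespace Pool.Agent.Helper95.SK

open Pool.Agent.Helper78.SM (psi phi dphi abs_dphi_le)

/-- the truncated vector field -/
noncomputable def HH (κ M : ℝ) (n j : ℕ) (b : ℕ → ℝ) : ℝ := hh b n j * chi κ M n j b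

/-- the divergence of `hh` -/
noncomputable def dv (b v : ℕ → ℝ) (n j : ℕ) : ℝ :=
  ∑ i ∈ Finset.Icc 1 n, v i * Y b n j i * (E b n i / E b n 0)

lemma hasDerivAt_HH {κ M : ℝ} {n j : ℕ} (hκ : 0 < κ) (hM : 16 ≤ M) (hn : 2 ≤ n) (hj : 1 ≤ j)
    (hjn : j ≤ n) {b : ℝ → ℕ → ℝ} {v : ℕ → ℝ} {t : ℝ}
    (h : ∀ i, HasDerivAt (fun s => b s i) (v i) t) :
    HasDerivAt (fun s => HH κ M n j (b s))
      (-(dv (b t) v n j) * chi κ M n j (b t) + hh (b t) n j * dchi κ M n j (b t) v) t := by
  by_cases hp : ∀ i, 1 ≤ i → i < n → M ≤ |b t i * b t (i+1)|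
  · have hD : D (b t) (n+1) ≠ 0 := D_ne hn hM hp (by omega) le_rfl
    have h1 : HasDerivAt (fun s => hh (b s) n j) (-(dv (b t) v n j)) t := by
      have h2 := ((hasDerivAt_q h j (n+1)).div (hasDerivAt_D h (n+1)) hD).neg
      rw [dh_formula v hj hjn hD] at h2
      exact h2
    exact h1.mul (hasDerivAt_chi h)
  · push Not at hp
    obtain ⟨i, h1, h2, h3⟩ := hp
    have hM0 : 0 < M := by linarith
    have hng : ¬ Good κ M n j (b t) := fun hg => absurd (hg.1 i h1 h2) (not_le.2 h3)
    rw [chi_not_good hκ hM0 hng, dchi_not_good hκ hM0 hng, mul_zero, mul_zero, add_zero]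
    have hc : ContinuousAt (fun s => |b s i * b s (i+1)|) t :=
      ((h i).continuousAt.mul (h (i+1)).continuousAt).abs
    have hev : ∀ᶠ s in 𝓝 t, |b s i * b s (i+1)| < M := hc.eventually_lt continuousAt_const h3
    refine (hasDerivAt_const t (0:ℝ)).congr_of_eventuallyEq ?_
    filter_upwards [hev] with s hs
    show HH κ M n j (b s) = 0
    rw [HH, chi_pair hM0 h1 h2 hs.le, mul_zero]

lemma sum_split (f : ℕ → ℝ) {n j : ℕ} (hj : 1 ≤ j) (hjn : j ≤ n) :
    ∑ i ∈ Finset.Icc 1 n, f i = f j + ∑ d ∈ Finset.range (j-1), f (j-(d+1)) +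
      ∑ d ∈ Finset.range (n-j), f (j+(d+1)) := by
  obtain ⟨i, rfl⟩ : ∃ i, j = i + 1 := ⟨j-1, by omega⟩
  obtain ⟨m, rfl⟩ : ∃ m, n = i + 1 + m := ⟨n - (i+1), by omega⟩
  have e0 : Finset.Icc 1 (i+1+m) = Finset.Ico 1 (i+1+m+1) := by
    ext x; simp only [Finset.mem_Icc, Finset.mem_Ico]; omega
  rw [e0, ← Finset.sum_Ico_consecutive f (show 1 ≤ i+1 by omega) (show i+1 ≤ i+1+m+1 by omega)]
  have e1 : ∑ d ∈ Finset.range (i+1-1), f (i+1-(d+1)) = ∑ x ∈ Finset.Ico 1 (i+1), f x := by
    rw [Nat.add_sub_cancel, Finset.sum_Ico_eq_sum_range, Nat.add_sub_cancel,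
      ← Finset.sum_range_reflect]
    apply Finset.sum_congr rfl
    intro d hd
    rw [Finset.mem_range] at hd
    congr 1; omega
  have e2 : ∑ x ∈ Finset.Ico (i+1) (i+1+m+1), f x = f (i+1) +
      ∑ d ∈ Finset.range (i+1+m-(i+1)), f (i+1+(d+1)) := by
    rw [Nat.add_sub_cancel_left, Finset.sum_Ico_eq_sum_range,
      show i+1+m+1-(i+1) = m+1 by omega, Finset.sum_range_succ', add_comm]
  rw [e1, e2]; ring

section
variable {κ M : ℝ} {n j : ℕ} {b : ℕ → ℝ}

lemma b_pos (hn : 2 ≤ n) (hM : 16 ≤ M) (hp : ∀ i, 1 ≤ i → i < n → M ≤ |b i * b (i+1)|) {i : ℕ}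
    (h1 : 1 ≤ i) (hin : i ≤ n) : 0 < |b i| := by
  rcases eq_or_ne (b i) 0 with h0 | h0
  · exfalso
    rcases Nat.lt_or_ge i n with h | h
    · have := hp i h1 h
      rw [h0, zero_mul, abs_zero] at this
      linarith
    · have hin' : i = n := by omega
      have := hp (i-1) (by omega) (by omega)
      rw [show i - 1 + 1 = i by omega, h0, mul_zero, abs_zero] at this
      linarith
  · exact abs_pos.2 h0

/-- all the sites: bound of the basic sum -/
lemma sum_bound (hn : 2 ≤ n) (hM : 16 ≤ M) (hκ : 10 ≤ κ) (hj : 1 ≤ j) (hjn : j ≤ n)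
    (hg : Good κ M n j b) (hup : ∀ i, |b i| ≤ 9 * κ ^ 2) :
    κ ^ 2 * ∑ i ∈ Finset.Icc 1 n, |Y b n j i| / |b i| ≤
      3 * κ ^ 2 * min (1 / κ ^ 2) (1 / b j ^ 2) + 600 / κ := by
  have hp := hg.1
  have hpos : ∀ i, 1 ≤ i → i ≤ n → 0 < |b i| := fun i h1 h2 => b_pos hn hM hp h1 h2
  have hmid := Y_mid hn hM hp hj hjn
  rw [sum_split _ hj hjn, mul_add, mul_add]
  have hbj := hpos j hj hjn
  have hκj : κ ≤ |b j| := hg.2 j hj hjn (by omega) (by omega)
  have h1 : κ ^ 2 * (|Y b n j j| / |b j|) ≤ 3 * κ ^ 2 * min (1 / κ ^ 2) (1 / b j ^ 2) := by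
    have e : min (1 / κ ^ 2) (1 / b j ^ 2) = 1 / b j ^ 2 := by
      apply min_eq_right
      have : κ ^ 2 ≤ b j ^ 2 := by
        rw [← sq_abs (b j)]; gcongr
      gcongr
    rw [e, ← sq_abs (b j)]
    have h2 : |Y b n j j| ≤ 3 / |b j| := by
      rw [le_div_iff₀ hbj]; linarith
    calc κ ^ 2 * (|Y b n j j| / |b j|) ≤ κ ^ 2 * ((3 / |b j|) / |b j|) := by gcongr
      _ = _ := by field_simp
  have h2 : κ ^ 2 * ∑ d ∈ Finset.range (j-1), |Y b n j (j-(d+1))| / |b (j-(d+1))| ≤ 300 / κ := by
    apply decay_sum (y := fun d => |Y b n j (j-d)|) (w := fun d => |b (j-d)|) (N := j-1) hκ hM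
    · intro d; exact abs_nonneg _
    · intro d hd; exact hpos _ (by omega) (by omega)
    · simpa using hmid
    · intro d hd
      have := Y_left hn hM hp hj hjn (i := j-(d+1)) (by omega) (by omega)
      rw [show j - (d+1) + 1 = j - d by omega] at this
      exact this
    · intro d hd
      have := hp (j-(d+1)) (by omega) (by omega)
      rw [show j - (d+1) + 1 = j - d by omega, abs_mul, mul_comm] at this
      exact this
    · intro d hd h6
      exact hg.2 _ (by omega) (by omega) (by omega) (by omega)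
    · intro d _; exact hup _
  have h3 : κ ^ 2 * ∑ d ∈ Finset.range (n-j), |Y b n j (j+(d+1))| / |b (j+(d+1))| ≤ 300 / κ := by
    apply decay_sum (y := fun d => |Y b n j (j+d)|) (w := fun d => |b (j+d)|) (N := n-j) hκ hM
    · intro d; exact abs_nonneg _
    · intro d hd; exact hpos _ (by omega) (by omega)
    · simpa using hmid
    · intro d hd
      have := Y_right hn hM hp hj (i := j+d) (by omega) (by omega)
      exact this
    · intro d hd
      have := hp (j+d) (by omega) (by omega)
      rw [abs_mul] at this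
      exact this
    · intro d hd h6
      exact hg.2 _ (by omega) (by omega) (by omega) (by omega)
    · intro d _; exact hup _
  have h4 : 600 / κ = 300 / κ + 300 / κ := by ring
  rw [h4]
  linarith

/-- geometric decay to the left of the kick -/
lemma left_bound (hn : 2 ≤ n) (hM : 16 ≤ M) (hκ : 1 ≤ κ) (hj : 1 ≤ j) (hjn : j ≤ n)
    (hg : Good κ M n j b) {m p : ℕ} (hm : m < j) (hp2 : 2 * p ≤ j - m) :
    max |Y b n j (m+1)| |Y b n j m| ≤ 3 * (4 / M) ^ p := by
  have hp := hg.1
  have hpos : ∀ i, 1 ≤ i → i ≤ n → 0 < |b i| := fun i h1 h2 => b_pos hn hM hp h1 h2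
  have hmid := Y_mid hn hM hp hj hjn
  have hκj : κ ≤ |b j| := hg.2 j hj hjn (by omega) (by omega)
  have hM0 : 0 < M := by linarith
  have h41 : 4 / M ≤ 1 := by rw [div_le_one hM0]; linarith
  have h40 : 0 ≤ 4 / M := by positivity
  have key := decay_pow (y := fun d => |Y b n j (j-d)|) (w := fun d => |b (j-d)|) (N := j-1)
    (κ := κ) (M := M) hκ hM (fun d => abs_nonneg _) (fun d hd => hpos _ (by omega) (by omega))
    (by simpa using hmid) (by simpa using hκj)
    (by
      intro d hd
      have := Y_left hn hM hp hj hjn (i := j-(d+1)) (by omega) (by omega)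
      rw [show j - (d+1) + 1 = j - d by omega] at this
      exact this)
    (by
      intro d hd
      have := hp (j-(d+1)) (by omega) (by omega)
      rw [show j - (d+1) + 1 = j - d by omega, abs_mul, mul_comm] at this
      exact this)
  have hmono : ∀ e, p ≤ e → 3 * (4 / M) ^ e ≤ 3 * (4 / M) ^ p := by
    intro e he
    have := pow_le_pow_of_le_one h40 h41 he
    linarith
  apply max_le
  · have := key (j - (m+1)) (by omega)
    rw [show j - (j - (m+1)) = m+1 by omega] at this
    exact this.trans (hmono _ (by omega))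
  · rcases Nat.eq_zero_or_pos m with rfl | hm0
    · rw [Y_zero, abs_zero]; positivity
    · have := key (j - m) (by omega)
      rw [show j - (j - m) = m by omega] at this
      exact this.trans (hmono _ (by omega))

/-- geometric decay to the right end -/
lemma right_bound (hn : 2 ≤ n) (hM : 16 ≤ M) (hκ : 1 ≤ κ) (hj : 1 ≤ j) (hjn : j ≤ n)
    (hg : Good κ M n j b) {p : ℕ} (hp2 : 2 * p ≤ n - j + 1) :
    max |Y b n j (n+1)| |Y b n j n| ≤ 3 * (4 / M) ^ p := by
  have hp := hg.1
  have hpos : ∀ i, 1 ≤ i → i ≤ n → 0 < |b i| := fun i h1 h2 => b_pos hn hM hp h1 h2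
  have hmid := Y_mid hn hM hp hj hjn
  have hκj : κ ≤ |b j| := hg.2 j hj hjn (by omega) (by omega)
  have hM0 : 0 < M := by linarith
  have h41 : 4 / M ≤ 1 := by rw [div_le_one hM0]; linarith
  have h40 : 0 ≤ 4 / M := by positivity
  have key := decay_pow (y := fun d => |Y b n j (j+d)|) (w := fun d => |b (j+d)|) (N := n-j)
    (κ := κ) (M := M) hκ hM (fun d => abs_nonneg _) (fun d hd => hpos _ (by omega) (by omega))
    (by simpa using hmid) (by simpa using hκj)
    (by
      intro d hd
      have := Y_right hn hM hp hj (i := j+d) (by omega) (by omega)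
      exact this)
    (by
      intro d hd
      have := hp (j+d) (by omega) (by omega)
      rw [abs_mul] at this
      exact this)
  apply max_le
  · rw [Y_top _ (D_ne hn hM hp (by omega) le_rfl), abs_zero]; positivity
  · have := key (n - j) le_rfl
    rw [show j + (n - j) = n by omega] at this
    refine this.trans ?_
    have := pow_le_pow_of_le_one h40 h41 (show p ≤ (n - j + 1) / 2 by omega)
    linarith

/-- the integrand after integration by parts -/
noncomputable def RR (κ M a : ℝ) (g : ℕ → ℝ × ℝ → ℝ) (t : ℕ → ℕ) (k n j : ℕ) (c : ℕ → ℝ)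
    (x y : ℝ) : ℝ :=
  (dFF a g t k c x y (q (bb a c x y) j) +
      hh (bb a c x y) n j * dFF a g t k c x y (D (bb a c x y))) * chi κ M n j (bb a c x y) +
    FF a g t k c x y * (dchi κ M n j (bb a c x y) (vc a c x y j) +
      hh (bb a c x y) n j * dchi κ M n j (bb a c x y) (vx a c x y) -
      dv (bb a c x y) (vx a c x y) n j * chi κ M n j (bb a c x y))

end

/-- pointwise bound of the integrand -/
theorem exists_RR_bound : ∃ C : ℝ, 0 < C ∧ ∀ (κ M a L : ℝ) (g : ℕ → ℝ × ℝ → ℝ) (t : ℕ → ℕ)
    (k n j p : ℕ) (c : ℕ → ℝ) (x y : ℝ), 10 ≤ κ → κ ^ 2 = |a| → 16 ≤ M → 2 ≤ n → 1 ≤ j → j ≤ n →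
    0 ≤ L → (∀ i, Obs L (g i)) →
    (∀ i, i < k → (t i < j ∧ 2 * p ≤ j - t i) ∨ (t i = n ∧ 2 * p ≤ n - j + 1)) →
    |RR κ M a g t k n j c x y| ≤ 3 * k * L * (4 / M) ^ p +
      C * (3 * κ ^ 2 * min (1 / κ ^ 2) (1 / bb a c x y j ^ 2) + 600 / κ) := by
  obtain ⟨C0, hC0, hC⟩ := exists_dchi_bound
  refine ⟨40 * (C0 + 3), by positivity, ?_⟩
  intro κ M a L g t k n j p c x y hκ hκa hM hn hj hjn hL hg ht
  set b := bb a c x y with hb
  have hκ0 : 0 < κ := by linarith
  have hM0 : 0 < M := by linarith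
  have ha1 : 1 ≤ |a| := by rw [← hκa]; nlinarith
  by_cases hgood : Good κ M n j b
  · have hp := hgood.1
    have hup : ∀ i, |b i| ≤ 9 * κ ^ 2 := by
      intro i; rw [hκa]; exact abs_bb_le ha1 c x y i
    have hsum := sum_bound hn hM hκ hj hjn hgood hup
    set S := ∑ i ∈ Finset.Icc 1 n, |Y b n j i| / |b i| with hS
    have hS0 : 0 ≤ S := Finset.sum_nonneg (fun i _ => by positivity)
    have e1 : dFF a g t k c x y (q b j) + hh b n j * dFF a g t k c x y (D b) =
        dFF a g t k c x y (Y b n j) := (dFF_linear c x y (q b j) (D b) (hh b n j)).symm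
    have e2 : dchi κ M n j b (vc a c x y j) + hh b n j * dchi κ M n j b (vx a c x y) =
        dchi κ M n j b (fun i => vc a c x y j i + hh b n j * vx a c x y i) :=
      (dchi_linear b _ _ _).symm
    have e3 : (fun i => vc a c x y j i + hh b n j * vx a c x y i) =
        fun i => dphi a (xi a c x y i) * Y b n j i := by
      funext i
      simp only [vc, vx, Y]
      ring
    have hRR : RR κ M a g t k n j c x y = dFF a g t k c x y (Y b n j) * chi κ M n j b +
        FF a g t k c x y * (dchi κ M n j b (fun i => dphi a (xi a c x y i) * Y b n j i) -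
          dv b (vx a c x y) n j * chi κ M n j b) := by
      rw [← e3, ← e2, ← e1]; rfl
    rw [hRR]
    have hchi0 := chi_nonneg (κ := κ) (M := M) (n := n) (j := j) b
    have hchi1 := chi_le_one (κ := κ) (M := M) (n := n) (j := j) b
    have b1 : |dFF a g t k c x y (Y b n j)| ≤ 3 * k * L * (4 / M) ^ p := by
      refine (abs_dFF_le hg c x y _).trans ?_
      have : ∀ i ∈ Finset.range k, L * max |Y b n j (t i + 1)| |Y b n j (t i)| ≤
          L * (3 * (4 / M) ^ p) := by
        intro i hi
        apply mul_le_mul_of_nonneg_left _ hL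
        rcases ht i (Finset.mem_range.1 hi) with ⟨h1, h2⟩ | ⟨h1, h2⟩
        · exact left_bound hn hM (by linarith) hj hjn hgood h1 h2
        · rw [h1]; exact right_bound hn hM (by linarith) hj hjn hgood h2
      refine (Finset.sum_le_sum this).trans (le_of_eq ?_)
      rw [Finset.sum_const, Finset.card_range, nsmul_eq_mul]; ring
    have b2 : |dchi κ M n j b (fun i => dphi a (xi a c x y i) * Y b n j i)| ≤
        C0 * (40 * |a| * S) := by
      refine (hC κ M n j b _ hκ0 hM0 hn hgood).trans ?_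
      apply mul_le_mul_of_nonneg_left _ hC0.le
      rw [hS, Finset.mul_sum]
      apply Finset.sum_le_sum
      intro i hi
      rw [abs_mul, mul_div_assoc]
      have := abs_dphi_le a (xi a c x y i)
      gcongr
    have b3 : |dv b (vx a c x y) n j| ≤ 3 * (40 * |a| * S) := by
      unfold dv
      refine (Finset.abs_sum_le_sum_abs _ _).trans ?_
      rw [hS, Finset.mul_sum, Finset.mul_sum]
      apply Finset.sum_le_sum
      intro i hi
      rw [Finset.mem_Icc] at hi
      have h1 := diag hn hM hp hi.1 hi.2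
      have h2 := b_pos hn hM hp hi.1 hi.2
      have h3 : |D b i * E b n i / E b n 0| ≤ 3 / |b i| := by
        rw [le_div_iff₀ h2]; linarith
      have e : vx a c x y i * Y b n j i * (E b n i / E b n 0) =
          dphi a (xi a c x y i) * Y b n j i * (D b i * E b n i / E b n 0) := by
        unfold vx; ring
      rw [e, abs_mul, abs_mul]
      have := abs_dphi_le a (xi a c x y i)
      calc |dphi a (xi a c x y i)| * |Y b n j i| * |D b i * E b n i / E b n 0| ≤
          (40 * |a|) * |Y b n j i| * (3 / |b i|) := by gcongr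
        _ = _ := by ring
    have b4 := abs_FF_le (a := a) (t := t) (k := k) hg c x y
    calc |dFF a g t k c x y (Y b n j) * chi κ M n j b +
        FF a g t k c x y * (dchi κ M n j b (fun i => dphi a (xi a c x y i) * Y b n j i) -
          dv b (vx a c x y) n j * chi κ M n j b)|
        ≤ |dFF a g t k c x y (Y b n j)| * |chi κ M n j b| +
          |FF a g t k c x y| * (|dchi κ M n j b (fun i => dphi a (xi a c x y i) * Y b n j i)| +
          |dv b (vx a c x y) n j| * |chi κ M n j b|) := by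
          refine (abs_add_le _ _).trans ?_
          rw [abs_mul, abs_mul]
          gcongr
          refine (abs_sub _ _).trans ?_
          rw [abs_mul]
      _ ≤ (3 * k * L * (4 / M) ^ p) * 1 + 1 * (C0 * (40 * |a| * S) + (3 * (40 * |a| * S)) * 1) := by
          rw [abs_of_nonneg hchi0]
          gcongr
      _ = 3 * k * L * (4 / M) ^ p + 40 * (C0 + 3) * (κ ^ 2 * S) := by rw [hκa]; ring
      _ ≤ _ := by gcongr
  · have h1 := chi_not_good hκ0 hM0 hgood
    have h2 := dchi_not_good hκ0 hM0 hgood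
    have e : RR κ M a g t k n j c x y = 0 := by
      unfold RR
      rw [← hb, h1, h2, h2]; ring
    rw [e, abs_zero]
    have : 0 ≤ min (1 / κ ^ 2) (1 / b j ^ 2) := le_min (by positivity) (by positivity)
    positivity

end Pool.Agent.Helper95.SK
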