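import Mathlib
import Pool.Agent.Helper95.SK.Orb
import Pool.Agent.Helper78.SM.Pair

/-!
Measure estimates for the kicked standard map, from `Helper78.SM`.
Block SK-ME: prove the lemmas below. Useful: `Helper78.SM.int_sq`, `vol_tau`, `tau_mk2`,
`X_succ_snd`, `sublevel_Phi`, `volume_P2`, `Phi_coe`, and `xi_succ_eq_zc` from `Orb`.
-/

set_option autoImplicit false
open Real MeasureTheory Set

namespace Pool.Agent.Helper95.SK

open Pool.Agent.Helper78.SM (psi phi dphi hasDerivAt_psi hasDerivAt_phi zc X sq)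

/-- invariance of Lebesgue measure: distribution of one coefficient -/
lemma int_bb {a : ℝ} (c : ℕ → ℝ) (k : ℕ) {g : ℝ → ℝ} (hg : Measurable g) :
    ∫ p in sq, g (bb a c p.1 p.2 (k+1)) =
      ∫ θ : UnitAddCircle, g (Pool.Agent.Helper78.SM.Phi a θ) := by
  rw [← Pool.Agent.Helper78.SM.int_sq (a := a) c k hg]
  refine integral_congr_ae (Filter.Eventually.of_forall fun p => ?_)
  show g (bb a c p.1 p.2 (k+1)) = g (phi a (zc a c k p))
  unfold bb
  rw [xi_succ_eq_zc]

/-- one coefficient is small -/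
lemma vol_bb {a s : ℝ} (ha : 1 ≤ |a|) (hs : 0 ≤ s) (c : ℕ → ℝ) {i : ℕ} (hi : 1 ≤ i) :
    volume {p : ℝ × ℝ | p ∈ sq ∧ |bb a c p.1 p.2 i| ≤ s} ≤ ENNReal.ofReal (s / (2 * |a|)) := by
  have := Pool.Agent.Helper53.SM.instProbU
  obtain ⟨k, rfl⟩ : ∃ k, i = k + 1 := ⟨i - 1, by omega⟩
  have hB : MeasurableSet {q : Pool.Agent.Helper53.SM.T2 |
      |Pool.Agent.Helper78.SM.Phi a q.1| ≤ s} := by
    apply measurableSet_le _ measurable_const
    exact continuous_abs.measurable.comp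
      ((Pool.Agent.Helper78.SM.measurable_Phi a).comp measurable_fst)
  have h1 := Pool.Agent.Helper78.SM.vol_tau (a := a) c k hB
    (s := {p : ℝ × ℝ | p ∈ sq ∧ |bb a c p.1 p.2 (k+1)| ≤ s}) (fun p hp => hp.1) (by
      intro p hp
      have h2 : |bb a c p.1 p.2 (k+1)| ≤ s := hp.2
      show |Pool.Agent.Helper78.SM.Phi a ((zc a c k p : ℝ) : UnitAddCircle)| ≤ s
      rw [Pool.Agent.Helper78.SM.Phi_coe]
      unfold bb at h2
      rw [xi_succ_eq_zc] at h2
      exact h2)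
  refine h1.trans ?_
  have h3 : {q : Pool.Agent.Helper53.SM.T2 | |Pool.Agent.Helper78.SM.Phi a q.1| ≤ s} =
      {θ : UnitAddCircle | |Pool.Agent.Helper78.SM.Phi a θ| ≤ s} ×ˢ (univ : Set UnitAddCircle) := by
    ext q; simp
  rw [h3, Measure.volume_eq_prod, Measure.prod_prod, measure_univ, mul_one]
  exact Pool.Agent.Helper78.SM.sublevel_Phi ha hs

/-- two consecutive coefficients have a small product -/
lemma vol_pair {a κ : ℝ} (ha : 3 ≤ |a|) (hκ : 4 ≤ κ) (c : ℕ → ℝ) {i : ℕ} (hi : 1 ≤ i) :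
    volume {p : ℝ × ℝ | p ∈ sq ∧ |bb a c p.1 p.2 i * bb a c p.1 p.2 (i+1)| < κ} ≤
      ENNReal.ofReal (4 * κ * Real.log |a| / |a| ^ 2) := by
  obtain ⟨k, rfl⟩ : ∃ k, i = k + 1 := ⟨i - 1, by omega⟩
  refine le_trans ?_ (Pool.Agent.Helper78.SM.volume_P2 ha hκ)
  apply Pool.Agent.Helper78.SM.vol_tau (a := a) c (k+1)
    (Pool.Agent.Helper78.SM.measurableSet_P2 a κ) (fun p hp => hp.1)
  intro p hp
  have h2 : |bb a c p.1 p.2 (k+1) * bb a c p.1 p.2 (k+1+1)| < κ := hp.2
  show |Pool.Agent.Helper78.SM.Phi a ((zc a c (k+1) p : ℝ) : UnitAddCircle) *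
    Pool.Agent.Helper78.SM.Phi a (((X a c (k+1) p).2 : ℝ) : UnitAddCircle)| < κ
  rw [Pool.Agent.Helper78.SM.Phi_coe, Pool.Agent.Helper78.SM.Phi_coe,
    Pool.Agent.Helper78.SM.X_succ_snd, mul_comm]
  unfold bb at h2
  rw [xi_succ_eq_zc, xi_succ_eq_zc] at h2
  exact h2

/-- the mean of `min (1/κ²) (1/b²)` -/
lemma int_min {a κ : ℝ} (ha : 1 ≤ |a|) (hκ : 1 ≤ κ) :
    ∫ θ : UnitAddCircle, min (1 / κ ^ 2) (1 / Pool.Agent.Helper78.SM.Phi a θ ^ 2) ≤
      4 / (|a| * κ) := by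
  have hκ0 : 0 < κ := by linarith
  have ha0 : 0 < |a| := by linarith
  have hm := Pool.Agent.Helper78.SM.measurable_Phi a
  have hmeas : Measurable (fun θ : UnitAddCircle =>
      min (1 / κ ^ 2) (1 / Pool.Agent.Helper78.SM.Phi a θ ^ 2)) :=
    measurable_const.min (measurable_const.div (hm.pow_const 2))
  rw [integral_eq_lintegral_of_nonneg_ae (Filter.Eventually.of_forall (fun θ => by
    show (0:ℝ) ≤ min (1 / κ ^ 2) (1 / Pool.Agent.Helper78.SM.Phi a θ ^ 2)
    positivity)) hmeas.aestronglyMeasurable]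
  apply ENNReal.toReal_le_of_le_ofReal (by positivity)
  let S : ℕ → Set UnitAddCircle := fun j =>
    {θ : UnitAddCircle | |Pool.Agent.Helper78.SM.Phi a θ| ≤ 2 ^ (j+1) * κ}
  have hS : ∀ j, MeasurableSet (S j) := fun j =>
    measurableSet_le (continuous_abs.measurable.comp hm) measurable_const
  have hpt : ∀ θ : UnitAddCircle,
      ENNReal.ofReal (min (1 / κ ^ 2) (1 / Pool.Agent.Helper78.SM.Phi a θ ^ 2)) ≤
      ∑' j : ℕ, (S j).indicator (fun _ => ENNReal.ofReal ((1/4 : ℝ) ^ j / κ ^ 2)) θ := by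
    intro θ
    set x := Pool.Agent.Helper78.SM.Phi a θ with hx
    rcases le_or_gt (|x|) κ with hxκ | hxκ
    · refine le_trans ?_ (ENNReal.le_tsum 0)
      have hmem : θ ∈ S 0 := by
        show |Pool.Agent.Helper78.SM.Phi a θ| ≤ 2 ^ (0+1) * κ
        rw [← hx]; norm_num; linarith
      rw [indicator_of_mem hmem]
      apply ENNReal.ofReal_le_ofReal
      rw [pow_zero]
      exact min_le_left _ _
    · obtain ⟨j, hj1, hj2⟩ := exists_nat_pow_near (x := |x| / κ) (y := 2)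
        ((one_le_div hκ0).2 hxκ.le) (by norm_num)
      refine le_trans ?_ (ENNReal.le_tsum j)
      have hj1' : 2 ^ j * κ ≤ |x| := (le_div_iff₀ hκ0).1 hj1
      have hj2' : |x| < 2 ^ (j+1) * κ := (div_lt_iff₀ hκ0).1 hj2
      have hmem : θ ∈ S j := by
        show |Pool.Agent.Helper78.SM.Phi a θ| ≤ 2 ^ (j+1) * κ
        rw [← hx]; exact hj2'.le
      rw [indicator_of_mem hmem]
      apply ENNReal.ofReal_le_ofReal
      refine (min_le_right _ _).trans ?_
      have e1 : (1/4 : ℝ) ^ j / κ ^ 2 = 1 / (2 ^ j * κ) ^ 2 := by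
        have e2 : (1/4 : ℝ) ^ j * 4 ^ j = 1 := by
          rw [← mul_pow]; norm_num
        rw [mul_pow, ← pow_mul, mul_comm j 2, pow_mul]
        norm_num
        field_simp
        exact e2
      rw [e1, ← sq_abs x]
      have : 0 < 2 ^ j * κ := by positivity
      apply one_div_le_one_div_of_le (by positivity)
      gcongr
  calc ∫⁻ θ : UnitAddCircle, ENNReal.ofReal (min (1 / κ ^ 2) (1 / Pool.Agent.Helper78.SM.Phi a θ ^ 2))
      ≤ ∫⁻ θ : UnitAddCircle, ∑' j : ℕ,
        (S j).indicator (fun _ => ENNReal.ofReal ((1/4 : ℝ) ^ j / κ ^ 2)) θ := lintegral_mono hpt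
    _ = ∑' j : ℕ, ∫⁻ θ : UnitAddCircle,
        (S j).indicator (fun _ => ENNReal.ofReal ((1/4 : ℝ) ^ j / κ ^ 2)) θ := by
        apply lintegral_tsum
        intro j
        exact (measurable_const.indicator (hS j)).aemeasurable
    _ = ∑' j : ℕ, ENNReal.ofReal ((1/4 : ℝ) ^ j / κ ^ 2) * volume (S j) := by
        congr 1; ext j
        rw [lintegral_indicator_const (hS j)]
    _ ≤ ∑' j : ℕ, ENNReal.ofReal ((1/2 : ℝ) ^ j * (1 / (|a| * κ))) := by
        apply ENNReal.tsum_le_tsum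
        intro j
        have h1 := Pool.Agent.Helper78.SM.sublevel_Phi (a := a) (s := 2 ^ (j+1) * κ) ha (by positivity)
        refine (mul_le_mul_right h1 _).trans ?_
        rw [← ENNReal.ofReal_mul (by positivity)]
        apply ENNReal.ofReal_le_ofReal
        apply le_of_eq
        have e1 : (1/4 : ℝ) ^ j = (1/2)^j * (1/2)^j := by
          rw [← mul_pow]; norm_num
        have e2 : (1/2 : ℝ) ^ j * 2 ^ j = 1 := by
          rw [← mul_pow]; norm_num
        rw [e1, pow_succ]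
        calc (1/2 : ℝ)^j * (1/2)^j / κ ^ 2 * (2 ^ j * 2 * κ / (2 * |a|))
            = (1/2)^j * ((1/2)^j * 2 ^ j) * (1 / (|a| * κ)) := by field_simp
          _ = _ := by rw [e2, mul_one]
    _ = ENNReal.ofReal (∑' j : ℕ, (1/2 : ℝ) ^ j * (1 / (|a| * κ))) := by
        rw [ENNReal.ofReal_tsum_of_nonneg (fun j => by positivity)
          (summable_geometric_two.mul_right _)]
    _ ≤ ENNReal.ofReal (4 / (|a| * κ)) := by
        apply ENNReal.ofReal_le_ofReal
        rw [tsum_mul_right, tsum_geometric_two]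
        rw [mul_one_div]
        gcongr
        norm_num

end Pool.Agent.Helper95.SK
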