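import Mathlib
import Pool.Agent.Helper95.SK.Div
import Pool.Agent.Helper95.SK.Meas

/-!
Integration by parts: the truncated functional hardly depends on one kick.
-/

set_option autoImplicit false
open Real MeasureTheory Set Filter Topology

namespace Pool.Agent.Helper95.SK

open Pool.Agent.Helper78.SM (psi phi dphi abs_dphi_le Phi)


section
variable (κ M a : ℝ) (g : ℕ → ℝ × ℝ → ℝ) (t : ℕ → ℕ) (k n j : ℕ)

/-- the truncated functional -/
noncomputable def PP (c : ℕ → ℝ) (x y : ℝ) : ℝ :=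
  FF a g t k c x y * chi κ M n j (bb a c x y)

/-- its derivative in the kick -/
noncomputable def Pc (c : ℕ → ℝ) (x y : ℝ) : ℝ :=
  dFF a g t k c x y (q (bb a c x y) j) * chi κ M n j (bb a c x y) +
    FF a g t k c x y * dchi κ M n j (bb a c x y) (vc a c x y j)

end

section
variable {κ M a L : ℝ} {g : ℕ → ℝ × ℝ → ℝ} {t : ℕ → ℕ} {k n j : ℕ}

lemma hasDerivAt_PP (hg : ∀ i, Obs L (g i)) (hj : 1 ≤ j) (c : ℕ → ℝ) (x y s : ℝ) :
    HasDerivAt (fun s => PP κ M a g t k n j (Function.update c j s) x y)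
      (Pc κ M a g t k n j (Function.update c j s) x y) s :=
  (hasDerivAt_FF_c hg c x y hj s).mul
    (hasDerivAt_chi (b := fun s => bb a (Function.update c j s) x y)
      (fun i => hasDerivAt_bb_c a c x y hj s i))

lemma hasDerivAt_GG (hκ : 0 < κ) (hM : 16 ≤ M) (hn : 2 ≤ n) (hg : ∀ i, Obs L (g i)) (hj : 1 ≤ j)
    (hjn : j ≤ n) (c : ℕ → ℝ) (x y : ℝ) :
    HasDerivAt (fun x => FF a g t k c x y * HH κ M n j (bb a c x y))
      (RR κ M a g t k n j c x y - Pc κ M a g t k n j c x y) x := by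
  have h := (hasDerivAt_FF_x (a := a) (k := k) (t := t) hg c x y).mul
    (hasDerivAt_HH (b := fun x => bb a c x y) hκ hM hn hj hjn
      (fun i => hasDerivAt_bb_x a c x y i))
  refine h.congr_deriv ?_
  unfold RR Pc HH
  ring

/-! ### measurability -/

lemma cont_bb' (c : ℕ → ℝ) (j i : ℕ) : Continuous
    (fun p : ℝ × ℝ × ℝ => bb a (Function.update c j p.1) p.2.1 p.2.2 i) := continuous_bb a c j i

lemma cont_q' (c : ℕ → ℝ) (j i : ℕ) : Continuous
    (fun p : ℝ × ℝ × ℝ => q (bb a (Function.update c j p.1) p.2.1 p.2.2) j i) :=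
  continuous_q (fun i => continuous_bb a c j i) j i

lemma cont_D' (c : ℕ → ℝ) (j i : ℕ) : Continuous
    (fun p : ℝ × ℝ × ℝ => D (bb a (Function.update c j p.1) p.2.1 p.2.2) i) :=
  continuous_D (fun i => continuous_bb a c j i) i

lemma cont_E' (c : ℕ → ℝ) (j n i : ℕ) : Continuous
    (fun p : ℝ × ℝ × ℝ => E (bb a (Function.update c j p.1) p.2.1 p.2.2) n i) := by
  unfold E
  exact continuous_D (b := fun (p : ℝ × ℝ × ℝ) k => bb a (Function.update c j p.1) p.2.1 p.2.2
    (n + 1 - k)) (fun i => continuous_bb a c j _) _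

lemma cont_dphi : Continuous (dphi a) := by
  unfold dphi; fun_prop

lemma cont_vx' (c : ℕ → ℝ) (j i : ℕ) : Continuous
    (fun p : ℝ × ℝ × ℝ => vx a (Function.update c j p.1) p.2.1 p.2.2 i) := by
  unfold vx
  exact (cont_dphi.comp (continuous_xi a c j i)).mul (cont_D' c j i)

lemma cont_vc' (c : ℕ → ℝ) (j i : ℕ) : Continuous
    (fun p : ℝ × ℝ × ℝ => vc a (Function.update c j p.1) p.2.1 p.2.2 j i) := by
  unfold vc
  exact (cont_dphi.comp (continuous_xi a c j i)).mul (cont_q' c j i)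

lemma cont_Pc (hg : ∀ i, Obs L (g i)) (c : ℕ → ℝ) : Continuous
    (fun p : ℝ × ℝ × ℝ => Pc κ M a g t k n j (Function.update c j p.1) p.2.1 p.2.2) := by
  unfold Pc
  exact ((continuous_dFF hg c j (fun i => cont_q' c j i)).mul
    (continuous_chi (fun i => cont_bb' c j i))).add
    ((continuous_FF hg c j).mul (continuous_dchi (fun i => cont_bb' c j i)
      (fun i => cont_vc' c j i)))

lemma cont_PP (hg : ∀ i, Obs L (g i)) (c : ℕ → ℝ) : Continuous
    (fun p : ℝ × ℝ × ℝ => PP κ M a g t k n j (Function.update c j p.1) p.2.1 p.2.2) := by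
  unfold PP
  exact (continuous_FF hg c j).mul (continuous_chi (fun i => cont_bb' c j i))

lemma meas_hh (c : ℕ → ℝ) : Measurable
    (fun p : ℝ × ℝ × ℝ => hh (bb a (Function.update c j p.1) p.2.1 p.2.2) n j) := by
  unfold hh
  exact ((cont_q' c j (n+1)).measurable.div (cont_D' c j (n+1)).measurable).neg

lemma meas_RR (hg : ∀ i, Obs L (g i)) (c : ℕ → ℝ) : Measurable
    (fun p : ℝ × ℝ × ℝ => RR κ M a g t k n j (Function.update c j p.1) p.2.1 p.2.2) := by
  unfold RR
  have h1 := (continuous_dFF (a := a) (k := k) (t := t) hg c j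
    (w := fun p i => q (bb a (Function.update c j p.1) p.2.1 p.2.2) j i)
    (fun i => cont_q' c j i)).measurable
  have h2 := (continuous_dFF (a := a) (k := k) (t := t) hg c j
    (w := fun p i => D (bb a (Function.update c j p.1) p.2.1 p.2.2) i)
    (fun i => cont_D' c j i)).measurable
  have h3 := (continuous_chi (κ := κ) (M := M) (n := n) (j := j)
    (fun i => cont_bb' (a := a) c j i)).measurable
  have h4 := (continuous_FF (a := a) (k := k) (t := t) hg c j).measurable
  have h5 := (continuous_dchi (κ := κ) (M := M) (n := n) (j := j) (fun i => cont_bb' (a := a) c j i)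
      (fun i => cont_vc' (a := a) c j i)).measurable
  have h6 := (continuous_dchi (κ := κ) (M := M) (n := n) (j := j) (fun i => cont_bb' (a := a) c j i)
      (fun i => cont_vx' (a := a) c j i)).measurable
  have h7 : Measurable (fun p : ℝ × ℝ × ℝ =>
      dv (bb a (Function.update c j p.1) p.2.1 p.2.2)
        (vx a (Function.update c j p.1) p.2.1 p.2.2) n j) := by
    unfold dv Y
    refine Finset.measurable_sum _ (fun i _ => ?_)
    exact ((cont_vx' c j i).measurable.mul ((cont_q' c j i).measurable.add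
      ((meas_hh c).mul (cont_D' c j i).measurable))).mul
      ((cont_E' c j n i).measurable.div (cont_E' c j n 0).measurable)
  have h8 := meas_hh (a := a) (n := n) (j := j) c
  exact ((h1.add (h8.mul h2)).mul h3).add (h4.mul ((h5.add (h8.mul h6)).sub (h7.mul h3)))

/-! ### integration by parts -/

lemma HH_add_one (c : ℕ → ℝ) (x y : ℝ) :
    HH κ M n j (bb a c (x+1) y) = HH κ M n j (bb a c x y) := by
  have : bb a c (x+1) y = bb a c x y := by
    funext i; exact bb_add_one a c x y i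
  rw [this]

/-- the embedding at a fixed kick -/
def emb (s : ℝ) (p : ℝ × ℝ) : ℝ × ℝ × ℝ := (s, p.1, p.2)

lemma cont_emb (s : ℝ) : Continuous (emb s) := by unfold emb; fun_prop

lemma cont_Pc2 (hg : ∀ i, Obs L (g i)) (c : ℕ → ℝ) (s : ℝ) : Continuous
    (fun p : ℝ × ℝ => Pc κ M a g t k n j (Function.update c j s) p.1 p.2) := by
  have h := (cont_Pc (κ := κ) (M := M) (a := a) (t := t) (k := k) (n := n) (j := j) hg c).comp
    (cont_emb s)
  exact h

lemma cont_PP2 (hg : ∀ i, Obs L (g i)) (c : ℕ → ℝ) (s : ℝ) : Continuous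
    (fun p : ℝ × ℝ => PP κ M a g t k n j (Function.update c j s) p.1 p.2) := by
  have h := (cont_PP (κ := κ) (M := M) (a := a) (t := t) (k := k) (n := n) (j := j) hg c).comp
    (cont_emb s)
  exact h

lemma meas_RR2 (hg : ∀ i, Obs L (g i)) (c : ℕ → ℝ) (s : ℝ) : Measurable
    (fun p : ℝ × ℝ => RR κ M a g t k n j (Function.update c j s) p.1 p.2) := by
  have h := (meas_RR (κ := κ) (M := M) (a := a) (t := t) (k := k) (n := n) (j := j) hg c).comp
    (cont_emb s).measurable
  exact h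

lemma cont_Pc1 (hg : ∀ i, Obs L (g i)) (c : ℕ → ℝ) (s y : ℝ) : Continuous
    (fun x : ℝ => Pc κ M a g t k n j (Function.update c j s) x y) := by
  have h := (cont_Pc2 (κ := κ) (M := M) (a := a) (t := t) (k := k) (n := n) (j := j) hg c s).comp
    (show Continuous (fun x : ℝ => ((x, y) : ℝ × ℝ)) by fun_prop)
  exact h

lemma meas_RR1 (hg : ∀ i, Obs L (g i)) (c : ℕ → ℝ) (s y : ℝ) : Measurable
    (fun x : ℝ => RR κ M a g t k n j (Function.update c j s) x y) := by
  have h := (meas_RR2 (κ := κ) (M := M) (a := a) (t := t) (k := k) (n := n) (j := j) hg c s).comp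
    (show Measurable (fun x : ℝ => ((x, y) : ℝ × ℝ)) by fun_prop)
  exact h

lemma int_x (hκ : 0 < κ) (hM : 16 ≤ M) (hn : 2 ≤ n) (hg : ∀ i, Obs L (g i)) (hj : 1 ≤ j)
    (hjn : j ≤ n) (c : ℕ → ℝ) (s y : ℝ) {B : ℝ}
    (hB : ∀ x, |RR κ M a g t k n j (Function.update c j s) x y| ≤ B) :
    ∫ x in (0:ℝ)..1, Pc κ M a g t k n j (Function.update c j s) x y =
      ∫ x in (0:ℝ)..1, RR κ M a g t k n j (Function.update c j s) x y := by
  have hc := cont_Pc1 (κ := κ) (M := M) (a := a) (t := t) (k := k) (n := n) (j := j) hg c s y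
  have hm := meas_RR1 (κ := κ) (M := M) (a := a) (t := t) (k := k) (n := n) (j := j) hg c s y
  have hi1 : IntervalIntegrable (fun x => Pc κ M a g t k n j (Function.update c j s) x y)
      volume 0 1 := hc.intervalIntegrable _ _
  have hi2 : IntervalIntegrable (fun x => RR κ M a g t k n j (Function.update c j s) x y)
      volume 0 1 := by
    refine (intervalIntegrable_const (c := B)).mono_fun hm.aestronglyMeasurable ?_
    refine Filter.Eventually.of_forall (fun x => ?_)
    simp only [Real.norm_eq_abs]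
    exact (hB x).trans (le_abs_self _)
  have hi3 : IntervalIntegrable (fun x => RR κ M a g t k n j (Function.update c j s) x y -
      Pc κ M a g t k n j (Function.update c j s) x y) volume 0 1 := hi2.sub hi1
  have h1 : ∫ x in (0:ℝ)..1, (RR κ M a g t k n j (Function.update c j s) x y -
      Pc κ M a g t k n j (Function.update c j s) x y) = 0 := by
    have e0 := intervalIntegral.integral_eq_sub_of_hasDerivAt (a := 0) (b := 1)
      (f := fun x => FF a g t k (Function.update c j s) x y *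
        HH κ M n j (bb a (Function.update c j s) x y))
      (f' := fun x => RR κ M a g t k n j (Function.update c j s) x y -
        Pc κ M a g t k n j (Function.update c j s) x y)
      (fun x _ => hasDerivAt_GG hκ hM hn hg hj hjn (Function.update c j s) x y) hi3
    rw [e0]
    have e1 := FF_add_one (k := k) (t := t) (a := a) hg (Function.update c j s) 0 y
    have e2 := HH_add_one (κ := κ) (M := M) (n := n) (j := j) (a := a) (Function.update c j s) 0 y
    rw [zero_add] at e1 e2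
    rw [e1, e2, sub_self]
  rw [intervalIntegral.integral_sub hi2 hi1] at h1
  linarith

lemma fubini_sq {f : ℝ × ℝ → ℝ} (hf : Measurable f) {B : ℝ} (hB : ∀ p, p ∈ Pool.Agent.Helper78.SM.sq → |f p| ≤ B) :
    ∫ p in Pool.Agent.Helper78.SM.sq, f p = ∫ y in (0:ℝ)..1, ∫ x in (0:ℝ)..1, f (x, y) := by
  have hi : IntegrableOn f Pool.Agent.Helper78.SM.sq (volume.prod volume) := by
    refine Measure.integrableOn_of_bounded (M := B) ?_ hf.aestronglyMeasurable ?_
    · unfold Pool.Agent.Helper78.SM.sq; rw [Measure.prod_prod]; simp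
    · refine (ae_restrict_iff' (measurableSet_Ioc.prod measurableSet_Ioc)).2 ?_
      exact Filter.Eventually.of_forall (fun p hp => by rw [Real.norm_eq_abs]; exact hB p hp)
  unfold Pool.Agent.Helper78.SM.sq at hi ⊢
  rw [Measure.volume_eq_prod, ← setIntegral_prod_swap, setIntegral_prod]
  · simp only [intervalIntegral.integral_of_le (zero_le_one' ℝ), Prod.swap_prod_mk]
  · exact hi.swap

lemma vol_sq : volume Pool.Agent.Helper78.SM.sq = 1 := by
  unfold Pool.Agent.Helper78.SM.sq; rw [Measure.volume_eq_prod, Measure.prod_prod]; simp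

lemma meas_sq : MeasurableSet Pool.Agent.Helper78.SM.sq := measurableSet_Ioc.prod measurableSet_Ioc

lemma integrableOn_sq {f : ℝ × ℝ → ℝ} (hf : Measurable f) {B : ℝ} (hB : ∀ p, |f p| ≤ B) :
    IntegrableOn f Pool.Agent.Helper78.SM.sq := by
  refine Measure.integrableOn_of_bounded (M := B) ?_ hf.aestronglyMeasurable ?_
  · rw [vol_sq]; simp
  · exact Filter.Eventually.of_forall (fun p => by rw [Real.norm_eq_abs]; exact hB p)

lemma int_RR_le {C : ℝ} (hC : 0 < C) (hκ : 10 ≤ κ) (hκa : κ ^ 2 = |a|) {K : ℝ} (c : ℕ → ℝ)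
    (hj : 1 ≤ j) {f : ℝ × ℝ → ℝ}
    (hf2 : ∀ p, |f p| ≤ K + C * (3 * κ ^ 2 * min (1 / κ ^ 2) (1 / bb a c p.1 p.2 j ^ 2) +
      600 / κ)) :
    |∫ p in Pool.Agent.Helper78.SM.sq, f p| ≤ K + C * (612 / κ) := by
  have hκ0 : 0 < κ := by linarith
  have ha1 : 1 ≤ |a| := by rw [← hκa]; nlinarith
  obtain ⟨i, rfl⟩ : ∃ i, j = i + 1 := ⟨j-1, by omega⟩
  have hgm : Measurable (fun u : ℝ => min (1 / κ ^ 2) (1 / u ^ 2)) := by fun_prop
  have hmin : Measurable (fun p : ℝ × ℝ => min (1 / κ ^ 2) (1 / bb a c p.1 p.2 (i+1) ^ 2)) := by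
    have h1 : Continuous (fun p : ℝ × ℝ => bb a c p.1 p.2 (i+1)) := by
      have := (continuous_bb a c 0 (i+1)).comp
        (by fun_prop : Continuous (fun p : ℝ × ℝ => ((c 0, p.1, p.2) : ℝ × ℝ × ℝ)))
      simpa [Function.comp_def, Function.update_eq_self] using this
    exact hgm.comp h1.measurable
  have hmin0 : ∀ p : ℝ × ℝ, |min (1 / κ ^ 2) (1 / bb a c p.1 p.2 (i+1) ^ 2)| ≤ 1 / κ ^ 2 := by
    intro p
    rw [abs_of_nonneg (le_min (by positivity) (by positivity))]
    exact min_le_left _ _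
  have hi1 : IntegrableOn (fun p : ℝ × ℝ => min (1 / κ ^ 2) (1 / bb a c p.1 p.2 (i+1) ^ 2)) Pool.Agent.Helper78.SM.sq :=
    integrableOn_sq hmin hmin0
  have hconst : ∀ r : ℝ, IntegrableOn (fun _ : ℝ × ℝ => r) Pool.Agent.Helper78.SM.sq := by
    intro r; exact integrableOn_sq measurable_const (B := |r|) (fun _ => le_rfl)
  have hi2 : IntegrableOn (fun p : ℝ × ℝ => K + C * (3 * κ ^ 2 *
      min (1 / κ ^ 2) (1 / bb a c p.1 p.2 (i+1) ^ 2) + 600 / κ)) Pool.Agent.Helper78.SM.sq :=
    (hconst K).add (((hi1.const_mul (3 * κ ^ 2)).add (hconst (600 / κ))).const_mul C)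
  have h1 : ‖∫ p in Pool.Agent.Helper78.SM.sq, f p‖ ≤ ∫ p in Pool.Agent.Helper78.SM.sq, (K + C * (3 * κ ^ 2 *
      min (1 / κ ^ 2) (1 / bb a c p.1 p.2 (i+1) ^ 2) + 600 / κ)) := by
    apply norm_integral_le_of_norm_le hi2
    exact Filter.Eventually.of_forall (fun p => by rw [Real.norm_eq_abs]; exact hf2 p)
  rw [Real.norm_eq_abs] at h1
  refine h1.trans ?_
  have hreal : (volume : Measure (ℝ × ℝ)).real Pool.Agent.Helper78.SM.sq = 1 := by
    rw [Measure.real, vol_sq]; simp
  have hi3 : IntegrableOn (fun p : ℝ × ℝ => 3 * κ ^ 2 *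
      min (1 / κ ^ 2) (1 / bb a c p.1 p.2 (i+1) ^ 2)) Pool.Agent.Helper78.SM.sq := hi1.const_mul (3 * κ ^ 2)
  have hi4 : IntegrableOn (fun p : ℝ × ℝ => 3 * κ ^ 2 *
      min (1 / κ ^ 2) (1 / bb a c p.1 p.2 (i+1) ^ 2) + 600 / κ) Pool.Agent.Helper78.SM.sq := hi3.add (hconst (600 / κ))
  have hi5 : IntegrableOn (fun p : ℝ × ℝ => C * (3 * κ ^ 2 *
      min (1 / κ ^ 2) (1 / bb a c p.1 p.2 (i+1) ^ 2) + 600 / κ)) Pool.Agent.Helper78.SM.sq := hi4.const_mul C
  rw [integral_add (hconst K) hi5, integral_const_mul, integral_add hi3 (hconst (600 / κ)),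
    integral_const_mul, setIntegral_const, setIntegral_const, hreal,
    int_bb c i hgm]
  have h2 := int_min (a := a) (κ := κ) ha1 (by linarith)
  have h3 : 3 * κ ^ 2 * ∫ θ : UnitAddCircle, min (1 / κ ^ 2) (1 / Phi a θ ^ 2) ≤ 12 / κ := by
    calc _ ≤ 3 * κ ^ 2 * (4 / (|a| * κ)) := by gcongr
      _ = 12 / κ := by rw [← hκa]; field_simp; norm_num
  have h4 : 612 / κ = 12 / κ + 600 / κ := by ring
  rw [h4]
  simp only [smul_eq_mul, one_mul]
  gcongr

/-- the truncated functional hardly depends on one kick -/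
theorem kick_trunc {C : ℝ} (hC : 0 < C) (hκ : 10 ≤ κ) (hκa : κ ^ 2 = |a|) (hM : 16 ≤ M)
    (hn : 2 ≤ n) (hg : ∀ i, Obs L (g i)) (hj : 1 ≤ j) (hjn : j ≤ n) {K : ℝ} (c : ℕ → ℝ)
    (hR : ∀ (s x y : ℝ), |RR κ M a g t k n j (Function.update c j s) x y| ≤
      K + C * (3 * κ ^ 2 * min (1 / κ ^ 2) (1 / bb a (Function.update c j s) x y j ^ 2) +
        600 / κ)) {s0 s1 : ℝ} (hs : |s1 - s0| ≤ 1) :
    |(∫ p in Pool.Agent.Helper78.SM.sq, PP κ M a g t k n j (Function.update c j s1) p.1 p.2) -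
      ∫ p in Pool.Agent.Helper78.SM.sq, PP κ M a g t k n j (Function.update c j s0) p.1 p.2| ≤ K + C * (612 / κ) := by
  have hκ0 : 0 < κ := by linarith
  have hminle : ∀ u : ℝ, min (1 / κ ^ 2) (1 / u ^ 2) ≤ 1 / κ ^ 2 := fun u => min_le_left _ _
  have hB : ∀ s x y, |RR κ M a g t k n j (Function.update c j s) x y| ≤
      K + C * (3 * κ ^ 2 * (1 / κ ^ 2) + 600 / κ) := by
    intro s x y
    refine (hR s x y).trans ?_
    have := hminle (bb a (Function.update c j s) x y j)
    gcongr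
  -- the kick derivative, integrated
  have hP1 : ∀ s, |∫ p in Pool.Agent.Helper78.SM.sq, Pc κ M a g t k n j (Function.update c j s) p.1 p.2| ≤
      K + C * (612 / κ) := by
    intro s
    have hcs := cont_Pc2 (κ := κ) (M := M) (a := a) (t := t) (k := k) (n := n) (j := j) hg c s
    have hms := meas_RR2 (κ := κ) (M := M) (a := a) (t := t) (k := k) (n := n) (j := j) hg c s
    obtain ⟨B, hBc⟩ : ∃ B, ∀ p : ℝ × ℝ, p ∈ Pool.Agent.Helper78.SM.sq →
        |Pc κ M a g t k n j (Function.update c j s) p.1 p.2| ≤ B := by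
      have hcomp : IsCompact (Icc (0:ℝ) 1 ×ˢ Icc (0:ℝ) 1) := isCompact_Icc.prod isCompact_Icc
      obtain ⟨B, hB⟩ := hcomp.exists_bound_of_continuousOn hcs.continuousOn
      refine ⟨B, fun p hp => ?_⟩
      have := hB p ⟨⟨hp.1.1.le, hp.1.2⟩, ⟨hp.2.1.le, hp.2.2⟩⟩
      rwa [Real.norm_eq_abs] at this
    have e : ∫ p in Pool.Agent.Helper78.SM.sq, Pc κ M a g t k n j (Function.update c j s) p.1 p.2 =
        ∫ p in Pool.Agent.Helper78.SM.sq, RR κ M a g t k n j (Function.update c j s) p.1 p.2 := by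
      rw [fubini_sq hcs.measurable hBc, fubini_sq hms (fun p _ => hB s p.1 p.2)]
      apply intervalIntegral.integral_congr
      intro y _
      exact int_x hκ0 hM hn hg hj hjn c s y (fun x => hB s x y)
    rw [e]
    exact int_RR_le hC hκ hκa (Function.update c j s) hj (fun p => hR s p.1 p.2)
  -- fundamental theorem of calculus in the kick
  have hcont3 : Continuous
      (fun p : ℝ × ℝ × ℝ => Pc κ M a g t k n j (Function.update c j p.1) p.2.1 p.2.2) :=
    cont_Pc (κ := κ) (M := M) (a := a) (t := t) (k := k) (n := n) (j := j) hg c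
  have hFTC : ∀ p : ℝ × ℝ, PP κ M a g t k n j (Function.update c j s1) p.1 p.2 -
      PP κ M a g t k n j (Function.update c j s0) p.1 p.2 =
      ∫ s in s0..s1, Pc κ M a g t k n j (Function.update c j s) p.1 p.2 := by
    intro p
    have hcs : Continuous (fun s : ℝ => Pc κ M a g t k n j (Function.update c j s) p.1 p.2) := by
      have h := hcont3.comp (show Continuous (fun s : ℝ => ((s, p.1, p.2) : ℝ × ℝ × ℝ)) by fun_prop)
      exact h
    exact (intervalIntegral.integral_eq_sub_of_hasDerivAt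
      (f := fun s => PP κ M a g t k n j (Function.update c j s) p.1 p.2)
      (fun s _ => hasDerivAt_PP hg hj c p.1 p.2 s) (hcs.intervalIntegrable _ _)).symm
  have hPPi : ∀ s, IntegrableOn (fun p : ℝ × ℝ =>
      PP κ M a g t k n j (Function.update c j s) p.1 p.2) Pool.Agent.Helper78.SM.sq := by
    intro s
    refine integrableOn_sq (cont_PP2 (κ := κ) (M := M) (a := a) (t := t) (k := k) (n := n)
      (j := j) hg c s).measurable (B := 1) ?_
    intro p
    unfold PP
    rw [abs_mul]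
    have h1 := abs_FF_le (a := a) (k := k) (t := t) hg (Function.update c j s) p.1 p.2
    have h2 : |chi κ M n j (bb a (Function.update c j s) p.1 p.2)| ≤ 1 := by
      rw [abs_of_nonneg (chi_nonneg _)]; exact chi_le_one _
    calc _ ≤ (1:ℝ) * 1 := mul_le_mul h1 h2 (abs_nonneg _) zero_le_one
      _ = 1 := one_mul _
  rw [← integral_sub (hPPi s1) (hPPi s0)]
  simp only [hFTC]
  -- swap
  have hswap : ∫ p in Pool.Agent.Helper78.SM.sq, ∫ s in s0..s1, Pc κ M a g t k n j (Function.update c j s) p.1 p.2 =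
      ∫ s in s0..s1, ∫ p in Pool.Agent.Helper78.SM.sq, Pc κ M a g t k n j (Function.update c j s) p.1 p.2 := by
    have hint : Integrable (Function.uncurry (fun (p : ℝ × ℝ) (s : ℝ) =>
        Pc κ M a g t k n j (Function.update c j s) p.1 p.2))
        ((volume.restrict Pool.Agent.Helper78.SM.sq).prod (volume.restrict (Set.uIoc s0 s1))) := by
      rw [Measure.prod_restrict]
      have hcc : Continuous (Function.uncurry (fun (p : ℝ × ℝ) (s : ℝ) =>
        Pc κ M a g t k n j (Function.update c j s) p.1 p.2)) := by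
        have h := hcont3.comp (show Continuous
          (fun z : (ℝ × ℝ) × ℝ => ((z.2, z.1.1, z.1.2) : ℝ × ℝ × ℝ)) by fun_prop)
        exact h
      have hcomp : IsCompact ((Icc (0:ℝ) 1 ×ˢ Icc (0:ℝ) 1) ×ˢ uIcc s0 s1) :=
        (isCompact_Icc.prod isCompact_Icc).prod isCompact_uIcc
      have := (hcc.continuousOn (s := (Icc (0:ℝ) 1 ×ˢ Icc (0:ℝ) 1) ×ˢ uIcc s0 s1)).integrableOn_compact
        (μ := (volume : Measure (ℝ × ℝ)).prod volume) hcomp
      refine this.mono_set ?_
      intro z hz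
      refine ⟨⟨⟨hz.1.1.1.le, hz.1.1.2⟩, ⟨hz.1.2.1.le, hz.1.2.2⟩⟩, ?_⟩
      exact uIoc_subset_uIcc hz.2
    simp only [intervalIntegral.intervalIntegral_eq_integral_uIoc]
    rw [integral_smul, ← integral_integral_swap hint]
  rw [hswap]
  have := intervalIntegral.norm_integral_le_of_norm_le_const (a := s0) (b := s1)
    (C := K + C * (612 / κ))
    (f := fun s => ∫ p in Pool.Agent.Helper78.SM.sq, Pc κ M a g t k n j (Function.update c j s) p.1 p.2)
    (fun s _ => by rw [Real.norm_eq_abs]; exact hP1 s)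
  rw [Real.norm_eq_abs] at this
  refine this.trans ?_
  have h0 : 0 ≤ K + C * (612 / κ) := (abs_nonneg _).trans (hP1 0)
  calc (K + C * (612 / κ)) * |s1 - s0| ≤ (K + C * (612 / κ)) * 1 := by gcongr
    _ = _ := mul_one _

end

end Pool.Agent.Helper95.SK
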