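import Mathlib
import Pool.Agent.Helper95.SK.Kick

/-!
The loss from the cut-off, and the effect of one kick on the full functional.
-/

set_option autoImplicit false
open Real MeasureTheory Set Filter Topology

namespace Pool.Agent.Helper95.SK

open Pool.Agent.Helper78.SM (psi phi dphi abs_dphi_le Phi)


section
variable {κ M a L : ℝ} {g : ℕ → ℝ × ℝ → ℝ} {t : ℕ → ℕ} {k n j : ℕ}

lemma cont_bb2 (c : ℕ → ℝ) (i : ℕ) : Continuous (fun p : ℝ × ℝ => bb a c p.1 p.2 i) := by
  have h := (continuous_bb a c 0 i).comp (cont_emb (c 0))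
  have e : ∀ p : ℝ × ℝ, bb a (Function.update c 0 (c 0)) p.1 p.2 i = bb a c p.1 p.2 i := by
    intro p; rw [Function.update_eq_self]
  refine (continuous_congr ?_).1 h
  intro p
  exact e p

lemma cont_FF2 (hg : ∀ i, Obs L (g i)) (c : ℕ → ℝ) :
    Continuous (fun p : ℝ × ℝ => FF a g t k c p.1 p.2) := by
  have h := (continuous_FF (a := a) (k := k) (t := t) hg c 0).comp (cont_emb (c 0))
  refine (continuous_congr ?_).1 h
  intro p
  show FF a g t k (Function.update c 0 (c 0)) p.1 p.2 = _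
  rw [Function.update_eq_self]

open Classical in
/-- the loss -/
lemma loss (hκ : 10 ≤ κ) (hκa : κ ^ 2 = |a|) (hM : 16 ≤ M) (c : ℕ → ℝ) :
    ∫ p in Pool.Agent.Helper78.SM.sq, (1 - chi κ M n j (bb a c p.1 p.2)) ≤
      8 * (n * M * Real.log |a| / |a| ^ 2) + 13 / κ := by
  have hκ0 : 0 < κ := by linarith
  have hM0 : 0 < M := by linarith
  have ha3 : 3 ≤ |a| := by rw [← hκa]; nlinarith
  have ha1 : 1 ≤ |a| := by linarith
  have hlog : 0 ≤ Real.log |a| := Real.log_nonneg ha1
  have hchi : Continuous (fun p : ℝ × ℝ => chi κ M n j (bb a c p.1 p.2)) :=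
    continuous_chi (fun i => cont_bb2 c i)
  have hchi1 : ∀ p : ℝ × ℝ, |1 - chi κ M n j (bb a c p.1 p.2)| ≤ 1 := by
    intro p
    have h0 := chi_nonneg (κ := κ) (M := M) (n := n) (j := j) (bb a c p.1 p.2)
    have h1 := chi_le_one (κ := κ) (M := M) (n := n) (j := j) (bb a c p.1 p.2)
    rw [abs_of_nonneg (by linarith)]; linarith
  set A : ℕ → Set (ℝ × ℝ) := fun i => {p | |bb a c p.1 p.2 i * bb a c p.1 p.2 (i+1)| < 2 * M}
    with hA
  set B : ℕ → Set (ℝ × ℝ) := fun i => {p | |bb a c p.1 p.2 i| ≤ 2 * κ} with hB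
  have hAm : ∀ i, MeasurableSet (A i) := fun i =>
    (isOpen_lt ((cont_bb2 c i).mul (cont_bb2 c (i+1))).abs continuous_const).measurableSet
  have hBm : ∀ i, MeasurableSet (B i) := fun i =>
    (isClosed_le (cont_bb2 c i).abs continuous_const).measurableSet
  set I : Finset ℕ := (Finset.Icc 1 n).filter (fun i => i ≤ j + 6 ∧ j ≤ i + 6) with hI
  have hpt : ∀ p : ℝ × ℝ, 1 - chi κ M n j (bb a c p.1 p.2) ≤
      (∑ i ∈ Finset.Ico 1 n, (A i).indicator (fun _ => (1:ℝ)) p) +
        ∑ i ∈ I, (B i).indicator (fun _ => (1:ℝ)) p := by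
    intro p
    have h := one_sub_chi_le (n := n) (j := j) hκ0 hM0 (bb a c p.1 p.2)
    refine h.trans (le_of_eq ?_)
    congr 1
  have hfin : volume Pool.Agent.Helper78.SM.sq ≠ ⊤ := by rw [vol_sq]; simp
  have hind : ∀ S : Set (ℝ × ℝ), MeasurableSet S →
      IntegrableOn (S.indicator (fun _ => (1:ℝ))) Pool.Agent.Helper78.SM.sq := by
    intro S hS
    refine integrableOn_sq (measurable_const.indicator hS) (B := 1) ?_
    intro p
    by_cases hp : p ∈ S
    · rw [indicator_of_mem hp]; simp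
    · rw [indicator_of_notMem hp]; simp
  have hs1 : IntegrableOn (fun p => ∑ i ∈ Finset.Ico 1 n, (A i).indicator (fun _ => (1:ℝ)) p)
      Pool.Agent.Helper78.SM.sq := integrable_finsetSum _ (fun i _ => hind _ (hAm i))
  have hs2 : IntegrableOn (fun p => ∑ i ∈ I, (B i).indicator (fun _ => (1:ℝ)) p)
      Pool.Agent.Helper78.SM.sq := integrable_finsetSum _ (fun i _ => hind _ (hBm i))
  have h1 : ∫ p in Pool.Agent.Helper78.SM.sq, (1 - chi κ M n j (bb a c p.1 p.2)) ≤
      ∫ p in Pool.Agent.Helper78.SM.sq, ((∑ i ∈ Finset.Ico 1 n, (A i).indicator (fun _ => (1:ℝ)) p) +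
        ∑ i ∈ I, (B i).indicator (fun _ => (1:ℝ)) p) :=
    setIntegral_mono (integrableOn_sq (continuous_const.sub hchi).measurable hchi1)
      (hs1.add hs2) hpt
  rw [integral_add hs1 hs2, integral_finsetSum _ (fun i _ => hind _ (hAm i)),
    integral_finsetSum _ (fun i _ => hind _ (hBm i))] at h1
  refine h1.trans ?_
  have hval : ∀ (S : Set (ℝ × ℝ)) (r : ℝ), MeasurableSet S → 0 ≤ r →
      volume {p : ℝ × ℝ | p ∈ Pool.Agent.Helper78.SM.sq ∧ p ∈ S} ≤ ENNReal.ofReal r →
      ∫ p in Pool.Agent.Helper78.SM.sq, S.indicator (fun _ => (1:ℝ)) p ≤ r := by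
    intro S r hS hr hv
    rw [integral_indicator hS, Measure.restrict_restrict hS]
    rw [setIntegral_const, smul_eq_mul, mul_one]
    have e : S ∩ Pool.Agent.Helper78.SM.sq = {p : ℝ × ℝ | p ∈ Pool.Agent.Helper78.SM.sq ∧ p ∈ S} := by
      ext p; constructor
      · intro h; exact ⟨h.2, h.1⟩
      · intro h; exact ⟨h.2, h.1⟩
    rw [e, Measure.real]
    exact ENNReal.toReal_le_of_le_ofReal hr hv
  have hA2 : ∀ i ∈ Finset.Ico 1 n, ∫ p in Pool.Agent.Helper78.SM.sq, (A i).indicator (fun _ => (1:ℝ)) p ≤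
      8 * (M * Real.log |a| / |a| ^ 2) := by
    intro i hi
    rw [Finset.mem_Ico] at hi
    apply hval _ _ (hAm i) (by positivity)
    have := vol_pair (a := a) (κ := 2 * M) ha3 (by linarith) c hi.1
    refine this.trans (ENNReal.ofReal_le_ofReal (le_of_eq ?_))
    ring
  have hB2 : ∀ i ∈ I, ∫ p in Pool.Agent.Helper78.SM.sq, (B i).indicator (fun _ => (1:ℝ)) p ≤ 1 / κ := by
    intro i hi
    rw [hI, Finset.mem_filter, Finset.mem_Icc] at hi
    apply hval _ _ (hBm i) (by positivity)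
    have := vol_bb (a := a) (s := 2 * κ) ha1 (by linarith) c hi.1.1
    refine this.trans (ENNReal.ofReal_le_ofReal (le_of_eq ?_))
    rw [← hκa]; field_simp
  have hcard : (I.card : ℝ) ≤ 13 := by
    have h2 : I ⊆ Finset.Icc (j - 6) (j + 6) := by
      intro i hi
      rw [hI, Finset.mem_filter, Finset.mem_Icc] at hi
      rw [Finset.mem_Icc]; omega
    have h3 := Finset.card_le_card h2
    rw [Nat.card_Icc] at h3
    have h4 : I.card ≤ 13 := by omega
    exact_mod_cast h4
  refine (add_le_add (Finset.sum_le_sum hA2) (Finset.sum_le_sum hB2)).trans ?_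
  rw [Finset.sum_const, Finset.sum_const, Nat.card_Ico, nsmul_eq_mul, nsmul_eq_mul]
  have h5 : ((n - 1 : ℕ) : ℝ) ≤ n := by exact_mod_cast Nat.sub_le n 1
  have h6 : 0 ≤ M * Real.log |a| / |a| ^ 2 := by positivity
  have e1 : 8 * ((n:ℝ) * M * Real.log |a| / |a| ^ 2) = n * (8 * (M * Real.log |a| / |a| ^ 2)) := by
    ring
  have e2 : 13 / κ = 13 * (1 / κ) := by ring
  rw [e1, e2]
  gcongr

/-- effect of one kick on the full functional -/
theorem exists_kick : ∃ C : ℝ, 0 < C ∧ ∀ (κ M a L : ℝ) (g : ℕ → ℝ × ℝ → ℝ) (t : ℕ → ℕ)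
    (k n j p : ℕ) (c : ℕ → ℝ), 10 ≤ κ → κ ^ 2 = |a| → 16 ≤ M → 2 ≤ n → 1 ≤ j → j ≤ n →
    0 ≤ L → (∀ i, Obs L (g i)) →
    (∀ i, i < k → (t i < j ∧ 2 * p ≤ j - t i) ∨ (t i = n ∧ 2 * p ≤ n - j + 1)) →
    ∀ s0 s1 : ℝ, |s1 - s0| ≤ 1 →
    |(∫ p in Pool.Agent.Helper78.SM.sq, FF a g t k (Function.update c j s1) p.1 p.2) -
      ∫ p in Pool.Agent.Helper78.SM.sq, FF a g t k (Function.update c j s0) p.1 p.2| ≤
      3 * k * L * (4 / M) ^ p + C * (1 / κ + n * M * Real.log |a| / |a| ^ 2) := by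
  obtain ⟨C0, hC0, hC⟩ := exists_RR_bound
  refine ⟨C0 * 612 + 26, by positivity, ?_⟩
  intro κ M a L g t k n j p c hκ hκa hM hn hj hjn hL hg ht s0 s1 hs
  have hκ0 : 0 < κ := by linarith
  have ha1 : 1 ≤ |a| := by rw [← hκa]; nlinarith
  have hlog : 0 ≤ Real.log |a| := Real.log_nonneg ha1
  have hM0 : 0 < M := by linarith
  have h1 := kick_trunc (κ := κ) (M := M) (a := a) (L := L) (g := g) (t := t) (k := k) (n := n)
    (j := j) hC0 hκ hκa hM hn hg hj hjn (K := 3 * k * L * (4 / M) ^ p) c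
    (fun s x y => hC κ M a L g t k n j p (Function.update c j s) x y hκ hκa hM hn hj hjn hL hg ht)
    hs
  have hdiff : ∀ s, |(∫ p in Pool.Agent.Helper78.SM.sq, FF a g t k (Function.update c j s) p.1 p.2) -
      ∫ p in Pool.Agent.Helper78.SM.sq, PP κ M a g t k n j (Function.update c j s) p.1 p.2| ≤
      8 * (n * M * Real.log |a| / |a| ^ 2) + 13 / κ := by
    intro s
    set c' := Function.update c j s with hc'
    have hchi : Continuous (fun p : ℝ × ℝ => chi κ M n j (bb a c' p.1 p.2)) :=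
      continuous_chi (fun i => cont_bb2 c' i)
    have hFi : IntegrableOn (fun p : ℝ × ℝ => FF a g t k c' p.1 p.2) Pool.Agent.Helper78.SM.sq :=
      integrableOn_sq (cont_FF2 hg c').measurable (B := 1) (fun p => abs_FF_le hg c' p.1 p.2)
    have hPi : IntegrableOn (fun p : ℝ × ℝ => PP κ M a g t k n j c' p.1 p.2) Pool.Agent.Helper78.SM.sq := by
      refine integrableOn_sq (cont_PP2 (κ := κ) (M := M) (a := a) (t := t) (k := k) (n := n)
        (j := j) hg c s).measurable (B := 1) ?_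
      intro p
      unfold PP
      rw [abs_mul]
      have h1 := abs_FF_le (a := a) (k := k) (t := t) hg c' p.1 p.2
      have h2 : |chi κ M n j (bb a c' p.1 p.2)| ≤ 1 := by
        rw [abs_of_nonneg (chi_nonneg _)]; exact chi_le_one _
      calc _ ≤ (1:ℝ) * 1 := mul_le_mul h1 h2 (abs_nonneg _) zero_le_one
        _ = 1 := one_mul _
    rw [← integral_sub hFi hPi]
    have hci : IntegrableOn (fun p : ℝ × ℝ => 1 - chi κ M n j (bb a c' p.1 p.2)) Pool.Agent.Helper78.SM.sq := by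
      refine integrableOn_sq (continuous_const.sub hchi).measurable (B := 1) ?_
      intro p
      have h0 := chi_nonneg (κ := κ) (M := M) (n := n) (j := j) (bb a c' p.1 p.2)
      have h1 := chi_le_one (κ := κ) (M := M) (n := n) (j := j) (bb a c' p.1 p.2)
      rw [abs_of_nonneg (by linarith)]; linarith
    have h2 : ‖∫ p in Pool.Agent.Helper78.SM.sq, (FF a g t k c' p.1 p.2 - PP κ M a g t k n j c' p.1 p.2)‖ ≤
        ∫ p in Pool.Agent.Helper78.SM.sq, (1 - chi κ M n j (bb a c' p.1 p.2)) := by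
      apply norm_integral_le_of_norm_le hci
      refine Filter.Eventually.of_forall (fun p => ?_)
      rw [Real.norm_eq_abs]
      unfold PP
      have e : FF a g t k c' p.1 p.2 - FF a g t k c' p.1 p.2 * chi κ M n j (bb a c' p.1 p.2) =
          FF a g t k c' p.1 p.2 * (1 - chi κ M n j (bb a c' p.1 p.2)) := by ring
      rw [e, abs_mul]
      have h0 := chi_nonneg (κ := κ) (M := M) (n := n) (j := j) (bb a c' p.1 p.2)
      have h1 := chi_le_one (κ := κ) (M := M) (n := n) (j := j) (bb a c' p.1 p.2)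
      rw [abs_of_nonneg (by linarith : 0 ≤ 1 - chi κ M n j (bb a c' p.1 p.2))]
      have h3 := abs_FF_le (a := a) (k := k) (t := t) hg c' p.1 p.2
      calc _ ≤ 1 * (1 - chi κ M n j (bb a c' p.1 p.2)) := by
            apply mul_le_mul_of_nonneg_right h3; linarith
        _ = _ := one_mul _
    rw [Real.norm_eq_abs] at h2
    exact h2.trans (loss hκ hκa hM c')
  have h2 := hdiff s0
  have h3 := hdiff s1
  set F0 := ∫ p in Pool.Agent.Helper78.SM.sq, FF a g t k (Function.update c j s0) p.1 p.2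
  set F1 := ∫ p in Pool.Agent.Helper78.SM.sq, FF a g t k (Function.update c j s1) p.1 p.2
  set P0 := ∫ p in Pool.Agent.Helper78.SM.sq, PP κ M a g t k n j (Function.update c j s0) p.1 p.2
  set P1 := ∫ p in Pool.Agent.Helper78.SM.sq, PP κ M a g t k n j (Function.update c j s1) p.1 p.2
  have h4 : |F1 - F0| ≤ |F1 - P1| + |P1 - P0| + |F0 - P0| := by
    have e : F1 - F0 = (F1 - P1) + (P1 - P0) - (F0 - P0) := by ring
    rw [e]
    refine (abs_sub _ _).trans ?_
    gcongr
    exact abs_add_le _ _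
  refine h4.trans ?_
  have h5 : 0 ≤ (n:ℝ) * M * Real.log |a| / |a| ^ 2 := by positivity
  have e1 : 612 / κ = 612 * (1 / κ) := by ring
  have e2 : 13 / κ = 13 * (1 / κ) := by ring
  rw [e1] at h1
  rw [e2] at h2 h3
  have h6 : 0 < 1 / κ := by positivity
  nlinarith [mul_nonneg hC0.le h5]

end

end Pool.Agent.Helper95.SK
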