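import Mathlib
import Pool.Agent.Helper95.SK.Fun

/-!
Smoothing of Lipschitz observables on the torus. Block SK-MO: prove the lemma below.
Hint: convolve `fun p => f (mk2 p)` on `ℝ × ℝ` with a normed `ContDiffBump`
(`HasCompactSupport.contDiff_convolution_left`, `ContDiffBump.dist_normed_convolution_le`).
-/

set_option autoImplicit false
open Real MeasureTheory Set

namespace Pool.Agent.Helper95.SK

open Pool.Agent.Helper53.SM (T2)
open Pool.Agent.Helper78.SM (mk2)

open scoped Convolution

private lemma mo_dist_mk2 (p q : ℝ × ℝ) : dist (mk2 p) (mk2 q) ≤ dist p q := by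
  rw [Prod.dist_eq, Prod.dist_eq]
  have h : ∀ x y : ℝ, dist (x : UnitAddCircle) (y : UnitAddCircle) ≤ dist x y := by
    intro x y
    rw [dist_eq_norm, dist_eq_norm, ← AddCircle.coe_sub, UnitAddCircle.norm_eq, Real.norm_eq_abs]
    have := round_le (x - y) 0
    simpa using this
  exact max_le_max (h _ _) (h _ _)

lemma mollify {f : T2 → ℝ} {L : ℝ} (hL : 0 ≤ L) (hf1 : ∀ p, |f p| ≤ 1)
    (hfL : ∀ p q, |f p - f q| ≤ L * dist p q) {ε : ℝ} (hε : 0 < ε) :
    ∃ g : ℝ × ℝ → ℝ, Obs L g ∧ ∀ p, |g p - f (mk2 p)| ≤ ε := by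
  set F : ℝ × ℝ → ℝ := fun p => f (mk2 p) with hF
  have hF1 : ∀ p, |F p| ≤ 1 := fun p => hf1 _
  have hFL : ∀ p q, |F p - F q| ≤ L * dist p q := fun p q =>
    (hfL _ _).trans (mul_le_mul_of_nonneg_left (mo_dist_mk2 p q) hL)
  have hFlip : LipschitzWith ⟨L, hL⟩ F := by
    apply LipschitzWith.of_dist_le_mul
    intro p q
    rw [Real.dist_eq]
    exact hFL p q
  have hFc : Continuous F := hFlip.continuous
  have hδ : 0 < ε / (L + 1) := by positivity
  let φ : ContDiffBump (0 : ℝ × ℝ) := ⟨ε / (L + 1) / 2, ε / (L + 1), by positivity, by linarith⟩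
  have hφi : Integrable (φ.normed volume) (volume : Measure (ℝ × ℝ)) := φ.integrable_normed
  have hφ0 : ∀ t, 0 ≤ φ.normed volume t := fun t => φ.nonneg_normed t
  have hφ1 : ∫ t, φ.normed volume t = 1 := φ.integral_normed
  set g : ℝ × ℝ → ℝ := φ.normed volume ⋆[ContinuousLinearMap.lsmul ℝ ℝ, volume] F with hg
  have hgdef : ∀ p, g p = ∫ t, φ.normed volume t * F (p - t) := by
    intro p
    rw [hg]
    rfl
  have hint : ∀ p, Integrable (fun t => φ.normed volume t * F (p - t)) := by
    intro p
    refine (hφi.mul_bdd (c := 1) (hFc.comp (continuous_const.sub continuous_id)).aestronglyMeasurable ?_)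
    filter_upwards with t
    rw [Real.norm_eq_abs]
    exact hF1 _
  have hbound : ∀ p, |g p| ≤ 1 := by
    intro p
    rw [hgdef p, ← Real.norm_eq_abs, ← hφ1]
    apply norm_integral_le_of_norm_le hφi
    filter_upwards with t
    rw [norm_mul, Real.norm_eq_abs, Real.norm_eq_abs, abs_of_nonneg (hφ0 t)]
    exact mul_le_of_le_one_right (hφ0 t) (hF1 _)
  have hlip : ∀ p q, |g p - g q| ≤ L * dist p q := by
    intro p q
    rw [hgdef p, hgdef q, ← integral_sub (hint p) (hint q), ← Real.norm_eq_abs]
    have h1 : L * dist p q = ∫ t, φ.normed volume t * (L * dist p q) := by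
      rw [integral_mul_const, hφ1, one_mul]
    rw [h1]
    apply norm_integral_le_of_norm_le (hφi.mul_const _)
    filter_upwards with t
    rw [← mul_sub, norm_mul, Real.norm_eq_abs, Real.norm_eq_abs, abs_of_nonneg (hφ0 t)]
    apply mul_le_mul_of_nonneg_left _ (hφ0 t)
    refine (hFL _ _).trans ?_
    rw [dist_sub_right]
  refine ⟨g, ⟨?_, hbound, ?_, ?_, ?_⟩, ?_⟩
  · exact φ.hasCompactSupport_normed.contDiff_convolution_left _ φ.contDiff_normed
      hFc.locallyIntegrable
  · intro p
    apply norm_fderiv_le_of_lip' ℝ hL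
    filter_upwards with q
    have := hlip q p
    rw [Real.norm_eq_abs, ← dist_eq_norm]
    exact this
  · intro x y k
    rw [hgdef, hgdef]
    congr 1
    funext t
    congr 1
    simp only [hF, mk2, Prod.fst_sub, Prod.snd_sub]
    congr 2
    rw [show x + (k : ℝ) - t.1 = (x - t.1) + (k : ℝ) by ring, AddCircle.coe_add]
    simp
  · intro x y k
    rw [hgdef, hgdef]
    congr 1
    funext t
    congr 1
    simp only [hF, mk2, Prod.fst_sub, Prod.snd_sub]
    congr 2
    rw [show y + (k : ℝ) - t.2 = (y - t.2) + (k : ℝ) by ring, AddCircle.coe_add]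
    simp
  · intro p
    have h := φ.dist_normed_convolution_le (μ := volume) (g := F) (x₀ := p) (ε := ε)
      hFc.aestronglyMeasurable (by
        intro x hx
        rw [Real.dist_eq]
        refine (hFL x p).trans ?_
        have hx' : dist x p < ε / (L + 1) := hx
        calc L * dist x p ≤ L * (ε / (L + 1)) := mul_le_mul_of_nonneg_left hx'.le hL
          _ ≤ (L + 1) * (ε / (L + 1)) := by
              apply mul_le_mul_of_nonneg_right (by linarith) hδ.le
          _ = ε := by field_simp)
    rw [Real.dist_eq] at h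
    exact h

end Pool.Agent.Helper95.SK
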