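import Mathlib
import Pool.Agent.Helper95.SK.Loss
import Pool.Agent.Helper95.SK.Avg
import Pool.Agent.Helper95.SK.Mol

/-!
Multiple mixing for smooth observables on the plane.
-/

set_option autoImplicit false
open Real MeasureTheory Set Filter Topology

namespace Pool.Agent.Helper95.SK

open Pool.Agent.Helper78.SM (psi phi dphi abs_dphi_le Phi)


/-- the full functional -/
noncomputable def KK (a : ℝ) (g : ℕ → ℝ × ℝ → ℝ) (t : ℕ → ℕ) (k : ℕ) (c : ℕ → ℝ) : ℝ :=
  ∫ p in Pool.Agent.Helper78.SM.sq, FF a g t k c p.1 p.2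

section
variable {κ M a L : ℝ} {g : ℕ → ℝ × ℝ → ℝ} {t : ℕ → ℕ} {k : ℕ}

lemma Obs.per (h : ∀ i, Obs L (g i)) (i : ℕ) (x y : ℝ) (k l : ℤ) :
    g i (x + k, y + l) = g i (x, y) := by
  rw [(h i).per1, (h i).per2]

lemma FF_kick_int (hg : ∀ i, Obs L (g i)) (c : ℕ → ℝ) (x y : ℝ) (j : ℕ) (s : ℝ) (l : ℤ) :
    FF a g t k (Function.update c j (s + l)) x y = FF a g t k (Function.update c j s) x y := by
  unfold FF
  apply Finset.prod_congr rfl
  intro i _
  unfold st
  obtain ⟨l1, h1⟩ := xi_kick_int a c x y j s l (t i + 1)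
  obtain ⟨l2, h2⟩ := xi_kick_int a c x y j s l (t i)
  rw [h1, h2, Obs.per hg]

lemma KK_kick_int (hg : ∀ i, Obs L (g i)) (c : ℕ → ℝ) (j : ℕ) (s : ℝ) (l : ℤ) :
    KK a g t k (Function.update c j (s + l)) = KK a g t k (Function.update c j s) := by
  unfold KK
  simp only [FF_kick_int hg]

lemma FF_cont {Y : Type*} [TopologicalSpace Y] (hg : ∀ i, Obs L (g i)) {c : Y → ℕ → ℝ}
    {x y : Y → ℝ} (hc : ∀ i, Continuous (fun p => c p i)) (hx : Continuous x) (hy : Continuous y) :
    Continuous (fun p => FF a g t k (c p) (x p) (y p)) := by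
  unfold FF
  exact continuous_finsetProd _ (fun i _ => (hg i).smooth.continuous.comp (st_cont a hc hx hy _))

lemma KK_cont (hg : ∀ i, Obs L (g i)) (c : ℕ → ℝ) (j : ℕ) : Continuous (fun z : ℝ × ℝ =>
    KK a g t k (Function.update (Function.update c j z.1) (j+1) z.2)) := by
  unfold KK
  refine continuous_of_dominated (bound := fun _ => 1) ?_ ?_ ?_ ?_
  · intro z
    exact (FF_cont (a := a) (t := t) (k := k) hg
      (c := fun _ : ℝ × ℝ => Function.update (Function.update c j z.1) (j+1) z.2)
      (fun i => continuous_const) continuous_fst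
      continuous_snd).measurable.aestronglyMeasurable
  · intro z
    exact Filter.Eventually.of_forall (fun p => by
      rw [Real.norm_eq_abs]; exact abs_FF_le hg _ _ _)
  · exact integrableOn_sq measurable_const (B := 1) (fun _ => by simp)
  · refine Filter.Eventually.of_forall (fun p => ?_)
    exact FF_cont hg (c := fun z : ℝ × ℝ => Function.update (Function.update c j z.1) (j+1) z.2)
      (upd_cont (j+1) (fun i => upd_cont j (fun i => continuous_const) continuous_fst i)
        continuous_snd) continuous_const continuous_const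

lemma abs_KK_le (hg : ∀ i, Obs L (g i)) (c : ℕ → ℝ) : |KK a g t k c| ≤ 1 := by
  unfold KK
  have h := norm_setIntegral_le_of_norm_le_const (μ := volume) (s := Pool.Agent.Helper78.SM.sq) (C := 1)
    (f := fun p : ℝ × ℝ => FF a g t k c p.1 p.2) (by rw [vol_sq]; simp)
    (fun p _ => by rw [Real.norm_eq_abs]; exact abs_FF_le hg _ _ _)
  rw [Real.norm_eq_abs, Measure.real, vol_sq] at h
  simpa using h

/-- observables are close to their mean -/
lemma Obs.near_mean {g : ℝ × ℝ → ℝ} (h : Obs L g) (p : ℝ × ℝ) :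
    |g p - ∫ q in Pool.Agent.Helper78.SM.sq, g q| ≤ L := by
  have hL : 0 ≤ L := (norm_nonneg _).trans (h.lip 0)
  have hlip : ∀ p q, |g p - g q| ≤ L * ‖p - q‖ := by
    intro p q
    have := Convex.norm_image_sub_le_of_norm_fderiv_le (f := g) (C := L) (s := univ)
      (x := q) (y := p) (fun x _ => (h.smooth.differentiable one_ne_zero).differentiableAt)
      (fun x _ => h.lip x) convex_univ (mem_univ _) (mem_univ _)
    rwa [Real.norm_eq_abs] at this
  have hgi : IntegrableOn g Pool.Agent.Helper78.SM.sq :=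
    integrableOn_sq h.smooth.continuous.measurable (B := 1) h.bdd
  have hreal : (volume : Measure (ℝ × ℝ)).real Pool.Agent.Helper78.SM.sq = 1 := by
    rw [Measure.real, vol_sq]; simp
  -- reduce to the unit square
  set p' : ℝ × ℝ := (Int.fract p.1, Int.fract p.2) with hp'
  have e1 : g p = g p' := by
    have : g (Int.fract p.1 + (⌊p.1⌋ : ℤ), Int.fract p.2 + (⌊p.2⌋ : ℤ)) =
        g (Int.fract p.1, Int.fract p.2) := by
      rw [h.per1, h.per2]
    rw [Int.fract_add_floor, Int.fract_add_floor] at this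
    exact this
  rw [e1]
  have e2 : g p' - ∫ q in Pool.Agent.Helper78.SM.sq, g q = ∫ q in Pool.Agent.Helper78.SM.sq, (g p' - g q) := by
    rw [integral_sub (integrableOn_sq measurable_const (B := |g p'|) (fun _ => le_rfl)) hgi,
      setIntegral_const, hreal, one_smul]
  rw [e2]
  have h1 := norm_setIntegral_le_of_norm_le_const (μ := volume) (s := Pool.Agent.Helper78.SM.sq) (C := L)
    (f := fun q : ℝ × ℝ => g p' - g q) (by rw [vol_sq]; simp)
    (fun q hq => by
      rw [Real.norm_eq_abs]
      refine (hlip _ _).trans ?_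
      have h2 : ‖p' - q‖ ≤ 1 := by
        rw [Prod.norm_def]
        have a1 := Int.fract_nonneg p.1
        have a2 := (Int.fract_lt_one p.1).le
        have a3 := Int.fract_nonneg p.2
        have a4 := (Int.fract_lt_one p.2).le
        apply max_le
        · show |Int.fract p.1 - q.1| ≤ 1
          rw [abs_le]; constructor <;> linarith [hq.1.1, hq.1.2]
        · show |Int.fract p.2 - q.2| ≤ 1
          rw [abs_le]; constructor <;> linarith [hq.2.1, hq.2.2]
      calc L * ‖p' - q‖ ≤ L * 1 := by gcongr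
        _ = L := mul_one _)
  rw [hreal, mul_one, Real.norm_eq_abs] at h1
  exact h1

/-- invariance of Lebesgue measure -/
lemma int_st {g : ℝ × ℝ → ℝ} (hg : Continuous g)
    (per1 : ∀ (x y : ℝ) (k : ℤ), g (x + k, y) = g (x, y))
    (per2 : ∀ (x y : ℝ) (k : ℤ), g (x, y + k) = g (x, y)) (c : ℕ → ℝ) (m : ℕ) :
    ∫ p in Pool.Agent.Helper78.SM.sq, g (st a c p.1 p.2 m) = ∫ p in Pool.Agent.Helper78.SM.sq, g p := by
  induction m generalizing g with
  | zero =>
    have hc : Continuous (fun p : ℝ × ℝ => g (st a c p.1 p.2 0)) :=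
      hg.comp (st_cont a (fun i => continuous_const) continuous_fst continuous_snd 0)
    rw [sq_eq hc, sq_eq hg]
    congr 1
    funext y
    have := per_shift (f := fun x => g (x, y)) (fun x k => per1 x y k) (c 0)
    exact this
  | succ m ih =>
    have e : ∀ p : ℝ × ℝ, g (st a c p.1 p.2 (m+1)) = Tst a (c (m+1)) g (st a c p.1 p.2 m) := by
      intro p
      unfold st Tst
      rw [xi_rec]
    simp only [e]
    rw [ih (Tst_cont hg) (Tst_per1 per1 per2) (Tst_per2 per1), sq_eq (Tst_cont hg), sq_eq hg,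
      Tst_int hg per1]

end

/-- one more observable -/
theorem exists_step : ∃ C : ℝ, 0 < C ∧ ∀ (κ M a L : ℝ) (g : ℕ → ℝ × ℝ → ℝ) (t : ℕ → ℕ)
    (k m : ℕ) (c : ℕ → ℝ), 10 ≤ κ → κ ^ 2 = |a| → 16 ≤ M →
    0 ≤ L → (∀ i, Obs L (g i)) → 1 ≤ k → (∀ i, i < k → t i + m ≤ t (i+1)) →
    |KK a g t (k+1) c - KK a g t k c * ∫ p in Pool.Agent.Helper78.SM.sq, g k p| ≤
      2 * (3 * (k + 1) * L * (4 / M) ^ (m / 4) + C * (1 / κ + t k * M * Real.log |a| / |a| ^ 2)) := by
  obtain ⟨C, hC, hkick⟩ := exists_kick
  refine ⟨C, hC, ?_⟩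
  intro κ M a L g t k m c hκ hκa hM hL hg hk ht
  have hκ0 : 0 < κ := by linarith
  have ha1 : 1 ≤ |a| := by rw [← hκa]; nlinarith
  have hlog : 0 ≤ Real.log |a| := Real.log_nonneg ha1
  have hM0 : 0 < M := by linarith
  -- monotonicity of the times
  have hmono : ∀ i, i < k → t i ≤ t (k-1) := by
    have key : ∀ d i, i + d < k → t i ≤ t (i + d) := by
      intro d
      induction d with
      | zero => intro i _; exact le_rfl
      | succ d ih =>
        intro i hi
        have h1 := ih i (by omega)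
        have h2 := ht (i+d) (by omega)
        have e : i + (d+1) = i + d + 1 := by ring
        rw [e]; omega
    intro i hi
    have := key (k-1-i) i (by omega)
    rwa [show i + (k-1-i) = k-1 by omega] at this
  have hlast := ht (k-1) (by omega)
  rw [show k - 1 + 1 = k by omega] at hlast
  set p := m / 4 with hp
  set err := 3 * ((k:ℝ) + 1) * L * (4 / M) ^ p + C * (1 / κ + t k * M * Real.log |a| / |a| ^ 2)
    with herr
  have herr0 : 0 ≤ err := by positivity
  rcases Nat.lt_or_ge (t k) (t (k-1) + 2) with hsmall | hbig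
  · -- trivial case
    have hm : m ≤ 1 := by omega
    have hp0 : p = 0 := by rw [hp]; omega
    set G := ∫ p in Pool.Agent.Helper78.SM.sq, g k p with hG
    have e : KK a g t (k+1) c - KK a g t k c * G =
        ∫ p in Pool.Agent.Helper78.SM.sq, FF a g t k c p.1 p.2 * (g k (st a c p.1 p.2 (t k)) - G) := by
      unfold KK
      have hc1 : Continuous (fun p : ℝ × ℝ => FF a g t (k+1) c p.1 p.2) :=
        FF_cont hg (fun i => continuous_const) continuous_fst continuous_snd
      have hc2 : Continuous (fun p : ℝ × ℝ => FF a g t k c p.1 p.2) :=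
        FF_cont hg (fun i => continuous_const) continuous_fst continuous_snd
      rw [← integral_mul_const, ← integral_sub
        (integrableOn_sq hc1.measurable (B := 1) (fun p => abs_FF_le hg _ _ _))
        ((integrableOn_sq hc2.measurable (B := 1) (fun p => abs_FF_le hg _ _ _)).mul_const _)]
      congr 1
      funext p
      have : FF a g t (k+1) c p.1 p.2 = FF a g t k c p.1 p.2 * g k (st a c p.1 p.2 (t k)) := by
        unfold FF; rw [Finset.prod_range_succ]
      rw [this]; ring
    rw [e]
    have h1 := norm_setIntegral_le_of_norm_le_const (μ := volume) (s := Pool.Agent.Helper78.SM.sq) (C := L)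
      (f := fun p : ℝ × ℝ => FF a g t k c p.1 p.2 * (g k (st a c p.1 p.2 (t k)) - G))
      (by rw [vol_sq]; simp)
      (fun q _ => by
        rw [Real.norm_eq_abs, abs_mul]
        calc |FF a g t k c q.1 q.2| * |g k (st a c q.1 q.2 (t k)) - G| ≤ 1 * L :=
              mul_le_mul (abs_FF_le hg _ _ _) ((hg k).near_mean _) (abs_nonneg _) zero_le_one
          _ = L := one_mul _)
    rw [Real.norm_eq_abs, Measure.real, vol_sq, ENNReal.toReal_one, mul_one] at h1
    refine h1.trans ?_
    rw [herr, hp0, pow_zero, mul_one]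
    have h2 : 0 ≤ C * (1 / κ + t k * M * Real.log |a| / |a| ^ 2) := by positivity
    have h3 : (0:ℝ) ≤ k := by positivity
    nlinarith [mul_nonneg h3 hL]
  · -- the main case
    set n := t k with hn
    set j := t (k-1) + (n - t (k-1)) / 2 with hj
    have hj1 : 1 ≤ j := by omega
    have hjn : j + 1 ≤ n := by omega
    have hlt : ∀ i, i < k → t i < j := by
      intro i hi; have := hmono i hi; omega
    have hcond1 : ∀ i, i < k + 1 → (t i < j ∧ 2 * p ≤ j - t i) ∨ (t i = n ∧ 2 * p ≤ n - j + 1) := by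
      intro i hi
      rcases Nat.lt_succ_iff_lt_or_eq.1 hi with h | h
      · left
        have := hmono i h
        exact ⟨hlt i h, by omega⟩
      · right
        subst h
        exact ⟨rfl, by omega⟩
    have hcond2 : ∀ i, i < k + 1 →
        (t i < j + 1 ∧ 2 * p ≤ j + 1 - t i) ∨ (t i = n ∧ 2 * p ≤ n - (j + 1) + 1) := by
      intro i hi
      rcases Nat.lt_succ_iff_lt_or_eq.1 hi with h | h
      · left
        have := hmono i h
        have := hlt i h
        exact ⟨by omega, by omega⟩
      · right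
        subst h
        exact ⟨rfl, by omega⟩
    have hk1 : ∀ (c : ℕ → ℝ) (s0 s1 : ℝ), |KK a g t (k+1) (Function.update c j s1) -
        KK a g t (k+1) (Function.update c j s0)| ≤ err := by
      intro c s0 s1
      have hfl := Int.floor_le (s1 - s0)
      have hfl2 := Int.lt_floor_add_one (s1 - s0)
      have h1 := hkick κ M a L g t (k+1) n j p c hκ hκa hM (by omega) hj1 (by omega) hL hg hcond1
        (s0 + (⌊s1 - s0⌋ : ℤ)) s1 (by rw [abs_le]; constructor <;> linarith)
      have h2 := KK_kick_int (a := a) (t := t) (k := k+1) hg c j s0 ⌊s1 - s0⌋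
      unfold KK at h2 ⊢
      rw [h2] at h1
      push_cast at h1
      exact h1
    have hk2 : ∀ (c : ℕ → ℝ) (s0 s1 : ℝ), |KK a g t (k+1) (Function.update c (j+1) s1) -
        KK a g t (k+1) (Function.update c (j+1) s0)| ≤ err := by
      intro c s0 s1
      have hfl := Int.floor_le (s1 - s0)
      have hfl2 := Int.lt_floor_add_one (s1 - s0)
      have h1 := hkick κ M a L g t (k+1) n (j+1) p c hκ hκa hM (by omega) (by omega) hjn hL hg
        hcond2 (s0 + (⌊s1 - s0⌋ : ℤ)) s1 (by rw [abs_le]; constructor <;> linarith)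
      have h2 := KK_kick_int (a := a) (t := t) (k := k+1) hg c (j+1) s0 ⌊s1 - s0⌋
      unfold KK at h2 ⊢
      rw [h2] at h1
      push_cast at h1
      exact h1
    have hboth : ∀ s u : ℝ, |KK a g t (k+1) c -
        KK a g t (k+1) (Function.update (Function.update c j s) (j+1) u)| ≤ 2 * err := by
      intro s u
      have h1 := hk1 c (c j) s
      rw [Function.update_eq_self] at h1
      have h2 := hk2 (Function.update c j s) (Function.update c j s (j+1)) u
      rw [Function.update_eq_self] at h2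
      rw [abs_le] at h1 h2 ⊢
      constructor <;> linarith [h1.1, h1.2, h2.1, h2.2]
    have havg := avg_FF (a := a) hg c hj1 hlt hjn
    set A := KK a g t (k+1) c with hA
    set G : ℝ → ℝ → ℝ := fun s u =>
      KK a g t (k+1) (Function.update (Function.update c j s) (j+1) u) with hGdef
    have hGc : Continuous (Function.uncurry G) := KK_cont hg c j
    have hG1 : ∀ s, Continuous (G s) := fun s =>
      hGc.comp (show Continuous (fun u : ℝ => ((s, u) : ℝ × ℝ)) by fun_prop)
    have hG2 : Continuous (fun s => ∫ u in (0:ℝ)..1, G s u) :=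
      intervalIntegral.continuous_parametric_intervalIntegral_of_continuous' hGc 0 1
    have e1 : A - KK a g t k c * ∫ p in Pool.Agent.Helper78.SM.sq, g k p =
        ∫ s in (0:ℝ)..1, (A - ∫ u in (0:ℝ)..1, G s u) := by
      rw [intervalIntegral.integral_sub (by simp) (hG2.intervalIntegrable _ _)]
      have : ∫ s in (0:ℝ)..1, ∫ u in (0:ℝ)..1, G s u = KK a g t k c * ∫ p in Pool.Agent.Helper78.SM.sq, g k p := havg
      rw [this]; simp
    have h3 : ∀ s, |A - ∫ u in (0:ℝ)..1, G s u| ≤ 2 * err := by
      intro s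
      have e2 : A - ∫ u in (0:ℝ)..1, G s u = ∫ u in (0:ℝ)..1, (A - G s u) := by
        rw [intervalIntegral.integral_sub (by simp) ((hG1 s).intervalIntegrable _ _)]
        simp
      rw [e2]
      have := intervalIntegral.norm_integral_le_of_norm_le_const (a := (0:ℝ)) (b := 1)
        (C := 2 * err) (f := fun u => A - G s u)
        (fun u _ => by rw [Real.norm_eq_abs]; exact hboth s u)
      simpa using this
    rw [e1]
    have := intervalIntegral.norm_integral_le_of_norm_le_const (a := (0:ℝ)) (b := 1)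
      (C := 2 * err) (f := fun s => A - ∫ u in (0:ℝ)..1, G s u)
      (fun s _ => by rw [Real.norm_eq_abs]; exact h3 s)
    simpa using this

lemma abs_mean_le {L : ℝ} {g : ℝ × ℝ → ℝ} (h : Obs L g) : |∫ p in Pool.Agent.Helper78.SM.sq, g p| ≤ 1 := by
  have h1 := norm_setIntegral_le_of_norm_le_const (μ := volume) (s := Pool.Agent.Helper78.SM.sq) (C := 1)
    (f := g) (by rw [vol_sq]; simp) (fun p _ => by rw [Real.norm_eq_abs]; exact h.bdd p)
  rw [Real.norm_eq_abs, Measure.real, vol_sq] at h1
  simpa using h1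

/-- multiple mixing, smooth observables -/
theorem exists_multi : ∃ C : ℝ, 0 < C ∧ ∀ (κ M a L : ℝ) (g : ℕ → ℝ × ℝ → ℝ) (t : ℕ → ℕ)
    (k m : ℕ) (c : ℕ → ℝ), 10 ≤ κ → κ ^ 2 = |a| → 16 ≤ M →
    0 ≤ L → (∀ i, Obs L (g i)) → (∀ i, i < k → t i + m ≤ t (i+1)) →
    |KK a g t (k+1) c - ∏ i ∈ Finset.range (k+1), ∫ p in Pool.Agent.Helper78.SM.sq, g i p| ≤
      C * k * (1 / κ + t k * M * Real.log |a| / |a| ^ 2 + k * L * (4 / M) ^ (m / 4)) := by
  obtain ⟨C, hC, hstep⟩ := exists_step
  refine ⟨2 * C + 12, by positivity, ?_⟩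
  intro κ M a L g t k m c hκ hκa hM hL hg
  have hκ0 : 0 < κ := by linarith
  have ha1 : 1 ≤ |a| := by rw [← hκa]; nlinarith
  have hlog : 0 ≤ Real.log |a| := Real.log_nonneg ha1
  have hM0 : 0 < M := by linarith
  induction k with
  | zero =>
    intro _
    have e : KK a g t (0+1) c = ∏ i ∈ Finset.range (0+1), ∫ p in Pool.Agent.Helper78.SM.sq, g i p := by
      unfold KK FF
      simp only [zero_add, Finset.prod_range_one]
      exact int_st (hg 0).smooth.continuous (hg 0).per1 (hg 0).per2 c (t 0)
    rw [e, sub_self, abs_zero]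
    simp
  | succ k ih =>
    intro ht
    have ih' := ih (fun i hi => ht i (by omega))
    have hs := hstep κ M a L g t (k+1) m c hκ hκa hM hL hg (by omega) ht
    have htk : (t k : ℝ) ≤ t (k+1) := by
      have := ht k (by omega)
      exact_mod_cast (by omega : t k ≤ t (k+1))
    have hmean := abs_mean_le (hg (k+1))
    rw [Finset.prod_range_succ]
    set P := ∏ i ∈ Finset.range (k+1), ∫ p in Pool.Agent.Helper78.SM.sq, g i p
    set K1 := KK a g t (k+1) c
    set K2 := KK a g t (k+1+1) c
    set G := ∫ p in Pool.Agent.Helper78.SM.sq, g (k+1) p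
    have h1 : |K2 - P * G| ≤ |K2 - K1 * G| + |K1 - P| := by
      have e : K2 - P * G = (K2 - K1 * G) + (K1 - P) * G := by ring
      rw [e]
      refine (abs_add_le _ _).trans ?_
      rw [abs_mul]
      have := mul_le_mul_of_nonneg_left hmean (abs_nonneg (K1 - P))
      linarith
    refine h1.trans ?_
    set X := (4 / M) ^ (m / 4) with hX
    have hX0 : 0 ≤ X := by positivity
    set W0 := (t k : ℝ) * M * Real.log |a| / |a| ^ 2 with hW0
    set W1 := (t (k+1) : ℝ) * M * Real.log |a| / |a| ^ 2 with hW1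
    have hW : W0 ≤ W1 := by rw [hW0, hW1]; gcongr
    have hW00 : 0 ≤ W0 := by positivity
    have h1κ : 0 < 1 / κ := by positivity
    have hk0 : (0:ℝ) ≤ k := by positivity
    have hLX : 0 ≤ L * X := by positivity
    push_cast at hs ⊢
    have b1 : (2 * C + 12) * k * (1 / κ + W0 + k * L * X) ≤
        (2 * C + 12) * k * (1 / κ + W1 + (k + 1) * L * X) := by
      have : (k:ℝ) * L * X ≤ (k + 1) * L * X := by nlinarith
      gcongr
    have b2 : 2 * (3 * ((k:ℝ) + 1 + 1) * L * X + C * (1 / κ + W1)) ≤
        (2 * C + 12) * (1 / κ + W1 + (k + 1) * L * X) := by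
      have c1 : 0 ≤ C * ((k:ℝ) * (L * X)) := by positivity
      have c2 : 0 ≤ C * (L * X) := by positivity
      have c3 : 0 ≤ (k:ℝ) * (L * X) := by positivity
      nlinarith
    calc |K2 - K1 * G| + |K1 - P| ≤ 2 * (3 * ((k:ℝ) + 1 + 1) * L * X + C * (1 / κ + W1)) +
          (2 * C + 12) * k * (1 / κ + W0 + k * L * X) := add_le_add hs ih'
      _ ≤ (2 * C + 12) * (1 / κ + W1 + (k + 1) * L * X) +
          (2 * C + 12) * k * (1 / κ + W1 + (k + 1) * L * X) := add_le_add b2 b1
      _ = (2 * C + 12) * (k + 1) * (1 / κ + W1 + (k + 1) * L * X) := by ring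

end Pool.Agent.Helper95.SK
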