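import Mathlib
import Pool.Agent.Helper53.SM.ErgC

/-!
From decay of correlations to eigenfunctions at small scales. Block SK-WK: prove `weak_num`.

Proof: put `A = |a|`, `x = τ * log A / A ^ 2`. If `1 ≤ x` the bound is trivial (left side `≤ 2`).
Otherwise take `N = ⌈x ^ (-1/2)⌉₊ ≤ 2 x ^ (-1/2)`, `m = ⌈τ + log A⌉₊ ≤ 2 τ + log A` and apply
`Pool.Agent.Helper53.SM.eig_bound` with the times `j * (4 * m)`, `1 ≤ j < N`:
* `4 / N ≤ 4 x ^ (1/2)`,
* `exp τ * (1/4) ^ (j * m) ≤ exp τ * exp (-(τ + log A)) ≤ A ^ (-1/2)`,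
* `(N * 4 m) log A / A ^ 2 ≤ 16 x ^ (1/2) + 8 x ^ (-1/2) (log A) ^ 2 / A ^ 2` and, as `x ≥ log A / A ^ 2`,
  the last term is at most `8 (log A) ^ (3/2) / A ≤ 48 A ^ (-1/2)`.
The total is at most `C (50 A ^ (-1/2) + 20 x ^ (1/2))`; take the square root.
See `Pool/Agent/Helper53/SM/FinalC.lean` (`scale_eig_h`) for a very similar proof, and
`Pool/Agent/Results/MP_9ee088_an/ScaleWeakMixing.lean` for the trivial bound `≤ 2`.
-/

set_option autoImplicit false
open Real MeasureTheory Set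

namespace Pool.Agent.Helper95.SK

open Pool.Agent.Helper53.SM (T2 IsStd)

private lemma h36_trivial {h : T2 → ℂ} {f : T2 → ℝ} (hh1 : ∀ p, ‖h p‖ ≤ 1)
    (hf1 : ∀ p, |f p| ≤ 1) :
    ‖(∫ p, h p * (f p : ℂ)) - (∫ p, h p) * ((∫ p, f p : ℝ) : ℂ)‖ ≤ 2 := by
  have b1 := norm_integral_le_of_norm_le_const (μ := (volume : Measure T2))
    (f := fun p => h p * (f p : ℂ)) (C := 1) (Filter.Eventually.of_forall (fun p => by
      rw [norm_mul, Complex.norm_real, Real.norm_eq_abs]
      calc _ ≤ (1:ℝ) * 1 := mul_le_mul (hh1 _) (hf1 _) (abs_nonneg _) (by norm_num)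
        _ = 1 := by norm_num))
  have b2 := norm_integral_le_of_norm_le_const (μ := (volume : Measure T2))
    (f := h) (C := 1) (Filter.Eventually.of_forall hh1)
  have b3 := norm_integral_le_of_norm_le_const (μ := (volume : Measure T2))
    (f := f) (C := 1) (Filter.Eventually.of_forall (fun p => by
      rw [Real.norm_eq_abs]; exact hf1 p))
  simp only [probReal_univ, mul_one] at b1 b2 b3
  have b4 : ‖(∫ p, h p) * ((∫ p, f p : ℝ) : ℂ)‖ ≤ 1 := by
    rw [norm_mul, Complex.norm_real]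
    calc _ ≤ (1:ℝ) * 1 := mul_le_mul b2 b3 (norm_nonneg _) (by norm_num)
      _ = 1 := by norm_num
  have := norm_sub_le (∫ p, h p * (f p : ℂ)) ((∫ p, h p) * ((∫ p, f p : ℝ) : ℂ))
  linarith

theorem weak_num {a C τ : ℝ} (ha : 2 ≤ |a|) (hC : 1 ≤ C) (hτ : 1 ≤ τ) {T : T2 → T2}
    (hT : IsStd a T) {ξ : ℂ} (hξ : ‖ξ‖ = 1) {h : T2 → ℂ} {f : T2 → ℝ} (hh : Measurable h)
    (hh1 : ∀ p, ‖h p‖ ≤ 1) (hinv : h ∘ T =ᵐ[volume] fun p => ξ * h p) (hf1 : ∀ p, |f p| ≤ 1)
    (hfc : Continuous f)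
    (hmix : ∀ n : ℕ, 1 ≤ n → |(∫ p, f p * f (T^[n] p)) - (∫ p, f p) * ∫ p, f p| ≤
      C * (|a| ^ (-(1:ℝ)/2) + n * Real.log |a| / |a| ^ 2 + Real.exp τ * (1 / 4) ^ (n / 4))) :
    ‖(∫ p, h p * (f p : ℂ)) - (∫ p, h p) * ((∫ p, f p : ℝ) : ℂ)‖ ≤
      10 * C * (|a| ^ (-(1:ℝ)/4) + (τ * Real.log |a| / |a| ^ 2) ^ ((1:ℝ)/4)) := by
  set A := |a| with hA
  set L := Real.log A with hL
  have hA0 : 0 < A := by linarith
  have hL0 : 0 < L := Real.log_pos (by linarith)
  have hC0 : 0 < C := by linarith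
  have hτ0 : 0 < τ := by linarith
  set x := τ * L / A ^ 2 with hx
  have hx0 : 0 < x := by positivity
  set u := A ^ (-(1:ℝ)/4) with hu
  set v := x ^ ((1:ℝ)/4) with hv
  have hu0 : 0 < u := Real.rpow_pos_of_pos hA0 _
  have hv0 : 0 < v := Real.rpow_pos_of_pos hx0 _
  have hu2 : A ^ (-(1:ℝ)/2) = u ^ 2 := by
    rw [hu, ← Real.rpow_natCast, ← Real.rpow_mul hA0.le]; norm_num
  have hu4 : u ^ 4 = 1 / A := by
    rw [hu, ← Real.rpow_natCast, ← Real.rpow_mul hA0.le]
    norm_num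
    exact Real.rpow_neg_one A
  have hv4 : v ^ 4 = x := by
    rw [hv, ← Real.rpow_natCast, ← Real.rpow_mul hx0.le]; norm_num
  rcases le_or_gt 1 x with h1 | h1
  · have hv1 : 1 ≤ v := Real.one_le_rpow h1 (by norm_num)
    have := h36_trivial hh1 hf1
    nlinarith [mul_pos hC0 hu0, mul_le_mul hC hv1 (by norm_num) hC0.le]
  · -- the main case
    set y := v ^ 2 with hy
    have hy0 : 0 < y := by positivity
    have hy2 : y ^ 2 = x := by rw [hy, ← pow_mul]; exact hv4
    have hy1 : y < 1 := by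
      by_contra hcon
      push Not at hcon
      have : 1 ≤ y ^ 2 := one_le_pow₀ hcon
      linarith
    set N : ℕ := ⌈1 / y⌉₊ with hN
    set m : ℕ := ⌈τ + L⌉₊ with hm
    have hy1' : 1 ≤ 1 / y := by rw [le_div_iff₀ hy0]; linarith
    have hNpos : 0 < N := Nat.ceil_pos.2 (by linarith)
    have hN1 : 1 / y ≤ N := Nat.le_ceil _
    have hN2 : (N:ℝ) ≤ 2 / y := by
      have := Nat.ceil_lt_add_one (by linarith : 0 ≤ 1 / y)
      rw [← hN] at this
      have e : 2 / y = 1 / y + 1 / y := by ring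
      linarith
    have hm1 : τ + L ≤ m := Nat.le_ceil _
    have hm2 : (m:ℝ) ≤ 2 * τ + L := by
      have := Nat.ceil_lt_add_one (by linarith : 0 ≤ τ + L)
      rw [← hm] at this
      linarith
    have hmpos : 1 ≤ m := by
      have : 0 < m := Nat.ceil_pos.2 (by linarith)
      omega
    -- `L ^ 3 ≤ 27 A`
    have hL3 : L ^ 3 ≤ 27 * A := by
      have h3 := Real.log_le_rpow_div hA0.le (ε := 1 / 3) (by norm_num)
      rw [← hL] at h3
      have h4 : (A ^ ((1:ℝ)/3)) ^ 3 = A := by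
        rw [← Real.rpow_natCast, ← Real.rpow_mul hA0.le]; norm_num
      calc L ^ 3 ≤ (A ^ ((1:ℝ)/3) / (1/3)) ^ 3 := pow_le_pow_left₀ hL0.le h3 3
        _ = 27 * (A ^ ((1:ℝ)/3)) ^ 3 := by ring
        _ = 27 * A := by rw [h4]
    have hquot : L ^ 2 / (A ^ 2 * y) ≤ 6 * u ^ 2 := by
      have hsq : (L ^ 2 / (A ^ 2 * y)) ^ 2 ≤ (6 * u ^ 2) ^ 2 := by
        have e1 : (L ^ 2 / (A ^ 2 * y)) ^ 2 = L ^ 3 / (A ^ 2 * τ) := by
          rw [div_pow, mul_pow, hy2, hx]
          field_simp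
        have e2 : (6 * u ^ 2) ^ 2 = 36 / A := by
          have : (6 * u ^ 2) ^ 2 = 36 * u ^ 4 := by ring
          rw [this, hu4]; ring
        rw [e1, e2, div_le_div_iff₀ (by positivity) hA0]
        have : 36 * (A ^ 2 * τ) ≥ 36 * A ^ 2 := by nlinarith [sq_nonneg A]
        nlinarith
      have := abs_le_of_sq_le_sq hsq (by positivity)
      exact (le_abs_self _).trans this
    set E : ℝ := C * (50 * u ^ 2 + 16 * y) with hE
    have hE0 : 0 ≤ E := by positivity
    have hcor : ∀ j, 1 ≤ j → j < N →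
        |(∫ p, f p * f (T^[j * (4 * m)] p)) - (∫ p, f p) * ∫ p, f p| ≤ E := by
      intro j hj1 hjN
      refine (hmix (j * (4 * m)) (Nat.mul_pos hj1 (by omega))).trans ?_
      rw [hE, hu2]
      apply mul_le_mul_of_nonneg_left _ hC0.le
      have e0 : j * (4 * m) / 4 = j * m := by
        rw [show j * (4 * m) = j * m * 4 by ring, Nat.mul_div_cancel _ (by norm_num)]
      rw [e0]
      have hjm : m ≤ j * m := Nat.le_mul_of_pos_left m hj1
      have p1 : ((1:ℝ) / 4) ^ (j * m) ≤ Real.exp (-(τ + L)) := by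
        calc ((1:ℝ) / 4) ^ (j * m) ≤ (1 / 4) ^ m :=
              pow_le_pow_of_le_one (by norm_num) (by norm_num) hjm
          _ ≤ (Real.exp (-1)) ^ m := by
              apply pow_le_pow_left₀ (by norm_num)
              rw [Real.exp_neg, one_div]
              apply inv_anti₀ (Real.exp_pos _)
              have := Real.exp_one_lt_d9
              linarith
          _ = Real.exp (-(m:ℝ)) := by rw [← Real.exp_nat_mul]; ring_nf
          _ ≤ _ := Real.exp_le_exp.2 (by linarith)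
      have p2 : Real.exp τ * ((1:ℝ) / 4) ^ (j * m) ≤ u ^ 2 := by
        calc Real.exp τ * ((1:ℝ) / 4) ^ (j * m) ≤ Real.exp τ * Real.exp (-(τ + L)) := by gcongr
          _ = Real.exp (-L) := by rw [← Real.exp_add]; ring_nf
          _ = 1 / A := by rw [Real.exp_neg, hL, Real.exp_log hA0, one_div]
          _ ≤ u ^ 2 := by
              rw [← hu4]
              have hu1 : u ≤ 1 := by
                rw [hu]
                exact Real.rpow_le_one_of_one_le_of_nonpos (by linarith) (by norm_num)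
              have : u ^ 4 = u ^ 2 * u ^ 2 := by ring
              rw [this]
              have h5 : u ^ 2 ≤ 1 := pow_le_one₀ hu0.le hu1
              nlinarith [sq_nonneg u]
      have hjN' : (j:ℝ) ≤ N := by exact_mod_cast hjN.le
      have p3 : ((j * (4 * m) : ℕ) : ℝ) * L / A ^ 2 ≤ 16 * y + 48 * u ^ 2 := by
        have c1 : ((j * (4 * m) : ℕ) : ℝ) ≤ (2 / y) * (4 * (2 * τ + L)) := by
          push_cast
          have : (0:ℝ) ≤ m := by positivity
          have h6 : (j:ℝ) ≤ 2 / y := hjN'.trans hN2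
          gcongr
        calc ((j * (4 * m) : ℕ) : ℝ) * L / A ^ 2
            ≤ ((2 / y) * (4 * (2 * τ + L))) * L / A ^ 2 := by gcongr
          _ = 16 * (x / y) + 8 * (L ^ 2 / (A ^ 2 * y)) := by
              rw [hx]; field_simp; ring
          _ = 16 * y + 8 * (L ^ 2 / (A ^ 2 * y)) := by
              have : x / y = y := by rw [← hy2]; field_simp
              rw [this]
          _ ≤ 16 * y + 48 * u ^ 2 := by linarith
      linarith
    have hmain := Pool.Agent.Helper53.SM.eig_bound hT.continuous hT.measurePreserving hξ hh hh1 hinv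
      hfc.measurable hf1 hNpos hE0 hcor
    have t1 : 4 / (N:ℝ) ≤ 4 * y := by
      have hNr : (0:ℝ) < N := by exact_mod_cast hNpos
      rw [div_le_iff₀ hNr]
      rw [div_le_iff₀ hy0] at hN1
      linarith
    have hfin : ‖(∫ p, h p * (f p : ℂ)) - (∫ p, h p) * ((∫ p, f p : ℝ) : ℂ)‖ ^ 2 ≤
        (10 * C * (u + v)) ^ 2 := by
      refine hmain.trans ?_
      rw [hE]
      have h7 : (10 * C * (u + v)) ^ 2 = 100 * C ^ 2 * (u ^ 2 + y + 2 * u * v) := by
        rw [hy]; ring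
      rw [h7]
      have h8 : C ≤ C ^ 2 := by nlinarith
      have h9 : 0 < u * v := mul_pos hu0 hv0
      have h10 : 0 < u ^ 2 := by positivity
      calc 4 / (N:ℝ) + C * (50 * u ^ 2 + 16 * y) ≤ 4 * y + C * (50 * u ^ 2 + 16 * y) := by linarith
        _ ≤ C * (50 * u ^ 2 + 20 * y) := by nlinarith
        _ ≤ C ^ 2 * (50 * u ^ 2 + 20 * y) := by gcongr
        _ ≤ 100 * C ^ 2 * (u ^ 2 + y + 2 * u * v) := by
            have : 0 < C ^ 2 := by positivity
            nlinarith [mul_pos this h10, mul_pos this hy0, mul_pos this h9]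
    have := abs_le_of_sq_le_sq hfin (by positivity)
    rwa [abs_norm] at this

end Pool.Agent.Helper95.SK
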