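import Mathlib
import Pool.Agent.Helper95.SK.Mix
import Pool.Agent.Helper95.SK.Weak

/-!
The final statements on the torus.
-/

set_option autoImplicit false
open Real MeasureTheory Set Filter Topology

namespace Pool.Agent.Helper95.SK

open Pool.Agent.Helper53.SM (T2 IsStd)
open Pool.Agent.Helper78.SM (psi phi mk2 mp_mk2)


attribute [local instance] Pool.Agent.Helper53.SM.instProbU Pool.Agent.Helper53.SM.instProbT2

lemma abs_prod_sub_prod_le' (k : ℕ) {u v : ℕ → ℝ} (hu : ∀ i, |u i| ≤ 1) (hv : ∀ i, |v i| ≤ 1)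
    {ε : ℝ} (h : ∀ i, |u i - v i| ≤ ε) :
    |∏ i ∈ Finset.range k, u i - ∏ i ∈ Finset.range k, v i| ≤ k * ε := by
  induction k with
  | zero => simp
  | succ k ih =>
    rw [Finset.prod_range_succ, Finset.prod_range_succ]
    have hp : |∏ i ∈ Finset.range k, v i| ≤ 1 := by
      rw [Finset.abs_prod]
      exact Finset.prod_le_one (fun _ _ => abs_nonneg _) (fun i _ => hv i)
    set A := ∏ i ∈ Finset.range k, u i
    set B := ∏ i ∈ Finset.range k, v i
    have e : A * u k - B * v k = (A - B) * u k + B * (u k - v k) := by ring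
    rw [e]
    refine (abs_add_le _ _).trans ?_
    rw [abs_mul, abs_mul]
    have h1 : |A - B| * |u k| ≤ (k * ε) * 1 :=
      mul_le_mul ih (hu k) (abs_nonneg _) ((abs_nonneg _).trans ih)
    have h2 : |B| * |u k - v k| ≤ 1 * ε := mul_le_mul hp (h k) (abs_nonneg _) zero_le_one
    push_cast
    linarith

lemma mk2_add (p q : ℝ × ℝ) : mk2 (p + q) = mk2 p + mk2 q := by
  unfold mk2
  simp

lemma mk2_surj (w : T2) : ∃ p : ℝ × ℝ, mk2 p = w := by
  obtain ⟨x, y⟩ := w
  obtain ⟨x', hx⟩ := QuotientAddGroup.mk_surjective x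
  obtain ⟨y', hy⟩ := QuotientAddGroup.mk_surjective y
  exact ⟨(x', y'), by unfold mk2; exact Prod.ext hx hy⟩

/-- reduction of translated compositions to kicked orbits -/
lemma exists_kicks {a : ℝ} {T : T2 → T2} (hT : IsStd a T) {P : ℕ → T2 → T2} {w : ℕ → T2}
    (hP0 : ∀ p, P 0 p = p) (hP : ∀ n p, P (n+1) p = T (P n p) + w n) :
    ∃ (c o : ℕ → ℝ), ∀ (n : ℕ) (x y : ℝ), P n (mk2 (x, y)) = mk2 (st a c x y n + (0, o n)) := by
  choose r hr using fun n => mk2_surj (w n)
  set o : ℕ → ℝ := fun n => match n with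
    | 0 => 0
    | m + 1 => (r m).2 with ho
  set c : ℕ → ℝ := fun n => match n with
    | 0 => 0
    | m + 1 => (r m).1 - o m with hc
  refine ⟨c, o, ?_⟩
  intro n
  induction n with
  | zero =>
    intro x y
    rw [hP0]
    have : st a c x y 0 + (0, o 0) = (x, y) := by
      simp [st, xi, hc, ho]
    rw [this]
  | succ n ih =>
    intro x y
    rw [hP, ih, Pool.Agent.Helper78.SM.mk2_F hT, ← hr n, ← mk2_add]
    congr 1
    unfold st Pool.Agent.Helper78.SM.F
    rw [xi_rec]
    have hc1 : c (n+1) = (r n).1 - o n := rfl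
    have ho1 : o (n+1) = (r n).2 := rfl
    rw [hc1, ho1]
    ext
    · simp only [Prod.fst_add, Prod.snd_add, psi, add_zero]
      ring
    · simp only [Prod.fst_add, Prod.snd_add, psi, add_zero]

lemma Obs.shift {L : ℝ} {g : ℝ × ℝ → ℝ} (h : Obs L g) (v : ℝ) : Obs L (fun p => g (p + (0, v))) := by
  refine ⟨?_, fun p => h.bdd _, ?_, ?_, ?_⟩
  · exact h.smooth.comp (contDiff_id.add contDiff_const)
  · intro p
    have : fderiv ℝ (fun p => g (p + (0, v))) p = fderiv ℝ g (p + (0, v)) :=
      fderiv_comp_add_right (0, v)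
    rw [this]
    exact h.lip _
  · intro x y k
    have := h.per1 x (y + v) k
    simpa using this
  · intro x y k
    have := h.per2 x (y + v) k
    have e : ((x, y + (k:ℝ)) : ℝ × ℝ) + (0, v) = (x, (y + v) + k) := by
      ext
      · simp
      · simp only [Prod.snd_add]; ring
    have e2 : ((x, y) : ℝ × ℝ) + (0, v) = (x, y + v) := by ext <;> simp
    rw [e, e2, this]

lemma Obs.int_shift {L : ℝ} {g : ℝ × ℝ → ℝ} (h : Obs L g) (v : ℝ) :
    ∫ p in Pool.Agent.Helper78.SM.sq, g (p + (0, v)) = ∫ p in Pool.Agent.Helper78.SM.sq, g p := by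
  rw [sq_eq (h.shift v).smooth.continuous, sq_eq h.smooth.continuous]
  have h1 := per_shift (f := fun y => ∫ x in (0:ℝ)..1, g (x, y)) (by
    intro y k
    congr 1
    funext x
    exact h.per2 x y k) v
  rw [← h1]
  congr 1
  funext y
  congr 1
  funext x
  congr 1
  ext <;> simp

/-- integral over the torus -/
lemma int_T2 {F : T2 → ℝ} (hF : Continuous F) : ∫ p, F p = ∫ p in Pool.Agent.Helper78.SM.sq, F (mk2 p) := by
  have h := integral_map (μ := (volume : Measure (ℝ × ℝ)).restrict Pool.Agent.Helper78.SM.sq) (φ := mk2)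
    mp_mk2.measurable.aemeasurable (f := F) hF.measurable.aestronglyMeasurable
  have h3 : Measure.map mk2 ((volume : Measure (ℝ × ℝ)).restrict Pool.Agent.Helper78.SM.sq) = (volume : Measure T2) :=
    mp_mk2.map_eq
  rw [h3] at h
  exact h

lemma cont_mk2 : Continuous mk2 := by
  unfold mk2
  have hc : Continuous ((↑) : ℝ → UnitAddCircle) := AddCircle.continuous_mk' 1
  exact (hc.comp continuous_fst).prodMk (hc.comp continuous_snd)

lemma sq_diff {F G : ℝ × ℝ → ℝ} (hF : Measurable F) (hG : Measurable G) (hF1 : ∀ p, |F p| ≤ 1)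
    (hG1 : ∀ p, |G p| ≤ 1) {ε : ℝ} (h : ∀ p, |F p - G p| ≤ ε) :
    |(∫ p in Pool.Agent.Helper78.SM.sq, F p) - ∫ p in Pool.Agent.Helper78.SM.sq, G p| ≤ ε := by
  rw [← integral_sub (integrableOn_sq hF hF1) (integrableOn_sq hG hG1)]
  have h1 := norm_setIntegral_le_of_norm_le_const (μ := volume) (s := Pool.Agent.Helper78.SM.sq) (C := ε)
    (f := fun p => F p - G p) (by rw [vol_sq]; simp) (fun p _ => by rw [Real.norm_eq_abs]; exact h p)
  rw [Real.norm_eq_abs, Measure.real, vol_sq] at h1
  simpa using h1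

/-- multiple mixing for translated compositions of the standard map -/
theorem multiple_mixing : ∃ C : ℝ, 0 < C ∧ ∀ a : ℝ, 2 ≤ |a| → ∀ T : T2 → T2, IsStd a T →
    ∀ (P : ℕ → T2 → T2) (w : ℕ → T2), (∀ p, P 0 p = p) → (∀ n p, P (n+1) p = T (P n p) + w n) →
    ∀ (k m : ℕ) (t : ℕ → ℕ), (∀ i, i < k → t i + m ≤ t (i+1)) →
    ∀ (f : ℕ → T2 → ℝ) (L : ℝ), 0 ≤ L → (∀ i p, |f i p| ≤ 1) →
      (∀ i p q, |f i p - f i q| ≤ L * dist p q) →
    ∀ B : ℝ, 4 ≤ B →
    |(∫ p, ∏ i ∈ Finset.range (k+1), f i (P (t i) p)) -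
        ∏ i ∈ Finset.range (k+1), ∫ p, f i p| ≤
      C * k * (|a| ^ (-(1:ℝ)/2) + t k * B * Real.log |a| / |a| ^ 2 + k * L * (1 / B) ^ (m / 4)) := by
  obtain ⟨C, hC, hmulti⟩ := exists_multi
  refine ⟨4 * C + 20, by positivity, ?_⟩
  intro a ha T hT P w hP0 hP k m t ht f L hL hf1 hfL B hB
  have ha0 : 0 < |a| := by linarith
  have hlog : 0 ≤ Real.log |a| := Real.log_nonneg (by linarith)
  have hB0 : 0 < B := by linarith
  have hfc : ∀ i, Continuous (f i) := by
    intro i
    refine LipschitzWith.continuous (K := L.toNNReal) (LipschitzWith.of_dist_le_mul ?_)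
    intro p q
    rw [Real.dist_eq, Real.coe_toNNReal _ hL]
    exact hfL i p q
  have hPc : ∀ n, Continuous (P n) := by
    intro n
    induction n with
    | zero =>
      have : P 0 = id := funext hP0
      rw [this]; exact continuous_id
    | succ n ih =>
      have : P (n+1) = fun p => T (P n p) + w n := funext (hP n)
      rw [this]; exact (hT.continuous.comp ih).add continuous_const
  have hFc : Continuous (fun p => ∏ i ∈ Finset.range (k+1), f i (P (t i) p)) :=
    continuous_finsetProd _ (fun i _ => (hfc i).comp (hPc _))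
  have hprod1 : ∀ (u : ℕ → ℝ), (∀ i, |u i| ≤ 1) → |∏ i ∈ Finset.range (k+1), u i| ≤ 1 := by
    intro u hu
    rw [Finset.abs_prod]
    exact Finset.prod_le_one (fun _ _ => abs_nonneg _) (fun i _ => hu i)
  have hint1 : ∀ i, |∫ p, f i p| ≤ 1 := by
    intro i
    have := norm_integral_le_of_norm_le_const (μ := (volume : Measure T2)) (f := f i) (C := 1)
      (Filter.Eventually.of_forall (fun p => by rw [Real.norm_eq_abs]; exact hf1 i p))
    simpa using this
  rcases Nat.eq_zero_or_pos k with rfl | hk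
  · -- a single observable
    have e : ∫ p, ∏ i ∈ Finset.range (0+1), f i (P (t i) p) =
        ∏ i ∈ Finset.range (0+1), ∫ p, f i p := by
      simp only [zero_add, Finset.prod_range_one]
      have hmp : ∀ n, MeasurePreserving (P n) (volume : Measure T2) volume := by
        intro n
        induction n with
        | zero =>
          have : P 0 = id := funext hP0
          rw [this]; exact MeasurePreserving.id _
        | succ n ih =>
          have : P (n+1) = (fun q => q + w n) ∘ (T ∘ P n) := funext (hP n)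
          rw [this]
          have hw : MeasurePreserving (fun q : T2 => q + w n) (volume : Measure T2) volume :=
            (measurePreserving_add_right (volume : Measure UnitAddCircle) (w n).1).prod
              (measurePreserving_add_right (volume : Measure UnitAddCircle) (w n).2)
          exact hw.comp (hT.measurePreserving.comp ih)
      exact Pool.Agent.Helper53.SM.comp_int (hmp (t 0)) (hfc 0).measurable
    rw [e, sub_self, abs_zero]
    simp
  · have hk1 : (1:ℝ) ≤ k := by exact_mod_cast hk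
    set X := (t k : ℝ) * B * Real.log |a| / |a| ^ 2 with hX
    have hX0 : 0 ≤ X := by positivity
    set Z := (k:ℝ) * L * (1 / B) ^ (m / 4) with hZ
    have hZ0 : 0 ≤ Z := by positivity
    rcases lt_or_ge |a| 100 with hsmall | hbig
    · -- trivial bound
      have b1 : |∫ p, ∏ i ∈ Finset.range (k+1), f i (P (t i) p)| ≤ 1 := by
        have := norm_integral_le_of_norm_le_const (μ := (volume : Measure T2))
          (f := fun p => ∏ i ∈ Finset.range (k+1), f i (P (t i) p)) (C := 1)
          (Filter.Eventually.of_forall (fun p => by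
            rw [Real.norm_eq_abs]; exact hprod1 _ (fun i => hf1 i _)))
        simpa using this
      have b2 := hprod1 (fun i => ∫ p, f i p) hint1
      have b3 := abs_sub (∫ p, ∏ i ∈ Finset.range (k+1), f i (P (t i) p))
        (∏ i ∈ Finset.range (k+1), ∫ p, f i p)
      have b4 : (1:ℝ) / 10 ≤ |a| ^ (-(1:ℝ)/2) := by
        have e1 : (100:ℝ) ^ (-(1:ℝ)/2) = 1 / 10 := by
          rw [show (100:ℝ) = 10 ^ (2:ℝ) by norm_num, ← Real.rpow_mul (by norm_num)]
          norm_num [Real.rpow_neg_one]
        rw [← e1]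
        exact Real.rpow_le_rpow_of_nonpos ha0 hsmall.le (by norm_num)
      have b5 : (20:ℝ) * 1 * (1 / 10) ≤ (4 * C + 20) * k * (|a| ^ (-(1:ℝ)/2) + X + Z) := by
        have : (1:ℝ)/10 ≤ |a| ^ (-(1:ℝ)/2) + X + Z := by linarith
        gcongr
        linarith
      linarith
    · -- large parameter
      set κ := Real.sqrt |a| with hκ
      have hκ2 : κ ^ 2 = |a| := Real.sq_sqrt ha0.le
      have hκ10 : 10 ≤ κ := by
        rw [hκ, show (10:ℝ) = Real.sqrt 100 by
          rw [show (100:ℝ) = 10 ^ 2 by norm_num, Real.sqrt_sq (by norm_num)]]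
        exact Real.sqrt_le_sqrt hbig
      have hκinv : 1 / κ = |a| ^ (-(1:ℝ)/2) := by
        rw [hκ, Real.sqrt_eq_rpow, show -(1:ℝ)/2 = -(1/2) by ring, Real.rpow_neg ha0.le, one_div]
      obtain ⟨c, o, hco⟩ := exists_kicks hT hP0 hP
      apply le_of_forall_pos_le_add
      intro δ hδ
      set ε := δ / (2 * (k + 1)) with hε
      have hε0 : 0 < ε := by positivity
      choose G hG hGf using fun i => mollify hL (hf1 i) (hfL i) hε0
      set g : ℕ → ℝ × ℝ → ℝ := fun i p => G i (p + (0, o (t i))) with hg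
      have hgO : ∀ i, Obs L (g i) := fun i => (hG i).shift _
      have hmain := hmulti κ (4 * B) a L g t k m c hκ10 hκ2 (by linarith) hL hgO ht
      -- first integral
      have d1 : |(∫ p, ∏ i ∈ Finset.range (k+1), f i (P (t i) p)) - KK a g t (k+1) c| ≤
          (k + 1) * ε := by
        rw [int_T2 hFc]
        unfold KK
        apply sq_diff (hFc.comp cont_mk2).measurable
          (FF_cont (a := a) (t := t) (k := k+1) hgO (c := fun _ : ℝ × ℝ => c)
            (fun i => continuous_const) continuous_fst continuous_snd).measurable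
        · intro p; exact hprod1 _ (fun i => hf1 i _)
        · intro p; exact abs_FF_le hgO _ _ _
        · intro p
          unfold FF
          have := abs_prod_sub_prod_le' (k+1) (u := fun i => f i (P (t i) (mk2 p)))
            (v := fun i => g i (st a c p.1 p.2 (t i))) (fun i => hf1 i _)
            (fun i => (hgO i).bdd _) (ε := ε) (by
              intro i
              have h1 := hco (t i) p.1 p.2
              rw [show mk2 p = mk2 (p.1, p.2) from rfl, h1, hg, abs_sub_comm]
              exact hGf i _)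
          push_cast at this
          exact this
      -- product of the means
      have d2 : |(∏ i ∈ Finset.range (k+1), ∫ p in Pool.Agent.Helper78.SM.sq, g i p) -
          ∏ i ∈ Finset.range (k+1), ∫ p, f i p| ≤ (k + 1) * ε := by
        have := abs_prod_sub_prod_le' (k+1) (u := fun i => ∫ p in Pool.Agent.Helper78.SM.sq, g i p)
          (v := fun i => ∫ p, f i p) (fun i => abs_mean_le (hgO i)) hint1 (ε := ε) (by
            intro i
            simp only [hg]
            rw [(hG i).int_shift, int_T2 (hfc i)]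
            exact sq_diff (hG i).smooth.continuous.measurable
              ((hfc i).comp cont_mk2).measurable (hG i).bdd (fun p => hf1 i _) (hGf i))
        push_cast at this
        exact this
      have hδ2 : (k + 1) * ε + (k + 1) * ε = δ := by
        rw [hε]; field_simp; ring
      have e4 : (4:ℝ) / (4 * B) = 1 / B := by field_simp
      rw [e4, hκinv] at hmain
      set I := ∫ p, ∏ i ∈ Finset.range (k+1), f i (P (t i) p)
      set K := KK a g t (k+1) c
      set Q := ∏ i ∈ Finset.range (k+1), ∫ p in Pool.Agent.Helper78.SM.sq, g i p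
      set R := ∏ i ∈ Finset.range (k+1), ∫ p, f i p
      have h5 : |I - R| ≤ |I - K| + |K - Q| + |Q - R| := by
        have e : I - R = (I - K) + (K - Q) + (Q - R) := by ring
        rw [e]
        exact (abs_add_le _ _).trans (add_le_add (abs_add_le _ _) le_rfl)
      have h6 : (t k : ℝ) * (4 * B) * Real.log |a| / |a| ^ 2 = 4 * X := by rw [hX]; ring
      rw [h6] at hmain
      have h7 : C * k * (|a| ^ (-(1:ℝ)/2) + 4 * X + Z) ≤
          (4 * C + 20) * k * (|a| ^ (-(1:ℝ)/2) + X + Z) := by
        have hr : 0 ≤ |a| ^ (-(1:ℝ)/2) := Real.rpow_nonneg ha0.le _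
        have h8 : 0 ≤ C * (k * |a| ^ (-(1:ℝ)/2)) := by positivity
        have h9 : 0 ≤ C * (k * Z) := by positivity
        have h10 : 0 ≤ (k:ℝ) * (|a| ^ (-(1:ℝ)/2) + X + Z) := by positivity
        nlinarith
      linarith

/-- ergodicity and weak mixing down to the scale `exp (-τ)` -/
theorem scale_mixing : ∃ C : ℝ, 0 < C ∧ ∀ a : ℝ, 2 ≤ |a| → ∀ T : T2 → T2, IsStd a T →
    ∀ τ : ℝ, 1 ≤ τ → ∀ ξ : ℂ, ‖ξ‖ = 1 →
    ∀ h : T2 → ℂ, Measurable h → (∀ p, ‖h p‖ ≤ 1) → (h ∘ T =ᵐ[volume] fun p => ξ * h p) →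
    ∀ f : T2 → ℝ, (∀ p, |f p| ≤ 1) → (∀ p q, |f p - f q| ≤ Real.exp τ * dist p q) →
    ‖(∫ p, h p * (f p : ℂ)) - (∫ p, h p) * ((∫ p, f p : ℝ) : ℂ)‖ ≤
      C * (|a| ^ (-(1:ℝ)/4) + (τ * Real.log |a| / |a| ^ 2) ^ ((1:ℝ)/4)) := by
  obtain ⟨C, hC, hmix⟩ := multiple_mixing
  refine ⟨10 * (4 * C + 1), by positivity, ?_⟩
  intro a ha T hT τ hτ ξ hξ h hh hh1 hinv f hf1 hfL
  have ha0 : 0 < |a| := by linarith
  have hlog : 0 ≤ Real.log |a| := Real.log_nonneg (by linarith)
  have hfc : Continuous f := by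
    refine LipschitzWith.continuous (K := (Real.exp τ).toNNReal)
      (LipschitzWith.of_dist_le_mul ?_)
    intro p q
    rw [Real.dist_eq, Real.coe_toNNReal _ (Real.exp_pos _).le]
    exact hfL p q
  have h1 := weak_num (a := a) (C := 4 * C + 1) ha (by linarith) hτ hT hξ hh hh1 hinv hf1 hfc (by
    intro n _
    have h2 := hmix a ha T hT (fun n => T^[n]) (fun _ => 0) (fun p => rfl)
      (fun n p => by rw [Function.iterate_succ_apply', add_zero]) 1 n (fun i => i * n)
      (by intro i hi; have : i = 0 := by omega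
          subst this; simp) (fun _ => f) (Real.exp τ) (Real.exp_pos τ).le (fun _ => hf1)
      (fun _ => hfL) 4 le_rfl
    simp only [Finset.prod_range_succ, Finset.prod_range_zero, one_mul, zero_mul,
      Function.iterate_zero, id_eq, Nat.cast_one, mul_one] at h2
    refine h2.trans ?_
    have hr : 0 ≤ |a| ^ (-(1:ℝ)/2) := Real.rpow_nonneg ha0.le _
    have hx : 0 ≤ (n:ℝ) * Real.log |a| / |a| ^ 2 := by positivity
    have hz : 0 ≤ Real.exp τ * (1 / 4) ^ (n / 4) := by positivity
    have e : (n:ℝ) * 4 * Real.log |a| / |a| ^ 2 = 4 * ((n:ℝ) * Real.log |a| / |a| ^ 2) := by ring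
    rw [e]
    nlinarith [mul_nonneg hC.le hr, mul_nonneg hC.le hx, mul_nonneg hC.le hz])
  exact h1

end Pool.Agent.Helper95.SK
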